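import Pool.Agent.Helper149.Beps.CplxB

/-!
Quantitative versions of the extension theorems of the starting library
(`Pool.Agent.Helper965.Beps.beps_of_qstar`, `Pool.Agent.Helper149.Beps.beps_complex`), and the
unconditional basis of the example.
-/

set_option maxHeartbeats 4000000

open Finset

noncomputable section

namespace Pool.Agent.Y279.BepsU

open Pool.Agent.Helper579.Beps Pool.Agent.Helper149.Beps Pool.Agent.Helper965.Beps

/-- `QStar` of `X ⊕₂ X` implies the extension property for bilinear forms on products of two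
subspaces, with a bound. -/
theorem beps_of_qstar_bd {X : Type} [NormedAddCommGroup X] [NormedSpace ℝ X] (C : ℝ)
    (hC : 0 ≤ C) (hQ' : QStar (WithLp 2 (X × X)) C) (Y Z : Submodule ℝ X)
    (B : Y →ₗ[ℝ] Z →ₗ[ℝ] ℝ)
    (b : ℝ) (hb : 0 ≤ b) (hB : ∀ (y : Y) (z : Z), |B y z| ≤ b * ‖y‖ * ‖z‖) :
    ∃ B' : X →L[ℝ] X →L[ℝ] ℝ, (∀ x z : X, |B' x z| ≤ b * C * C * ‖x‖ * ‖z‖) ∧
      ∀ (y : Y) (z : Z), B' y z = B y z := by
  have hPY : PairQ X Z C := pair_of_qstar _ hQ' Z.subtype (fun x => rfl)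
  have hPX : PairQ X X C := pair_of_qstar _ hQ' LinearMap.id (fun x => rfl)
  obtain ⟨B1, h11, h12⟩ := one_sided C hC hPY Y B b hb (fun y z => hB y z)
  obtain ⟨B2, h21, h22⟩ := one_sided C hC hPX Z B1.flip (b * C)
    (mul_nonneg hb hC) (by
    intro y z
    simp only [LinearMap.flip_apply]
    refine (h12 z y).trans (le_of_eq ?_)
    have : ‖(y : X)‖ = ‖y‖ := rfl
    rw [this]
    ring)
  refine ⟨(B2.flip).mkContinuous₂ (b * C * C) (by
    intro x z
    rw [Real.norm_eq_abs, LinearMap.flip_apply]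
    refine (h22 z x).trans (le_of_eq ?_)
    ring), ?_, ?_⟩
  · intro x z
    rw [LinearMap.mkContinuous₂_apply, LinearMap.flip_apply]
    refine (h22 z x).trans (le_of_eq ?_)
    ring
  · intro y z
    rw [LinearMap.mkContinuous₂_apply, LinearMap.flip_apply, h21, LinearMap.flip_apply, h11]

/-- complex extension of bilinear forms -/
theorem beps_complex_bd {X : Type} [NormedAddCommGroup X] [NormedSpace ℂ X] (C : ℝ) (hC : 0 ≤ C)
    (hQ : QStar (WithLp 2 (X × X)) C) (Y Z : Submodule ℂ X) (B : Y →ₗ[ℂ] Z →ₗ[ℂ] ℂ)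
    (b : ℝ) (hb : 0 ≤ b) (hB : ∀ (y : Y) (z : Z), ‖B y z‖ ≤ b * ‖y‖ * ‖z‖) :
    ∃ B' : X →ₗ[ℂ] X →ₗ[ℂ] ℂ, (∀ x z : X, ‖B' x z‖ ≤ 2 * (b * C * C) * ‖x‖ * ‖z‖) ∧
      ∀ (y : Y) (z : Z), B' y z = B y z := by
  let YR : Submodule ℝ X := Y.restrictScalars ℝ
  let cY : YR → Y := fun y => ⟨(y : X), y.2⟩
  have cadd : ∀ y z : YR, cY (y + z) = cY y + cY z := fun y z => rfl
  have csmul : ∀ (c : ℝ) (y : YR), cY (c • y) = (c : ℂ) • cY y := by
    intro c y
    apply Subtype.ext
    show c • (y : X) = (c : ℂ) • (y : X)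
    exact (Complex.coe_smul c (y : X)).symm
  let ZR : Submodule ℝ X := Z.restrictScalars ℝ
  let cZ : ZR → Z := fun y => ⟨(y : X), y.2⟩
  have cZadd : ∀ y z : ZR, cZ (y + z) = cZ y + cZ z := fun y z => rfl
  have cZsmul : ∀ (c : ℝ) (y : ZR), cZ (c • y) = (c : ℂ) • cZ y := by
    intro c y
    apply Subtype.ext
    show c • (y : X) = (c : ℂ) • (y : X)
    exact (Complex.coe_smul c (y : X)).symm
  let BR : YR →ₗ[ℝ] ZR →ₗ[ℝ] ℝ := LinearMap.mk₂ ℝ (fun y z => (B (cY y) (cZ z)).re)
    (fun y y' z => by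
      rw [cadd, map_add, LinearMap.add_apply, Complex.add_re])
    (fun c y z => by
      rw [csmul, map_smul, LinearMap.smul_apply, smul_eq_mul, Complex.re_ofReal_mul, smul_eq_mul])
    (fun y z z' => by
      rw [cZadd, map_add, Complex.add_re])
    (fun c y z => by
      rw [cZsmul, map_smul, smul_eq_mul, Complex.re_ofReal_mul, smul_eq_mul])
  have hBR : ∀ (y : YR) (z : ZR), |BR y z| ≤ b * ‖y‖ * ‖z‖ := fun y z =>
    (Complex.abs_re_le_norm _).trans (hB (cY y) (cZ z))
  obtain ⟨B1, hB1n, hB1⟩ := beps_of_qstar_bd C hC hQ YR ZR BR b hb hBR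
  have hB1' : ∀ (y : Y) (z : Z), B1 (y : X) (z : X) = (B y z).re := fun y z =>
    hB1 ⟨(y : X), y.2⟩ ⟨(z : X), z.2⟩
  -- complex decomposition of scalars
  have hdec : ∀ (c : ℂ) (x : X), c • x = c.re • x + c.im • (Complex.I • x) := by
    intro c x
    conv_lhs => rw [← Complex.re_add_im c]
    rw [add_smul, mul_smul]
    simp
  let A : X → X → ℂ := fun x z => (B1 x z : ℂ) - Complex.I * (B1 (Complex.I • x) z : ℂ)
  have hAdd1 : ∀ x x' z, A (x + x') z = A x z + A x' z := by
    intro x x' z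
    simp only [A, smul_add, map_add, add_apply, Complex.ofReal_add]
    ring
  have hAdd2 : ∀ x z z', A x (z + z') = A x z + A x z' := by
    intro x z z'
    simp only [A, map_add, Complex.ofReal_add]
    ring
  have hR2 : ∀ (r : ℝ) x z, A x (r • z) = (r : ℂ) * A x z := by
    intro r x z
    simp only [A, map_smul, smul_eq_mul, Complex.ofReal_mul]
    ring
  have hII : ∀ x : X, Complex.I • (Complex.I • x) = -x := by
    intro x
    rw [smul_smul, Complex.I_mul_I, neg_one_smul]
  have hS1 : ∀ (c : ℂ) x z, A (c • x) z = c * A x z := by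
    intro c x z
    have e1 : B1 (c • x) z = c.re * B1 x z + c.im * B1 (Complex.I • x) z := by
      rw [hdec c x, map_add, map_smul, map_smul]
      simp
    have e2 : B1 (Complex.I • (c • x)) z = c.re * B1 (Complex.I • x) z - c.im * B1 x z := by
      have h6 : Complex.I • (c • x) = c.re • (Complex.I • x) - c.im • x := by
        rw [smul_comm, hdec c (Complex.I • x), hII, smul_neg, sub_eq_add_neg]
      have h7 : ∀ (r : ℝ) (v : X), B1 (r • v) z = r * B1 v z := by
        intro r v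
        rw [map_smul]
        rfl
      rw [h6, B1.map_sub]
      show B1 (c.re • (Complex.I • x)) z - B1 (c.im • x) z = _
      rw [h7, h7]
    simp only [A, e1, e2]
    push_cast
    have h5 : Complex.I * Complex.I = -1 := Complex.I_mul_I
    conv_rhs => rw [← Complex.re_add_im c]
    linear_combination ((c.im : ℂ) * (B1 (Complex.I • x) z : ℂ)) * h5
  let A2 : X → X → ℂ := fun x z => 2⁻¹ * (A x z - Complex.I * A x (Complex.I • z))
  have hN1 : ∀ x z, A (-x) z = - A x z := by
    intro x z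
    have := hS1 (-1) x z
    simpa using this
  have hneg2 : ∀ x z, A x (-z) = - A x z := by
    intro x z
    have := hR2 (-1) x z
    simpa using this
  have hS2 : ∀ (c : ℂ) x z, A2 x (c • z) = c * A2 x z := by
    intro c x z
    have e1 : A x (c • z) = c.re * A x z + c.im * A x (Complex.I • z) := by
      rw [hdec c z, hAdd2, hR2, hR2]
    have e2 : A x (Complex.I • (c • z)) = c.re * A x (Complex.I • z) - c.im * A x z := by
      rw [smul_comm, hdec c (Complex.I • z), hAdd2, hR2, hR2, hII, hneg2]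
      ring
    simp only [A2, e1, e2]
    have h5 : Complex.I * Complex.I = -1 := Complex.I_mul_I
    conv_rhs => rw [← Complex.re_add_im c]
    linear_combination (2⁻¹ * (c.im : ℂ) * A x (Complex.I • z)) * h5
  let B' : X →ₗ[ℂ] X →ₗ[ℂ] ℂ := LinearMap.mk₂ ℂ A2
    (fun x x' z => by
      simp only [A2, hAdd1]
      ring)
    (fun c x z => by
      simp only [A2, hS1, smul_eq_mul]
      ring)
    (fun x z z' => by
      simp only [A2, smul_add, hAdd2]
      ring)
    (fun c x z => by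
      rw [hS2, smul_eq_mul])
  refine ⟨B', ?_, ?_⟩
  · intro x z
    have hBn : ∀ x z : X, ‖B1 x z‖ ≤ b * C * C * ‖x‖ * ‖z‖ := fun x z => hB1n x z
    have hA : ∀ x z, ‖A x z‖ ≤ 2 * (b * C * C) * ‖x‖ * ‖z‖ := by
      intro x z
      have h1 := hBn x z
      have h2 := hBn (Complex.I • x) z
      rw [norm_smul, Complex.norm_I, one_mul] at h2
      have h3 : ‖A x z‖ ≤ ‖(B1 x z : ℂ)‖ + ‖Complex.I * (B1 (Complex.I • x) z : ℂ)‖ :=
        norm_sub_le _ _
      rw [norm_mul, Complex.norm_I, one_mul, Complex.norm_real, Complex.norm_real] at h3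
      nlinarith
    have h1 := hA x z
    have h2 := hA x (Complex.I • z)
    rw [norm_smul, Complex.norm_I, one_mul] at h2
    have h3 : ‖B' x z‖ ≤ 2⁻¹ * (‖A x z‖ + ‖A x (Complex.I • z)‖) := by
      show ‖(2⁻¹ : ℂ) * (A x z - Complex.I * A x (Complex.I • z))‖ ≤ _
      rw [norm_mul]
      have h4 : ‖(2⁻¹ : ℂ)‖ = 2⁻¹ := by simp
      rw [h4]
      refine mul_le_mul_of_nonneg_left ?_ (by norm_num)
      refine (norm_sub_le _ _).trans (le_of_eq ?_)
      rw [norm_mul, Complex.norm_I, one_mul]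
    linarith
  · intro y z
    show A2 (y : X) (z : X) = B y z
    have hAY : ∀ (y : Y) (z : Z), A (y : X) (z : X) = B y z := by
      intro y z
      show (B1 (y : X) (z : X) : ℂ) - Complex.I * (B1 (Complex.I • (y : X)) (z : X) : ℂ) = B y z
      have h1 : Complex.I • (y : X) = ((Complex.I • y : Y) : X) := rfl
      rw [h1, hB1', hB1', map_smul, LinearMap.smul_apply, smul_eq_mul]
      apply Complex.ext <;> simp
    show 2⁻¹ * (A (y : X) (z : X) - Complex.I * A (y : X) (Complex.I • (z : X))) = B y z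
    have h1 : Complex.I • (z : X) = ((Complex.I • z : Z) : X) := rfl
    rw [h1, hAY, hAY, map_smul, smul_eq_mul]
    have h5 : Complex.I * Complex.I = -1 := Complex.I_mul_I
    linear_combination (-2⁻¹ * B y z) * h5



/-- The unit vectors of the completion. -/
def ub (g : ℕ → ℕ) (i : ℕ) : UniformSpace.Completion (X0 g) :=
  ((ee g i 1 : X0 g) : UniformSpace.Completion (X0 g))

theorem co_sum_ee (g : ℕ → ℕ) (a : ℕ → ℝ) (s : Finset ℕ) (i : ℕ) :
    co (∑ j ∈ s, a j • ee g j 1) i = if i ∈ s then a i else 0 := by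
  have h2 : ∀ s : Finset ℕ, co (∑ j ∈ s, a j • ee g j 1) i
      = ∑ j ∈ s, a j * (if j = i then 1 else 0) := by
    intro s
    induction s using Finset.induction_on with
    | empty => rfl
    | insert b s ha ih =>
      rw [Finset.sum_insert ha, Finset.sum_insert ha, ← ih]
      show a b * (Finsupp.single b (1 : ℝ)) i + _ = _
      rw [Finsupp.single_apply]
      rfl
  rw [h2 s]
  split_ifs with hi
  · rw [Finset.sum_eq_single i]
    · simp
    · intro j _ hj
      rw [if_neg hj, mul_zero]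
    · intro hh
      exact absurd hi hh
  · apply Finset.sum_eq_zero
    intro j hj
    have : j ≠ i := fun h => hi (h ▸ hj)
    rw [if_neg this, mul_zero]

theorem ub_sum (g : ℕ → ℕ) (a : ℕ → ℝ) (s : Finset ℕ) :
    ∑ j ∈ s, a j • ub g j = ((∑ j ∈ s, a j • ee g j 1 : X0 g) :
      UniformSpace.Completion (X0 g)) := by
  let c : X0 g →ₗ[ℝ] UniformSpace.Completion (X0 g) :=
    (UniformSpace.Completion.toComplₗᵢ (𝕜 := ℝ) (E := X0 g)).toLinearMap
  have h : ∀ x : X0 g, c x = (x : UniformSpace.Completion (X0 g)) := fun x => rfl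
  rw [← h, map_sum]
  apply Finset.sum_congr rfl
  intro j _
  rw [map_smul, h]
  rfl

theorem norm_ub (g : ℕ → ℕ) (i : ℕ) : ‖ub g i‖ = 1 := by
  rw [ub, UniformSpace.Completion.norm_coe, norm_X0, Nsq_ee]
  norm_num

theorem ub_mono (g : ℕ → ℕ) (s t : Finset ℕ) (hst : s ⊆ t) (a b : ℕ → ℝ)
    (h : ∀ i ∈ s, |a i| ≤ |b i|) :
    ‖∑ j ∈ s, a j • ub g j‖ ≤ ‖∑ j ∈ t, b j • ub g j‖ := by
  rw [ub_sum, ub_sum, UniformSpace.Completion.norm_coe, UniformSpace.Completion.norm_coe,
    norm_X0, norm_X0]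
  apply Real.sqrt_le_sqrt
  apply Nsq_mono
  intro i
  rw [co_sum_ee, co_sum_ee]
  by_cases hi : i ∈ s
  · rw [if_pos hi, if_pos (hst hi)]
    exact h i hi
  · rw [if_neg hi, abs_zero]
    exact abs_nonneg _

theorem mem_span_ee (g : ℕ → ℕ) (x : X0 g) :
    x ∈ Submodule.span ℝ (Set.range fun i => ee g i 1) := by
  have hx : x = ∑ i ∈ su x, co x i • ee g i 1 := by
    apply ext_co
    intro i
    rw [co_sum_ee]
    split_ifs with hi
    · rfl
    · have h1 : ¬ co x i ≠ 0 := fun h => hi (Finsupp.mem_support_iff.2 h)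
      exact not_not.mp h1
  rw [hx]
  apply Submodule.sum_mem
  intro i _
  exact Submodule.smul_mem _ _ (Submodule.subset_span ⟨i, rfl⟩)

theorem ub_dense (g : ℕ → ℕ) :
    Dense (Submodule.span ℝ (Set.range (ub g)) : Set (UniformSpace.Completion (X0 g))) := by
  have h := UniformSpace.Completion.denseRange_coe (α := X0 g)
  refine h.mono ?_
  rintro _ ⟨x, rfl⟩
  have h1 := mem_span_ee g x
  have h2 := Submodule.mem_map_of_mem (f := (UniformSpace.Completion.toComplₗᵢ (𝕜 := ℝ)
    (E := X0 g)).toLinearMap) h1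
  rw [Submodule.map_span] at h2
  refine Submodule.span_mono ?_ h2
  rintro _ ⟨_, ⟨i, rfl⟩, rfl⟩
  exact ⟨i, rfl⟩

/-- The example, with its unconditional basis. -/
theorem main_basis : ∃ (X : Type) (_ : NormedAddCommGroup X) (_ : NormedSpace ℝ X)
    (_ : CompleteSpace X) (e : ℕ → X),
      (∀ i, ‖e i‖ = 1) ∧
      (∀ s t : Finset ℕ, s ⊆ t → ∀ a b : ℕ → ℝ, (∀ i ∈ s, |a i| ≤ |b i|) →
        ‖∑ j ∈ s, a j • e j‖ ≤ ‖∑ j ∈ t, b j • e j‖) ∧
      Dense (Submodule.span ℝ (Set.range e) : Set X) ∧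
      QStar (WithLp 2 (X × X)) 861 ∧
      QStar (WithLp 2 (WithLp 2 (X × X) × WithLp 2 (X × X))) 861 ∧ FarFromTwo X := by
  obtain ⟨R, hR⟩ := abs_main
  let R2 : ℕ → ℕ := fun j => max (R j) (max (R (2 * j)) (R (2 * j + 1)))
  let g : ℕ → ℕ := fun K => 5 ^ (R2 K)
  have h1 : IsSlow1 (X0 g) R2 := slow1_X0 g R2 (fun K => le_rfl)
  have h2 : IsSlow (WithLp 2 (X0 g × X0 g)) R2 := slow_prod R2 h1
  have h3 := slow_half R2 h2
  have h4 : ∀ K, R K ≤ R2 (K / 2) := by
    intro K
    rcases Nat.even_or_odd' K with ⟨r, hr | hr⟩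
    · have : K / 2 = r := by omega
      rw [this, hr]
      exact (le_max_left _ _).trans (le_max_right _ _)
    · have : K / 2 = r := by omega
      rw [this, hr]
      exact (le_max_right _ _).trans (le_max_right _ _)
  have h5 := slow_mono h3 h4
  obtain ⟨J, hJ⟩ := dense_prod (X0 g)
  obtain ⟨J2, hJ2⟩ := dense_prod_gen J hJ
  refine ⟨UniformSpace.Completion (X0 g), inferInstance, inferInstance, inferInstance, ub g,
    norm_ub g, ub_mono g, ub_dense g, ?_, ?_, ?_⟩
  · have := qstar_dense J hJ 215 (by norm_num) (hR _ (slow_mono h2 (fun K => le_max_left _ _)))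
    norm_num at this
    exact this
  · have := qstar_dense J2 hJ2 215 (by norm_num) (hR _ h5)
    norm_num at this
    exact this
  · exact far_completion (far_X0 g)

end Pool.Agent.Y279.BepsU
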