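import Mathlib

set_option autoImplicit false

namespace Pool.Agent.Y279.PU

open Finset Filter Topology
open scoped ENNReal

/-- greedy ordering: partial sums of a list stay controlled -/
lemma greedy {𝕜 : Type} [RCLike 𝕜] {ι : Type} [DecidableEq ι] (a : ι → 𝕜) :
    ∀ (n : ℕ) (T : Finset ι), T.card = n → ∀ S₀ : 𝕜, S₀ + ∑ i ∈ T, a i = 0 →
      ∃ l : List ι, l.Nodup ∧ (∀ i, i ∈ l ↔ i ∈ T) ∧
        ∀ j : ℕ, ‖S₀ + ((l.take j).map a).sum‖ ^ 2 ≤ ‖S₀‖ ^ 2 + ∑ i ∈ T, ‖a i‖ ^ 2 := by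
  intro n
  induction n with
  | zero =>
    intro T hT S₀ h
    rw [card_eq_zero] at hT
    subst hT
    exact ⟨[], List.nodup_nil, by simp, by simp⟩
  | succ n ih =>
    intro T hT S₀ h
    have hne : T.Nonempty := by rw [← card_pos, hT]; omega
    have hre : ∑ i ∈ T, RCLike.re (a i * (starRingEnd 𝕜) S₀) ≤ 0 := by
      rw [← map_sum, ← sum_mul]
      have h2 : ∑ i ∈ T, a i = -S₀ := by rw [← sub_eq_zero, sub_neg_eq_add, add_comm, h]
      rw [h2, neg_mul, map_neg, RCLike.mul_conj]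
      have : (0 : ℝ) ≤ RCLike.re ((‖S₀‖ : 𝕜) ^ 2) := by
        rw [← RCLike.ofReal_pow, RCLike.ofReal_re]; positivity
      linarith
    obtain ⟨i, hi, hi2⟩ : ∃ i ∈ T, RCLike.re (a i * (starRingEnd 𝕜) S₀) ≤ 0 := by
      by_contra hcon
      push Not at hcon
      exact absurd hre (not_le.2 (sum_pos hcon hne))
    have hT' : (T.erase i).card = n := by rw [card_erase_of_mem hi, hT]; rfl
    have h' : (S₀ + a i) + ∑ j ∈ T.erase i, a j = 0 := by
      rw [add_assoc, add_sum_erase T a hi, h]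
    obtain ⟨l, hl1, hl2, hl3⟩ := ih (T.erase i) hT' (S₀ + a i) h'
    have hnorm : ‖S₀ + a i‖ ^ 2 ≤ ‖S₀‖ ^ 2 + ‖a i‖ ^ 2 := by
      have e := @norm_add_sq_real 𝕜 _ _ S₀ (a i)
      have e2 : inner ℝ S₀ (a i) = RCLike.re (a i * (starRingEnd 𝕜) S₀) := by
        rw [real_inner_eq_re_inner 𝕜]
        rfl
      rw [e, e2]
      linarith
    have hsplit : ∑ j ∈ T, ‖a j‖ ^ 2 = ‖a i‖ ^ 2 + ∑ j ∈ T.erase i, ‖a j‖ ^ 2 :=
      (add_sum_erase T (fun j => ‖a j‖ ^ 2) hi).symm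
    refine ⟨i :: l, ?_, ?_, ?_⟩
    · rw [List.nodup_cons]
      exact ⟨fun hmem => by have := (hl2 i).1 hmem; simp at this, hl1⟩
    · intro j
      rw [List.mem_cons, hl2, mem_erase]
      constructor
      · rintro (rfl | h3)
        · exact hi
        · exact h3.2
      · intro h3
        by_cases h4 : j = i
        · exact Or.inl h4
        · exact Or.inr ⟨h4, h3⟩
    · intro j
      cases j with
      | zero =>
        simp only [List.take_zero, List.map_nil, List.sum_nil, add_zero]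
        have : 0 ≤ ∑ j ∈ T, ‖a j‖ ^ 2 := sum_nonneg fun _ _ => by positivity
        linarith
      | succ j =>
        rw [List.take_succ_cons, List.map_cons, List.sum_cons, ← add_assoc, hsplit]
        linarith [hl3 j]


lemma order {𝕜 : Type} [RCLike 𝕜] {ι : Type} [DecidableEq ι] (T : Finset ι) (a : ι → 𝕜) :
    ∃ l : List ι, l.Nodup ∧ (∀ i, i ∈ l ↔ i ∈ T) ∧
      ∀ j : ℕ, ‖((l.take j).map a).sum‖ ≤
        ‖∑ i ∈ T, a i‖ + √(2 * (∑ i ∈ T, ‖a i‖ ^ 2 + ‖∑ i ∈ T, a i‖ ^ 2)) := by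
  rcases T.eq_empty_or_nonempty with rfl | hne
  · exact ⟨[], List.nodup_nil, by simp, by simp⟩
  set s : 𝕜 := ∑ i ∈ T, a i with hs
  set n : ℕ := T.card with hn
  have hn0 : 0 < n := card_pos.2 hne
  have hn1 : (1 : ℝ) ≤ n := by exact_mod_cast hn0
  set μ : 𝕜 := s / n with hμ
  have hnμ : (n : 𝕜) * μ = s := by
    have hn2 : (n : 𝕜) ≠ 0 := by exact_mod_cast hn0.ne'
    rw [hμ, mul_div_cancel₀ _ hn2]
  have hμn : ‖μ‖ * n = ‖s‖ := by
    rw [← hnμ, norm_mul, RCLike.norm_natCast, mul_comm]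
  obtain ⟨l, hl1, hl2, hl3⟩ := greedy (fun i => a i - μ) n T hn.symm 0 (by
    rw [zero_add, sum_sub_distrib, sum_const, ← hn, nsmul_eq_mul, hnμ, ← hs, sub_self])
  refine ⟨l, hl1, hl2, fun j => ?_⟩
  have h1 := hl3 j
  have hlen : l.length = n := by
    rw [hn, ← List.toFinset_card_of_nodup hl1]
    congr 1
    ext i
    rw [List.mem_toFinset, hl2]
  have hsum : ∀ l' : List ι, (l'.map a).sum =
      (l'.map (fun i => a i - μ)).sum + (l'.length : 𝕜) * μ := by
    intro l'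
    induction l' with
    | nil => simp
    | cons i l' ih =>
      rw [List.map_cons, List.sum_cons, ih, List.map_cons, List.sum_cons, List.length_cons]
      push_cast
      ring
  rw [hsum]
  refine (norm_add_le _ _).trans ?_
  rw [add_comm]
  refine add_le_add ?_ ?_
  · rw [norm_mul, RCLike.norm_natCast, ← hμn, mul_comm]
    refine mul_le_mul_of_nonneg_left ?_ (norm_nonneg _)
    have : (l.take j).length ≤ n := by rw [← hlen]; exact List.length_take_le' _ _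
    exact_mod_cast this
  · rw [zero_add, norm_zero] at h1
    refine Real.le_sqrt_of_sq_le (h1.trans ?_)
    have h2 : ∀ i ∈ T, ‖a i - μ‖ ^ 2 ≤ 2 * ‖a i‖ ^ 2 + 2 * ‖μ‖ ^ 2 := by
      intro i _
      have h3 := norm_sub_le (a i) μ
      have h4 : ‖a i - μ‖ ^ 2 ≤ (‖a i‖ + ‖μ‖) ^ 2 := by
        exact pow_le_pow_left₀ (norm_nonneg _) h3 2
      nlinarith [sq_nonneg (‖a i‖ - ‖μ‖)]
    have h5 := sum_le_sum h2
    rw [sum_add_distrib, ← mul_sum, sum_const, ← hn, nsmul_eq_mul] at h5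
    have h6 : (n : ℝ) * (2 * ‖μ‖ ^ 2) ≤ 2 * ‖s‖ ^ 2 := by
      rw [← hμn]
      have : (n : ℝ) ≤ n ^ 2 := by nlinarith
      nlinarith [sq_nonneg ‖μ‖]
    have h7 : (0 : ℝ) ^ 2 = 0 := by norm_num
    rw [h7, zero_add]
    linarith

/-- the block number -/
def blk (m : ℕ) : ℕ := Nat.log 2 (m + 1)

/-- the block -/
def Bk (k : ℕ) : Finset ℕ := Ico (2 ^ k - 1) (2 ^ (k + 1) - 1)

lemma mem_Bk (k m : ℕ) : m ∈ Bk k ↔ blk m = k := by
  rw [Bk, mem_Ico, blk, Nat.log_eq_iff (Or.inr ⟨by norm_num, by omega⟩)]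
  have h1 : 0 < 2 ^ k := by positivity
  have h2 : 0 < 2 ^ (k + 1) := by positivity
  omega

lemma card_Bk (k : ℕ) : (Bk k).card = 2 ^ k := by
  rw [Bk, Nat.card_Ico, pow_succ]
  have h1 : 0 < 2 ^ k := by positivity
  omega

lemma blk_ge (k i : ℕ) (hi : i < 2 ^ k) : blk (2 ^ k - 1 + i) = k := by
  rw [← mem_Bk, Bk, mem_Ico, pow_succ]
  have h1 : 0 < 2 ^ k := by positivity
  omega

/-- decomposing a position inside its block -/
lemma pos_eq (m : ℕ) : ∃ i < 2 ^ blk m, m = 2 ^ blk m - 1 + i := by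
  have h := (mem_Bk (blk m) m).2 rfl
  rw [Bk, mem_Ico, pow_succ] at h
  have h1 : 0 < 2 ^ blk m := by positivity
  exact ⟨m - (2 ^ blk m - 1), by omega, by omega⟩

/-- From orderings of the blocks get a permutation of `ℕ`. -/
lemma exists_perm (l : ℕ → List ℕ) (h1 : ∀ k, (l k).Nodup) (h2 : ∀ k i, i ∈ l k ↔ i ∈ Bk k) :
    ∃ σ : Equiv.Perm ℕ, ∀ k, ∀ j ≤ 2 ^ k, ∀ {M : Type} [AddCommMonoid M] (F : ℕ → M),
      ∑ i ∈ Ico (2 ^ k - 1) (2 ^ k - 1 + j), F (σ i) = (((l k).take j).map F).sum := by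
  have hlen : ∀ k, (l k).length = 2 ^ k := by
    intro k
    rw [← card_Bk, ← List.toFinset_card_of_nodup (h1 k)]
    congr 1
    ext i
    rw [List.mem_toFinset, h2]
  let g : ℕ → ℕ := fun m => (l (blk m)).getD (m - (2 ^ blk m - 1)) 0
  have hg : ∀ k i, i < 2 ^ k → g (2 ^ k - 1 + i) = (l k).getD i 0 := by
    intro k i hi
    simp only [g]
    rw [blk_ge k i hi, Nat.add_sub_cancel_left]
  have hgmem : ∀ m, blk (g m) = blk m := by
    intro m
    obtain ⟨i, hi, hm⟩ := pos_eq m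
    have h3 : g m = (l (blk m)).getD i 0 := by
      conv_lhs => rw [hm]
      exact hg _ _ hi
    rw [h3, ← mem_Bk, ← h2]
    have hi' : i < (l (blk m)).length := by rw [hlen]; exact hi
    rw [List.getD_eq_getElem _ _ hi']
    exact List.getElem_mem _
  have hinj : Function.Injective g := by
    intro m m' h
    have hb : blk m = blk m' := by rw [← hgmem m, ← hgmem m', h]
    obtain ⟨i, hi, hm⟩ := pos_eq m
    obtain ⟨i', hi', hm'⟩ := pos_eq m'
    rw [← hb] at hi' hm'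
    rw [hm, hm', hg _ _ hi, hg _ _ hi'] at h
    have e1 : i < (l (blk m)).length := by rw [hlen]; exact hi
    have e2 : i' < (l (blk m)).length := by rw [hlen]; exact hi'
    rw [List.getD_eq_getElem _ _ e1, List.getD_eq_getElem _ _ e2] at h
    have := (h1 (blk m)).getElem_inj_iff.1 h
    rw [hm, hm', this]
  have hsurj : Function.Surjective g := by
    intro m
    have h3 : m ∈ l (blk m) := by rw [h2, mem_Bk]
    obtain ⟨i, hi, him⟩ := List.mem_iff_getElem.1 h3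
    have hi' : i < 2 ^ blk m := by rw [← hlen]; exact hi
    refine ⟨2 ^ blk m - 1 + i, ?_⟩
    rw [hg _ _ hi', List.getD_eq_getElem _ _ hi, him]
  refine ⟨Equiv.ofBijective g ⟨hinj, hsurj⟩, fun k j hj M _ F => ?_⟩
  simp only [Equiv.ofBijective_apply]
  induction j with
  | zero => simp
  | succ j ih =>
    have hj' : j < (l k).length := by rw [hlen]; omega
    rw [← add_assoc, sum_Ico_succ_top (by omega), ih (by omega), hg k j (by omega),
      List.getD_eq_getElem _ _ hj']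
    have e : (l k).take (j + 1) = (l k).take j ++ [(l k)[j]] := by
      rw [List.take_add_one, List.getElem?_eq_getElem hj']
      rfl
    rw [e, List.map_append, List.sum_append, List.map_singleton, List.sum_singleton]

section space

variable (𝕜 : Type) [RCLike 𝕜]

abbrev W : Type := lp (fun _ : ℕ ⊕ ℕ => 𝕜) 2

variable {𝕜}

noncomputable def sg (k : ℕ ⊕ ℕ) : W 𝕜 := lp.single 2 k (1 : 𝕜)

lemma sg_apply (k j : ℕ ⊕ ℕ) : (sg k : W 𝕜) j = if j = k then 1 else 0 := by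
  classical
  rw [sg, lp.single_apply]
  by_cases h : j = k
  · subst h; simp
  · rw [Pi.single_eq_of_ne h, if_neg h]

lemma sum_sq_le (v : W 𝕜) (S : Finset (ℕ ⊕ ℕ)) : ∑ k ∈ S, ‖v k‖ ^ 2 ≤ ‖v‖ ^ 2 := by
  have h := lp.sum_rpow_le_norm_rpow (p := (2 : ℝ≥0∞)) (by norm_num) v S
  simpa using h

lemma coord_le (v : W 𝕜) (k : ℕ ⊕ ℕ) : ‖v k‖ ≤ ‖v‖ := by
  have h := sum_sq_le v {k}
  rw [sum_singleton] at h
  exact (sq_le_sq₀ (norm_nonneg _) (norm_nonneg _)).1 h

lemma norm_sum_single_sq (S : Finset (ℕ ⊕ ℕ)) (c : ℕ ⊕ ℕ → 𝕜) :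
    ‖∑ k ∈ S, c k • (sg k : W 𝕜)‖ ^ 2 = ∑ k ∈ S, ‖c k‖ ^ 2 := by
  classical
  have h := lp.norm_sum_single (E := fun _ : ℕ ⊕ ℕ => 𝕜) (p := (2 : ℝ≥0∞)) (by norm_num) c S
  have e : ∀ k, (lp.single 2 k (c k) : W 𝕜) = c k • sg k := by
    intro k
    rw [sg, ← lp.single_smul]; simp
  simp_rw [e] at h
  simpa using h

/-- coordinate functional on the ambient space -/
noncomputable def ev (k : ℕ ⊕ ℕ) : W 𝕜 →L[𝕜] 𝕜 := lp.evalCLM 𝕜 (fun _ : ℕ ⊕ ℕ => 𝕜) 2 k

lemma ev_apply (k : ℕ ⊕ ℕ) (v : W 𝕜) : ev k v = v k := rfl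

variable (𝕜) in
/-- the space -/
noncomputable def E : Submodule 𝕜 (W 𝕜) :=
  ⨅ k : ℕ, LinearMap.ker
    ((ev (Sum.inr k) - ∑ m ∈ Bk k, ev (Sum.inl m) : W 𝕜 →L[𝕜] 𝕜) : W 𝕜 →ₗ[𝕜] 𝕜)

lemma mem_E (v : W 𝕜) : v ∈ E 𝕜 ↔ ∀ k, v (Sum.inr k) = ∑ m ∈ Bk k, v (Sum.inl m) := by
  simp only [E, Submodule.mem_iInf, LinearMap.mem_ker]
  refine forall_congr' fun k => ?_
  simp only [ContinuousLinearMap.coe_coe, _root_.sub_apply,
    _root_.sum_apply, ev_apply, sub_eq_zero]

lemma E_closed : IsClosed (E 𝕜 : Set (W 𝕜)) := by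
  have : (E 𝕜 : Set (W 𝕜)) = ⋂ k : ℕ, {v | ev (Sum.inr k) v = ∑ m ∈ Bk k, ev (Sum.inl m) v} := by
    ext v; simp only [SetLike.mem_coe, mem_E, Set.mem_iInter, Set.mem_ofPred_eq, ev_apply]
  rw [this]
  exact isClosed_iInter fun k => isClosed_eq (ev _).continuous
    (continuous_finsetSum _ fun m _ => (ev _).continuous)

instance : CompleteSpace (E 𝕜) := E_closed.completeSpace_coe

/-- the vectors -/
noncomputable def x (m : ℕ) : E 𝕜 :=
  ⟨sg (Sum.inl m) + sg (Sum.inr (blk m)), by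
    rw [mem_E]
    intro k
    simp only [lp.coeFn_add, Pi.add_apply, sg_apply, Sum.inr.injEq, Sum.inl.injEq,
      reduceCtorEq, if_false, add_zero, zero_add]
    rw [sum_ite_eq']
    exact if_congr (by rw [mem_Bk, eq_comm]) rfl rfl⟩

lemma x_coe (m : ℕ) : ((x m : E 𝕜) : W 𝕜) = sg (Sum.inl m) + sg (Sum.inr (blk m)) := rfl

/-- coordinate functionals on the space -/
noncomputable def f (m : ℕ) : E 𝕜 →L[𝕜] 𝕜 := (ev (Sum.inl m)).comp (E 𝕜).subtypeL

lemma f_apply (m : ℕ) (v : E 𝕜) : f m v = (v : W 𝕜) (Sum.inl m) := rfl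

lemma f_x (m n : ℕ) : f m (x n : E 𝕜) = if m = n then 1 else 0 := by
  rw [f_apply, x_coe, lp.coeFn_add, Pi.add_apply, sg_apply, sg_apply]
  simp

/-- norm of a combination inside a block -/
lemma norm_block_comb (k : ℕ) (P : Finset ℕ) (hP : ∀ m ∈ P, blk m = k) (c : ℕ → 𝕜) :
    ‖∑ m ∈ P, c m • (x m : E 𝕜)‖ ^ 2 = ∑ m ∈ P, ‖c m‖ ^ 2 + ‖∑ m ∈ P, c m‖ ^ 2 := by
  classical
  have e1 : ((∑ m ∈ P, c m • (x m : E 𝕜) : E 𝕜) : W 𝕜) =
      ∑ j ∈ P.disjSum {k}, (Sum.elim c (fun _ => ∑ m ∈ P, c m) j) • (sg j : W 𝕜) := by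
    rw [sum_disjSum, sum_singleton, Submodule.coe_sum]
    simp only [Sum.elim_inl, Sum.elim_inr, Submodule.coe_smul, x_coe, smul_add, sum_add_distrib]
    congr 1
    rw [sum_smul]
    exact sum_congr rfl fun m hm => by rw [hP m hm]
  rw [← Submodule.norm_coe, e1, norm_sum_single_sq, sum_disjSum, sum_singleton]
  rfl

/-- partial sums over full blocks converge -/
lemma tendsto_full (v : E 𝕜) :
    Tendsto (fun k : ℕ => ∑ m ∈ range (2 ^ k - 1), f m v • (x m : E 𝕜)) atTop (𝓝 v) := by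
  classical
  rw [tendsto_subtype_rng]
  have h := lp.hasSum_single (p := (2 : ℝ≥0∞)) (by norm_num) (v : W 𝕜)
  rw [HasSum] at h
  let F : ℕ → Finset (ℕ ⊕ ℕ) := fun k => (range (2 ^ k - 1)).disjSum (range k)
  have hF : Tendsto F atTop atTop := by
    refine tendsto_atTop_finset_of_monotone ?_ ?_
    · intro k k' hk
      refine disjSum_mono ?_ (range_subset_range.2 hk)
      refine range_subset_range.2 ?_
      have := Nat.pow_le_pow_right (n := 2) (by norm_num) hk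
      omega
    · rintro (m | j)
      · refine ⟨m + 1, ?_⟩
        simp only [F, inl_mem_disjSum, mem_range]
        have := Nat.lt_two_pow_self (n := m + 1)
        omega
      · exact ⟨j + 1, by simp [F]⟩
  have h2 := h.comp hF
  refine h2.congr fun k => ?_
  have hE := (mem_E (v : W 𝕜)).1 v.2
  have e : ∀ j, (lp.single 2 j ((v : W 𝕜) j) : W 𝕜) = (v : W 𝕜) j • sg j := by
    intro j
    rw [sg, ← lp.single_smul]; simp
  simp only [Function.comp_apply, F]
  simp_rw [e]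
  rw [sum_disjSum, Submodule.coe_sum]
  simp only [Submodule.coe_smul, x_coe, smul_add, sum_add_distrib, f_apply]
  congr 1
  -- the inr part
  have hmaps : ∀ m ∈ range (2 ^ k - 1), blk m ∈ range k := by
    intro m hm
    rw [mem_range] at hm ⊢
    by_contra hcon
    push Not at hcon
    have h3 := (mem_Bk (blk m) m).2 rfl
    rw [Bk, mem_Ico] at h3
    have := Nat.pow_le_pow_right (n := 2) (by norm_num) hcon
    omega
  rw [← sum_fiberwise_of_maps_to hmaps]
  refine sum_congr rfl fun j hj => ?_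
  have hfil : (range (2 ^ k - 1)).filter (fun m => blk m = j) = Bk j := by
    ext m
    rw [mem_filter, mem_Bk, mem_range]
    refine ⟨fun h => h.2, fun h => ⟨?_, h⟩⟩
    have h3 := (mem_Bk j m).2 h
    rw [Bk, mem_Ico] at h3
    rw [mem_range] at hj
    have := Nat.pow_le_pow_right (n := 2) (by norm_num) hj
    omega
  rw [hfil, hE j, sum_smul]
  exact sum_congr rfl fun m hm => by rw [(mem_Bk j m).1 hm]

/-- block energies tend to zero -/
lemma energy (v : E 𝕜) : Tendsto (fun k : ℕ => ∑ m ∈ Bk k, ‖f m v‖ ^ 2 +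
    ‖∑ m ∈ Bk k, f m v‖ ^ 2) atTop (𝓝 0) := by
  have h1 := tendsto_full v
  have h2 : Tendsto (fun k : ℕ => ∑ m ∈ range (2 ^ (k + 1) - 1), f m v • (x m : E 𝕜) -
      ∑ m ∈ range (2 ^ k - 1), f m v • (x m : E 𝕜)) atTop (𝓝 (v - v)) :=
    ((tendsto_add_atTop_iff_nat 1).2 h1).sub h1
  rw [sub_self] at h2
  have h3 := (h2.norm.pow 2)
  rw [norm_zero] at h3
  have h4 : (0 : ℝ) ^ 2 = 0 := by norm_num
  rw [h4] at h3
  refine h3.congr fun k => ?_
  rw [← norm_block_comb k (Bk k) (fun m hm => (mem_Bk k m).1 hm)]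
  have hle : 2 ^ k - 1 ≤ 2 ^ (k + 1) - 1 := by
    have := Nat.pow_le_pow_right (n := 2) (by norm_num) (Nat.le_succ k)
    omega
  rw [← sum_range_add_sum_Ico _ hle, add_sub_cancel_left]
  rfl

/-- every vector has a rearranged expansion -/
lemma exists_expansion (v : E 𝕜) : ∃ σ : Equiv.Perm ℕ,
    Tendsto (fun N => ∑ i ∈ range N, f (σ i) v • (x (σ i) : E 𝕜)) atTop (𝓝 v) := by
  classical
  choose l hl1 hl2 hl3 using fun k => order (Bk k) (fun m => f m v)
  obtain ⟨σ, hσ⟩ := exists_perm l hl1 hl2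
  refine ⟨σ, ?_⟩
  -- full blocks
  have hfull : ∀ k, ∑ i ∈ range (2 ^ k - 1), f (σ i) v • (x (σ i) : E 𝕜) =
      ∑ m ∈ range (2 ^ k - 1), f m v • (x m : E 𝕜) := by
    intro k
    induction k with
    | zero => simp
    | succ k ih =>
      have h1 : 2 ^ k - 1 ≤ 2 ^ (k + 1) - 1 := by
        have := Nat.pow_le_pow_right (n := 2) (by norm_num) (Nat.le_succ k)
        omega
      rw [← sum_range_add_sum_Ico _ h1, ← sum_range_add_sum_Ico _ h1, ih]
      congr 1
      have h2 : 2 ^ (k + 1) - 1 = 2 ^ k - 1 + 2 ^ k := by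
        have : 0 < 2 ^ k := by positivity
        rw [pow_succ]; omega
      have h3 := hσ k (2 ^ k) le_rfl (fun m => f m v • (x m : E 𝕜))
      have hlen : (l k).length = 2 ^ k := by
        rw [← card_Bk, ← List.toFinset_card_of_nodup (hl1 k)]
        congr 1
        ext i
        rw [List.mem_toFinset, hl2]
      rw [List.take_of_length_le hlen.le] at h3
      rw [h2, h3, ← List.sum_toFinset _ (hl1 k)]
      refine sum_congr ?_ fun _ _ => rfl
      ext m
      rw [List.mem_toFinset, hl2, Bk, h2]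
  -- error bound
  have hbd : ∀ N, ‖∑ i ∈ range N, f (σ i) v • (x (σ i) : E 𝕜) -
      ∑ m ∈ range (2 ^ blk N - 1), f m v • (x m : E 𝕜)‖ ≤
      √(∑ m ∈ Bk (blk N), ‖f m v‖ ^ 2) + (‖∑ m ∈ Bk (blk N), f m v‖ +
        √(2 * (∑ m ∈ Bk (blk N), ‖f m v‖ ^ 2 + ‖∑ m ∈ Bk (blk N), f m v‖ ^ 2))) := by
    intro N
    obtain ⟨i, hi, hN⟩ := pos_eq N
    set k := blk N with hk
    have h1 : 2 ^ k - 1 ≤ N := by omega
    rw [← sum_range_add_sum_Ico _ h1, hfull, add_sub_cancel_left]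
    have h2 := hσ k i hi.le (fun m => f m v • (x m : E 𝕜))
    rw [← hN] at h2
    rw [h2]
    set P : Finset ℕ := ((l k).take i).toFinset with hP
    have hnd : ((l k).take i).Nodup := (hl1 k).sublist (List.take_sublist _ _)
    have hPs : P ⊆ Bk k := by
      intro m hm
      rw [hP, List.mem_toFinset] at hm
      rw [← hl2]
      exact List.mem_of_mem_take hm
    have h3 : (((l k).take i).map (fun m => f m v • (x m : E 𝕜))).sum =
        ∑ m ∈ P, f m v • (x m : E 𝕜) := by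
      rw [hP, List.sum_toFinset _ hnd]
    have h4 : (((l k).take i).map (fun m => f m v)).sum = ∑ m ∈ P, f m v := by
      rw [hP, List.sum_toFinset _ hnd]
    rw [h3]
    have h5 := norm_block_comb k P (fun m hm => (mem_Bk k m).1 (hPs hm)) (fun m => f m v)
    have h6 : ‖∑ m ∈ P, f m v • (x m : E 𝕜)‖ ≤ √(∑ m ∈ P, ‖f m v‖ ^ 2) + ‖∑ m ∈ P, f m v‖ := by
      have h7 : 0 ≤ ∑ m ∈ P, ‖f m v‖ ^ 2 := sum_nonneg fun _ _ => by positivity
      refine abs_le_of_sq_le_sq' ?_ (by positivity) |>.2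
      rw [h5, add_sq, Real.sq_sqrt h7]
      have : 0 ≤ 2 * √(∑ m ∈ P, ‖f m v‖ ^ 2) * ‖∑ m ∈ P, f m v‖ := by positivity
      linarith
    refine h6.trans (add_le_add ?_ ?_)
    · exact Real.sqrt_le_sqrt (sum_le_sum_of_subset_of_nonneg hPs fun _ _ _ => by positivity)
    · rw [← h4]
      exact hl3 k i
  -- conclusion
  have hblk : Tendsto blk atTop atTop := by
    refine tendsto_atTop.2 fun b => ?_
    filter_upwards [eventually_ge_atTop (2 ^ b)] with m hm
    rw [blk]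
    exact Nat.le_log_of_pow_le (by norm_num) (by omega)
  have hen := energy v
  have hA : Tendsto (fun k : ℕ => √(∑ m ∈ Bk k, ‖f m v‖ ^ 2)) atTop (𝓝 0) := by
    have : Tendsto (fun k : ℕ => ∑ m ∈ Bk k, ‖f m v‖ ^ 2) atTop (𝓝 0) :=
      squeeze_zero (fun k => sum_nonneg fun _ _ => by positivity)
        (fun k => le_add_of_nonneg_right (by positivity)) hen
    simpa using this.sqrt
  have hB : Tendsto (fun k : ℕ => ‖∑ m ∈ Bk k, f m v‖) atTop (𝓝 0) := by
    have : Tendsto (fun k : ℕ => ‖∑ m ∈ Bk k, f m v‖ ^ 2) atTop (𝓝 0) :=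
      squeeze_zero (fun k => by positivity)
        (fun k => le_add_of_nonneg_left (sum_nonneg fun _ _ => by positivity)) hen
    have h2 := this.sqrt
    simpa [Real.sqrt_sq (norm_nonneg _)] using h2
  have hC : Tendsto (fun k : ℕ => √(2 * (∑ m ∈ Bk k, ‖f m v‖ ^ 2 + ‖∑ m ∈ Bk k, f m v‖ ^ 2)))
      atTop (𝓝 0) := by
    have := (hen.const_mul 2).sqrt
    simpa using this
  have hD := (hA.add (hB.add hC)).comp hblk
  rw [add_zero, add_zero] at hD
  have hE := squeeze_zero_norm hbd hD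
  have hG := hE.add ((tendsto_full v).comp hblk)
  rw [zero_add] at hG
  refine hG.congr fun N => ?_
  simp

end space

end Pool.Agent.Y279.PU
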