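import Mathlib
import Pool.Agent.Y279.PU

set_option autoImplicit false

namespace Pool.Agent.Y279.PU

open Finset Filter Topology
open scoped ENNReal

variable {𝕜 : Type} [RCLike 𝕜]

/-- coefficients are unique -/
lemma coeff_unique (v : E 𝕜) (β : ℕ → 𝕜) (π : Equiv.Perm ℕ)
    (h : Tendsto (fun N => ∑ i ∈ range N, β (π i) • (x (π i) : E 𝕜)) atTop (𝓝 v)) (m : ℕ) :
    β m = f m v := by
  have h1 : Tendsto (fun N => f m (∑ i ∈ range N, β (π i) • (x (π i) : E 𝕜))) atTop
      (𝓝 (f m v)) := ((f m).continuous.tendsto v).comp h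
  refine tendsto_nhds_unique (tendsto_atTop_of_eventually_const (i₀ := π.symm m + 1) ?_) h1
  intro N hN
  rw [map_sum]
  simp_rw [map_smul, f_x, smul_eq_mul]
  rw [Finset.sum_eq_single (π.symm m)]
  · simp
  · intro b _ hb
    rw [if_neg, mul_zero]
    rintro rfl
    exact hb (by simp)
  · intro h2
    exact absurd (mem_range.2 (by omega)) h2

lemma not_mem_closure (m : ℕ) :
    (x m : E 𝕜) ∉ closure
      ((Submodule.span 𝕜 ((x : ℕ → E 𝕜) '' {n | n ≠ m}) : Submodule 𝕜 (E 𝕜)) : Set (E 𝕜)) := by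
  intro h
  have hsub : ((Submodule.span 𝕜 ((x : ℕ → E 𝕜) '' {n | n ≠ m}) : Submodule 𝕜 (E 𝕜)) :
      Set (E 𝕜)) ⊆ {v | f m v = 0} := by
    intro v hv
    have hle : Submodule.span 𝕜 ((x : ℕ → E 𝕜) '' {n | n ≠ m}) ≤
        LinearMap.ker ((f m : E 𝕜 →L[𝕜] 𝕜) : E 𝕜 →ₗ[𝕜] 𝕜) := by
      rw [Submodule.span_le]
      rintro _ ⟨n, hn, rfl⟩
      rw [SetLike.mem_coe, LinearMap.mem_ker]
      change f m (x n) = 0
      rw [f_x, if_neg (Ne.symm hn)]
    exact hle hv
  have hcl : IsClosed {v : E 𝕜 | f m v = 0} := isClosed_eq (f m).continuous continuous_const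
  have h2 := closure_minimal hsub hcl h
  rw [Set.mem_ofPred_eq, f_x, if_pos rfl] at h2
  exact one_ne_zero h2

instance : TopologicalSpace.SeparableSpace (E 𝕜) := by
  rw [← TopologicalSpace.isSeparable_univ_iff]
  have h1 : TopologicalSpace.IsSeparable (Set.range (x : ℕ → E 𝕜)) :=
    (Set.countable_range _).isSeparable
  have h2 := (h1.span (R := 𝕜)).closure
  refine h2.mono fun v _ => ?_
  refine mem_closure_of_tendsto (tendsto_full v) (Eventually.of_forall fun k => ?_)
  exact Submodule.sum_mem _ fun m _ => Submodule.smul_mem _ _ (Submodule.subset_span ⟨m, rfl⟩)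

/-- discrete intermediate value: a first time at which half of a block has been used -/
lemma exists_half (τ : Equiv.Perm ℕ) (B : Finset ℕ) (c : ℕ) (hc : c ≤ B.card) :
    ∃ N : ℕ, (B.filter fun m => τ.symm m < N).card = c := by
  induction c with
  | zero => exact ⟨0, by simp⟩
  | succ c ih =>
    obtain ⟨N₀, hN₀⟩ := ih (by omega)
    -- the least N with card > c
    have hex : ∃ N, c < (B.filter fun m => τ.symm m < N).card := by
      refine ⟨B.sup (fun m => τ.symm m) + 1, ?_⟩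
      rw [filter_true_of_mem]
      · omega
      · intro m hm
        have : τ.symm m ≤ B.sup (fun m => τ.symm m) := le_sup (f := fun m => τ.symm m) hm
        omega
    classical
    let N := Nat.find hex
    have hN : c < (B.filter fun m => τ.symm m < N).card := Nat.find_spec hex
    have hN0 : N ≠ 0 := by
      intro h0
      rw [h0] at hN
      simp at hN
    obtain ⟨M, hM⟩ := Nat.exists_eq_succ_of_ne_zero hN0
    have hM2 : ¬ c < (B.filter fun m => τ.symm m < M).card := Nat.find_min hex (by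
      change M < N
      omega)
    refine ⟨N, le_antisymm ?_ hN⟩
    have hsub : (B.filter fun m => τ.symm m < N) ⊆
        insert (τ M) (B.filter fun m => τ.symm m < M) := by
      intro m hm
      rw [mem_filter] at hm
      rw [mem_insert, mem_filter]
      by_cases h : τ.symm m = M
      · left; rw [← h, Equiv.apply_symm_apply]
      · right; exact ⟨hm.1, by omega⟩
    have := (card_le_card hsub).trans (card_insert_le _ _)
    omega

lemma no_basis (τ : Equiv.Perm ℕ)
    (h : ∀ v : E 𝕜, ∃ α : ℕ → 𝕜,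
      Tendsto (fun N => ∑ i ∈ range N, α i • (x (τ i) : E 𝕜)) atTop (𝓝 v)) : False := by
  classical
  -- partial sum operators
  let S : ℕ → E 𝕜 →L[𝕜] E 𝕜 := fun N => ∑ i ∈ range N, (f (τ i)).smulRight (x (τ i))
  have hS : ∀ N v, S N v = ∑ i ∈ range N, f (τ i) v • (x (τ i) : E 𝕜) := by
    intro N v
    simp only [S]
    rw [_root_.sum_apply]
    rfl
  have hlim : ∀ v, Tendsto (fun N => S N v) atTop (𝓝 v) := by
    intro v
    obtain ⟨α, hα⟩ := h v
    have h2 : ∀ i, α i = f (τ i) v := by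
      intro i
      have h3 := coeff_unique v (fun m => α (τ.symm m)) τ (by simpa using hα) (τ i)
      simpa using h3
    refine hα.congr fun N => ?_
    rw [hS]
    exact sum_congr rfl fun i _ => by rw [h2]
  have hbdd : ∀ v, ∃ C, ∀ N, ‖S N v‖ ≤ C := by
    intro v
    obtain ⟨C, hC⟩ := (Metric.isBounded_range_of_tendsto _ (hlim v)).exists_norm_le
    exact ⟨C, fun N => hC _ ⟨N, rfl⟩⟩
  obtain ⟨C, hC⟩ := banach_steinhaus hbdd
  have hC0 : 0 ≤ C := le_trans (norm_nonneg (S 0)) (hC 0)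
  obtain ⟨k, hk⟩ := pow_unbounded_of_one_lt (4 * C ^ 2 + 1) (by norm_num : (1 : ℝ) < 2)
  have hk0 : k ≠ 0 := by
    rintro rfl
    rw [pow_zero] at hk
    nlinarith [sq_nonneg C]
  obtain ⟨k', hk'⟩ := Nat.exists_eq_succ_of_ne_zero hk0
  obtain ⟨N, hN⟩ := exists_half τ (Bk k) (2 ^ k') (by
    rw [card_Bk]; exact Nat.pow_le_pow_right (by norm_num) (by omega))
  set A := (Bk k).filter fun m => τ.symm m < N with hA
  let c : ℕ → 𝕜 := fun m => if m ∈ A then 1 else -1
  let v : E 𝕜 := ∑ m ∈ Bk k, c m • x m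
  have hfv : ∀ j, f j v = if j ∈ Bk k then c j else 0 := by
    intro j
    simp only [v]
    rw [map_sum]
    simp_rw [map_smul, f_x, smul_eq_mul, mul_ite, mul_one, mul_zero]
    rw [sum_ite_eq]
  have hcn : ∀ m, ‖c m‖ = 1 := by
    intro m
    simp only [c]
    split_ifs <;> simp
  have hcardk : ((Bk k).card : ℝ) = 2 ^ k := by rw [card_Bk]; push_cast; ring
  have hcsum : ∑ m ∈ Bk k, c m = 0 := by
    have h1 : ∑ m ∈ Bk k, c m = ∑ m ∈ Bk k, (2 * (if m ∈ A then (1 : 𝕜) else 0) - 1) := by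
      refine sum_congr rfl fun m _ => ?_
      simp only [c]
      split_ifs <;> ring
    rw [h1, sum_sub_distrib, ← mul_sum, sum_ite_mem, sum_const, sum_const]
    have h2 : Bk k ∩ A = A := inter_eq_right.2 (filter_subset _ _)
    rw [h2, hN, card_Bk, hk']
    simp only [nsmul_eq_mul, mul_one]
    push_cast
    rw [Nat.succ_eq_add_one, pow_succ]
    ring
  have hvn : ‖v‖ ^ 2 = 2 ^ k := by
    simp only [v]
    rw [norm_block_comb k (Bk k) (fun m hm => (mem_Bk k m).1 hm), hcsum]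
    simp_rw [hcn]
    simp [hcardk]
  have hSv : S N v = ∑ m ∈ A, (1 : 𝕜) • (x m : E 𝕜) := by
    rw [hS]
    simp_rw [hfv]
    have h1 : ∑ i ∈ range N, (if τ i ∈ Bk k then c (τ i) else 0) • (x (τ i) : E 𝕜) =
        ∑ m ∈ (range N).map τ.toEmbedding, (if m ∈ Bk k then c m else 0) • (x m : E 𝕜) := by
      rw [sum_map]; rfl
    rw [h1]
    have h2 : A ⊆ (range N).map τ.toEmbedding := by
      intro m hm
      rw [hA, mem_filter] at hm
      rw [Finset.mem_map]
      exact ⟨τ.symm m, mem_range.2 hm.2, by simp⟩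
    rw [← sum_subset h2]
    · refine sum_congr rfl fun m hm => ?_
      have h3 : m ∈ Bk k := (mem_filter.1 hm).1
      rw [if_pos h3]
      simp only [c]
      rw [if_pos hm]
    · intro m hm hmA
      rw [if_neg, zero_smul]
      intro h3
      refine hmA ?_
      rw [hA, mem_filter]
      refine ⟨h3, ?_⟩
      rw [Finset.mem_map] at hm
      obtain ⟨i, hi, rfl⟩ := hm
      simpa using hi
  have hSn : (2 ^ k' : ℝ) ^ 2 ≤ ‖S N v‖ ^ 2 := by
    rw [hSv, norm_block_comb k A (fun m hm => (mem_Bk k m).1 (mem_filter.1 hm).1)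
      (fun _ => (1 : 𝕜))]
    rw [sum_const, sum_const, hN]
    simp only [nsmul_eq_mul, mul_one, norm_one, one_pow]
    push_cast
    have h5 : ‖(2 : 𝕜) ^ k'‖ = 2 ^ k' := by
      rw [norm_pow]
      norm_num
    rw [h5]
    have : (0 : ℝ) ≤ 2 ^ k' := by positivity
    linarith
  have h6 : ‖S N v‖ ^ 2 ≤ C ^ 2 * ‖v‖ ^ 2 := by
    rw [← mul_pow]
    exact pow_le_pow_left₀ (norm_nonneg _)
      (((S N).le_opNorm v).trans (mul_le_mul_of_nonneg_right (hC N) (norm_nonneg _))) 2
  rw [hvn] at h6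
  have h7 : (2 : ℝ) ^ k = 2 * 2 ^ k' := by rw [hk', Nat.succ_eq_add_one, pow_succ]; ring
  have h8 : (0 : ℝ) < 2 ^ k' := by positivity
  rw [h7] at h6 hk
  have h9 : (2 ^ k' : ℝ) ^ 2 ≤ C ^ 2 * (2 * 2 ^ k') := hSn.trans h6
  have h10 : (2 : ℝ) ^ k' ≤ 2 * C ^ 2 := by
    nlinarith
  linarith

end Pool.Agent.Y279.PU
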