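import Mathlib

set_option autoImplicit false

namespace Pool.Agent.Y279.MB

open Filter Topology
open scoped ENNReal

variable (𝕜 : Type) [RCLike 𝕜]

abbrev L : Type := lp (fun _ : ℕ => 𝕜) ∞

/-- the index set of sequences with `‖y n‖ ≤ n` -/
abbrev Γ : Type := {y : L 𝕜 // ∀ n : ℕ, ‖y n‖ ≤ n}

abbrev M : Type := lp (fun _ : Γ 𝕜 => 𝕜) 1

abbrev E : Type := L 𝕜 × M 𝕜

variable {𝕜}

lemma summable_norm (w : M 𝕜) : Summable fun γ => ‖w γ‖ := by
  have h := (lp.memℓp w).summable (by norm_num)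
  simpa using h

lemma norm_eq (w : M 𝕜) : ‖w‖ = ∑' γ, ‖w γ‖ := by
  rw [lp.norm_eq_tsum_rpow (by norm_num)]
  simp

lemma summable_h (n : ℕ) (w : M 𝕜) : Summable fun γ : Γ 𝕜 => w γ * (γ : L 𝕜) n := by
  refine Summable.of_norm_bounded ((summable_norm w).mul_right (n : ℝ)) fun γ => ?_
  rw [norm_mul]
  exact mul_le_mul_of_nonneg_left (γ.2 n) (norm_nonneg _)

noncomputable def h (n : ℕ) : M 𝕜 →L[𝕜] 𝕜 :=
  LinearMap.mkContinuous
    { toFun := fun w => ∑' γ : Γ 𝕜, w γ * (γ : L 𝕜) n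
      map_add' := by
        intro w w'
        rw [← (summable_h n w).tsum_add (summable_h n w')]
        refine tsum_congr fun γ => ?_
        rw [lp.coeFn_add, Pi.add_apply, add_mul]
      map_smul' := by
        intro c w
        rw [RingHom.id_apply, smul_eq_mul, ← tsum_mul_left]
        refine tsum_congr fun γ => ?_
        rw [lp.coeFn_smul, Pi.smul_apply, smul_eq_mul, mul_assoc] }
    (n : ℝ) (by
      intro w
      change ‖∑' γ : Γ 𝕜, w γ * (γ : L 𝕜) n‖ ≤ n * ‖w‖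
      rw [norm_eq, mul_comm, ← tsum_mul_right]
      refine tsum_of_norm_bounded ((summable_norm w).mul_right (n : ℝ)).hasSum fun γ => ?_
      rw [norm_mul]
      exact mul_le_mul_of_nonneg_left (γ.2 n) (norm_nonneg _))

lemma h_apply (n : ℕ) (w : M 𝕜) : h n w = ∑' γ : Γ 𝕜, w γ * (γ : L 𝕜) n := rfl

noncomputable def eL (n : ℕ) : L 𝕜 := lp.single ∞ n (1 : 𝕜)

noncomputable def eM [DecidableEq (Γ 𝕜)] (γ : Γ 𝕜) : M 𝕜 := lp.single 1 γ (1 : 𝕜)

lemma eL_apply (n m : ℕ) : (eL n : L 𝕜) m = if m = n then 1 else 0 := by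
  rw [eL, lp.single_apply]
  by_cases h : m = n
  · subst h; simp
  · rw [Pi.single_eq_of_ne h, if_neg h]

/-- the functionals -/
noncomputable def f : ℕ ⊕ Γ 𝕜 → (E 𝕜 →L[𝕜] 𝕜) :=
  Sum.elim
    (fun n => (lp.evalCLM 𝕜 (fun _ : ℕ => 𝕜) ∞ n).comp (ContinuousLinearMap.fst 𝕜 (L 𝕜) (M 𝕜)) -
      (h n).comp (ContinuousLinearMap.snd 𝕜 (L 𝕜) (M 𝕜)))
    (fun γ => (lp.evalCLM 𝕜 (fun _ : Γ 𝕜 => 𝕜) 1 γ).comp
      (ContinuousLinearMap.snd 𝕜 (L 𝕜) (M 𝕜)))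

lemma f_inl (n : ℕ) (v : E 𝕜) : f (Sum.inl n) v = v.1 n - h n v.2 := rfl

lemma f_inr (γ : Γ 𝕜) (v : E 𝕜) : f (Sum.inr γ) v = v.2 γ := rfl

variable [DecidableEq (Γ 𝕜)]

lemma eM_apply (γ γ' : Γ 𝕜) : (eM γ : M 𝕜) γ' = if γ' = γ then 1 else 0 := by
  rw [eM, lp.single_apply]
  by_cases h : γ' = γ
  · subst h; simp
  · rw [Pi.single_eq_of_ne h, if_neg h]

lemma norm_eM (γ : Γ 𝕜) : ‖(eM γ : M 𝕜)‖ = 1 := by
  rw [eM, lp.norm_single (by norm_num)]; simp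

lemma h_eM (n : ℕ) (γ : Γ 𝕜) : h n (eM γ) = (γ : L 𝕜) n := by
  rw [h_apply, tsum_eq_single γ]
  · rw [eM_apply, if_pos rfl, one_mul]
  · intro γ' hne
    rw [eM_apply, if_neg hne, zero_mul]

/-- the system -/
noncomputable def x : ℕ ⊕ Γ 𝕜 → E 𝕜 :=
  Sum.elim (fun n => (eL n, 0)) (fun γ => ((γ : L 𝕜), eM γ))

lemma biorth (i j : ℕ ⊕ Γ 𝕜) : f j (x i) = if i = j then 1 else 0 := by
  rcases j with n | γ <;> rcases i with m | γ'
  · rw [f_inl]
    simp only [x, Sum.elim_inl, map_zero, sub_zero, eL_apply, Sum.inl.injEq]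
    exact if_congr eq_comm rfl rfl
  · rw [f_inl]
    simp only [x, Sum.elim_inr, h_eM, sub_self, reduceCtorEq, if_false]
  · rw [f_inr]
    simp only [x, Sum.elim_inl, reduceCtorEq, if_false]
    rfl
  · rw [f_inr]
    simp only [x, Sum.elim_inr, eM_apply, Sum.inr.injEq]
    exact if_congr eq_comm rfl rfl

omit [DecidableEq (Γ 𝕜)] in
lemma total (v : E 𝕜) (hv : ∀ i, f i v = 0) : v = 0 := by
  have h2 : v.2 = 0 := by
    ext γ
    have := hv (Sum.inr γ)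
    rwa [f_inr] at this
  have h1 : v.1 = 0 := by
    ext n
    have := hv (Sum.inl n)
    rw [f_inl, h2, map_zero, sub_zero] at this
    exact this
  exact Prod.ext h1 h2


/-- the closed span -/
noncomputable def C (𝕜 : Type) [RCLike 𝕜] [DecidableEq (Γ 𝕜)] : Submodule 𝕜 (E 𝕜) :=
  (Submodule.span 𝕜 (Set.range (x : ℕ ⊕ Γ 𝕜 → E 𝕜))).topologicalClosure

lemma x_mem (i : ℕ ⊕ Γ 𝕜) : x i ∈ C 𝕜 :=
  Submodule.le_topologicalClosure _ (Submodule.subset_span ⟨i, rfl⟩)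

lemma C_closed : IsClosed (C 𝕜 : Set (E 𝕜)) := Submodule.isClosed_topologicalClosure _

/-- finitely supported modifications -/
lemma exists_gamma (y : L 𝕜) (k : ℕ) (hk : 0 < k) : ∃ γ : Γ 𝕜, ∃ g ∈ C 𝕜,
    ((y, (0 : M 𝕜)) : E 𝕜) = (1 / k : 𝕜) • x (Sum.inr γ) + g - (0, (1 / k : 𝕜) • eM γ) := by
  classical
  have hk0 : (k : 𝕜) ≠ 0 := by exact_mod_cast hk.ne'
  obtain ⟨N, hN⟩ := exists_nat_ge (k * ‖y‖)
  -- the finite part
  let F : L 𝕜 := ∑ n ∈ Finset.range N, (y n) • eL n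
  have hF : ∀ m, F m = if m < N then y m else 0 := by
    intro m
    have e : F m = ∑ n ∈ Finset.range N, ((y n) • (eL n : L 𝕜)) m := by
      simp only [F]
      rw [lp.coeFn_sum, Finset.sum_apply]
    rw [e]
    have e2 : ∀ n, ((y n) • (eL n : L 𝕜)) m = if m = n then y n else 0 := by
      intro n
      rw [lp.coeFn_smul, Pi.smul_apply, eL_apply, smul_eq_mul, mul_ite, mul_one, mul_zero]
    simp_rw [e2]
    rw [Finset.sum_ite_eq]
    simp
  let z : L 𝕜 := (k : 𝕜) • (y - F)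
  have hz : ∀ n, ‖z n‖ ≤ n := by
    intro n
    have e : z n = k * (y n - F n) := rfl
    rw [e, hF]
    split_ifs with h
    · simp
    · rw [sub_zero, norm_mul, RCLike.norm_natCast]
      have h1 : ‖y n‖ ≤ ‖y‖ := lp.norm_apply_le_norm (by norm_num) y n
      have h2 : (k : ℝ) * ‖y n‖ ≤ k * ‖y‖ := mul_le_mul_of_nonneg_left h1 (by positivity)
      have h3 : (N : ℝ) ≤ n := by exact_mod_cast not_lt.1 h
      linarith
  refine ⟨⟨z, hz⟩, (F, 0), ?_, ?_⟩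
  · have e : ((F, 0) : E 𝕜) = ∑ n ∈ Finset.range N, (y n) • x (Sum.inl n) := by
      refine Prod.ext ?_ ?_
      · rw [Prod.fst_sum]; rfl
      · rw [Prod.snd_sum]
        simp [x]
    rw [e]
    exact Submodule.sum_mem _ fun n _ => Submodule.smul_mem _ _ (x_mem _)
  · refine Prod.ext ?_ ?_
    · change y = (1 / k : 𝕜) • z + F - 0
      simp only [z]
      rw [smul_smul, one_div, inv_mul_cancel₀ hk0, one_smul, sub_add_cancel, sub_zero]
    · change (0 : M 𝕜) = (1 / k : 𝕜) • eM ⟨z, hz⟩ + 0 - (1 / k : 𝕜) • eM ⟨z, hz⟩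
      rw [add_zero, sub_self]

lemma left_mem (y : L 𝕜) : ((y, 0) : E 𝕜) ∈ C 𝕜 := by
  choose γ g hg hy using fun k : ℕ => exists_gamma y (k + 1) (Nat.succ_pos k)
  have h1 : ∀ k : ℕ, ((y, 0) : E 𝕜) + (0, (1 / (k + 1 : ℕ) : 𝕜) • eM (γ k)) ∈ C 𝕜 := by
    intro k
    rw [hy k, sub_add_cancel]
    exact Submodule.add_mem _ (Submodule.smul_mem _ _ (x_mem _)) (hg k)
  have h2 : Tendsto (fun k : ℕ => ((y, 0) : E 𝕜) + (0, (1 / (k + 1 : ℕ) : 𝕜) • eM (γ k))) atTop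
      (𝓝 ((y, 0) + 0)) := by
    refine tendsto_const_nhds.add ?_
    refine squeeze_zero_norm (a := fun k : ℕ => 1 / ((k : ℝ) + 1)) (fun k => ?_)
      tendsto_one_div_add_atTop_nhds_zero_nat
    rw [Prod.norm_mk, norm_zero, max_eq_right (norm_nonneg _), norm_smul, norm_eM, mul_one,
      norm_div, norm_one, RCLike.norm_natCast]
    push_cast
    exact le_rfl
  rw [add_zero] at h2
  exact C_closed.mem_of_tendsto h2 (Eventually.of_forall h1)

lemma eM_mem (γ : Γ 𝕜) : ((0, eM γ) : E 𝕜) ∈ C 𝕜 := by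
  have e : ((0, eM γ) : E 𝕜) = x (Sum.inr γ) - ((γ : L 𝕜), 0) := by
    refine Prod.ext ?_ ?_
    · change (0 : L 𝕜) = (γ : L 𝕜) - (γ : L 𝕜)
      rw [sub_self]
    · change eM γ = eM γ - 0
      rw [sub_zero]
  rw [e]
  exact Submodule.sub_mem _ (x_mem _) (left_mem _)

lemma right_mem (w : M 𝕜) : ((0, w) : E 𝕜) ∈ C 𝕜 := by
  have h := lp.hasSum_single (p := (1 : ℝ≥0∞)) (by norm_num) w
  rw [HasSum] at h
  have h2 : Tendsto (fun S : Finset (Γ 𝕜) => ((0, ∑ i ∈ S, lp.single 1 i (w i)) : E 𝕜)) atTop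
      (𝓝 (0, w)) := tendsto_const_nhds.prodMk_nhds h
  refine C_closed.mem_of_tendsto h2 (Eventually.of_forall fun S => ?_)
  have e : ((0, ∑ i ∈ S, lp.single 1 i (w i)) : E 𝕜) = ∑ i ∈ S, (w i) • (0, eM i) := by
    refine Prod.ext ?_ ?_
    · rw [Prod.fst_sum]; simp
    · rw [Prod.snd_sum]
      refine Finset.sum_congr rfl fun i _ => ?_
      change lp.single 1 i (w i) = w i • eM i
      rw [eM, ← lp.single_smul]; simp
  rw [e]
  exact Submodule.sum_mem _ fun i _ => Submodule.smul_mem _ _ (eM_mem i)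

lemma C_top : C 𝕜 = ⊤ := by
  rw [eq_top_iff]
  rintro ⟨y, w⟩ -
  have e : ((y, w) : E 𝕜) = (y, 0) + (0, w) := by simp
  rw [e]
  exact Submodule.add_mem _ (left_mem y) (right_mem w)

end Pool.Agent.Y279.MB
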