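import Mathlib
import Pool.Agent.Y279.EX1

set_option autoImplicit false

namespace Pool.Agent.Y279.EX

open Filter Topology Metric Finset

variable {𝕜 : Type} [RCLike 𝕜] {E : Type} [NormedAddCommGroup E] [NormedSpace 𝕜 E]

/-- closed linear span -/
noncomputable abbrev cs (S : Set E) : Submodule 𝕜 E := (Submodule.span 𝕜 S).topologicalClosure

lemma cs_closed (S : Set E) : IsClosed ((cs (𝕜 := 𝕜) S : Submodule 𝕜 E) : Set E) :=
  Submodule.isClosed_topologicalClosure _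

lemma subset_cs (S : Set E) {z : E} (hz : z ∈ S) : z ∈ cs (𝕜 := 𝕜) S :=
  Submodule.le_topologicalClosure _ (Submodule.subset_span hz)

lemma cs_mono {S T : Set E} (h : S ⊆ T) : cs (𝕜 := 𝕜) S ≤ cs (𝕜 := 𝕜) T :=
  Submodule.topologicalClosure_mono (Submodule.span_mono h)

lemma cs_le {S : Set E} {T : Submodule 𝕜 E} (hT : IsClosed (T : Set E)) (h : S ⊆ T) :
    cs (𝕜 := 𝕜) S ≤ T :=
  Submodule.topologicalClosure_minimal _ (Submodule.span_le.2 h) hT

/-- functional separating a vector from a closed subspace, with norm control -/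
lemma exists_functional (G : Submodule 𝕜 E) (hG : IsClosed (G : Set E)) (z : E) (c : ℝ)
    (hc : 0 < c) (hz : c ≤ ‖(Submodule.Quotient.mk z : E ⧸ G)‖) :
    ∃ w : E →L[𝕜] 𝕜, ‖w‖ ≤ 1 / c ∧ (∀ g ∈ G, w g = 0) ∧ w z = 1 := by
  have : IsClosed (G : Set E) := hG
  set q : E ⧸ G := Submodule.Quotient.mk z with hq
  have hq0 : 0 < ‖q‖ := hc.trans_le hz
  obtain ⟨g, hg1, hg2⟩ := exists_dual_vector 𝕜 q hq0.ne'
  have hbound : ∀ y : E, ‖((‖q‖⁻¹ : ℝ) : 𝕜) • g (G.mkQ y)‖ ≤ (1 / c) * ‖y‖ := by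
    intro y
    rw [norm_smul, RCLike.norm_ofReal, abs_of_pos (inv_pos.2 hq0)]
    have h1 : ‖g (G.mkQ y)‖ ≤ ‖y‖ := by
      have := g.le_of_opNorm_le hg1.le (G.mkQ y)
      rw [one_mul] at this
      exact this.trans (Submodule.Quotient.norm_mk_le G y)
    have h2 : ‖q‖⁻¹ ≤ 1 / c := by
      rw [one_div]; exact inv_anti₀ hc hz
    exact mul_le_mul h2 h1 (norm_nonneg _) (by positivity)
  refine ⟨LinearMap.mkContinuous
    (((‖q‖⁻¹ : ℝ) : 𝕜) • ((g : (E ⧸ G) →ₗ[𝕜] 𝕜).comp G.mkQ)) (1 / c) hbound,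
    LinearMap.mkContinuous_norm_le _ (by positivity) _, ?_, ?_⟩
  · intro y hy
    change ((‖q‖⁻¹ : ℝ) : 𝕜) • g (G.mkQ y) = 0
    have : G.mkQ y = 0 := by
      rw [Submodule.mkQ_apply]; exact (Submodule.Quotient.mk_eq_zero G).2 hy
    rw [this, map_zero, smul_zero]
  · change ((‖q‖⁻¹ : ℝ) : 𝕜) • g (G.mkQ z) = 1
    have : G.mkQ z = q := rfl
    rw [this, hg2, smul_eq_mul, ← RCLike.ofReal_mul, inv_mul_cancel₀ hq0.ne', RCLike.ofReal_one]

/-- infinite codimension persists after adding finitely many vectors -/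
lemma infdim (x : ℕ → E) (h : ¬ FiniteDimensional 𝕜 (E ⧸ cs (𝕜 := 𝕜) (Set.range x)))
    (S : Set E) (hS : S.Finite) :
    ¬ FiniteDimensional 𝕜 (E ⧸ cs (𝕜 := 𝕜) (Set.range x ∪ S)) := by
  intro hfin
  apply h
  set X := cs (𝕜 := 𝕜) (Set.range x) with hX
  set T := Submodule.span 𝕜 S with hT
  have : FiniteDimensional 𝕜 T := FiniteDimensional.span_of_finite 𝕜 hS
  have hcl : IsClosed ((X ⊔ T : Submodule 𝕜 E) : Set E) :=
    Submodule.isClosed_sup_finiteDimensional _ _ (cs_closed _)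
  have hle : cs (𝕜 := 𝕜) (Set.range x ∪ S) ≤ X ⊔ T := by
    refine cs_le hcl ?_
    rintro z (hz | hz)
    · exact Submodule.mem_sup_left (subset_cs _ hz)
    · exact Submodule.mem_sup_right (Submodule.subset_span hz)
  have h1 : FiniteDimensional 𝕜 (E ⧸ (X ⊔ T)) := by
    refine Module.Finite.of_surjective (Submodule.factor hle) ?_
    exact Submodule.factor_surjective hle
  have h2 : FiniteDimensional 𝕜 ((E ⧸ X) ⧸ ((X ⊔ T).map X.mkQ)) :=
    Module.Finite.equiv (Submodule.quotientQuotientEquivQuotient X (X ⊔ T) le_sup_left).symm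
  have h3 : (X ⊔ T).map X.mkQ = T.map X.mkQ := by
    rw [Submodule.map_sup, Submodule.mkQ_map_self, bot_sup_eq]
  have h4 : FiniteDimensional 𝕜 ((X ⊔ T).map X.mkQ) := by
    rw [h3]; infer_instance
  exact Module.Finite.of_submodule_quotient ((X ⊔ T).map X.mkQ)


/-- the good step -/
lemma good_vec (x : ℕ → E) (C : ℝ) (hC : ∀ n, ‖x n‖ ≤ C)
    (hinf : ¬ FiniteDimensional 𝕜 (E ⧸ cs (𝕜 := 𝕜) (Set.range x)))
    (f : ℕ → E →L[𝕜] 𝕜) (hf : ∀ i j, f i (x j) = if i = j then 1 else 0) (D : ℝ)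
    (hD : ∀ n, ‖f n‖ ≤ D)
    {n : ℕ} (y : Fin n → E) (v : Fin n → E →L[𝕜] 𝕜)
    (hv : ∀ i j, v i (y j) = if i = j then 1 else 0) (hvx : ∀ i m, v i (x m) = 0) (N : ℕ) :
    ∃ (d : E) (w : E →L[𝕜] 𝕜), ‖d‖ ≤ 9 ∧ ‖w‖ ≤ 1 ∧ (∀ m, w (x m) = 0) ∧ (∀ i, w (y i) = 0) ∧
      (∀ i, v i d = 0) ∧ w d = 1 ∧ ∀ k < N, f k d = 0 := by
  classical
  have hC0 : 0 ≤ C := (norm_nonneg _).trans (hC 0)
  have hD0 : 0 ≤ D := (norm_nonneg _).trans (hD 0)
  set G := cs (𝕜 := 𝕜) (Set.range x ∪ Set.range y) with hG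
  have hGc : IsClosed (G : Set E) := cs_closed _
  have hinfG : ¬ FiniteDimensional 𝕜 (E ⧸ G) := infdim x hinf _ (Set.finite_range y)
  have hc2 : (1 : ℝ) < ‖(2 : 𝕜)‖ := by rw [RCLike.norm_two]; norm_num
  have hR : ‖(2 : 𝕜)‖ < 3 := by rw [RCLike.norm_two]; norm_num
  obtain ⟨q, hq1, hq2⟩ := exists_seq_norm_le_one_le_norm_sub' hc2 hR hinfG
  choose z hz1 hz2 using fun i => Submodule.Quotient.norm_mk_lt (q i) (zero_lt_one' ℝ)
  have hz3 : ∀ i, ‖z i‖ ≤ 4 := fun i => by linarith [hz2 i, hq1 i]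
  -- constants
  set A : ℝ := ∑ j, ‖y j‖ with hA
  have hA0 : 0 ≤ A := sum_nonneg fun _ _ => norm_nonneg _
  set B : ℝ := A + N * (C * (1 + D * A)) with hB
  have hB0 : 0 ≤ B := by positivity
  set δ : ℝ := 1 / (B + 1) with hδ
  have hδ0 : 0 < δ := by positivity
  have hδB : δ * B ≤ 1 := by
    rw [hδ, one_div, inv_mul_le_iff₀ (by positivity)]; linarith
  -- pigeonhole
  let Φ : ℕ → (Fin n → 𝕜) × (Fin N → 𝕜) := fun i => (fun j => v j (z i), fun k => f k (z i))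
  obtain ⟨M, hM⟩ : ∃ M : ℝ, ∀ i, ‖Φ i‖ ≤ M := by
    refine ⟨max (∑ j, ‖v j‖ * 4) (∑ k : Fin N, ‖f k‖ * 4), fun i => ?_⟩
    rw [Prod.norm_def]
    refine max_le_max ?_ ?_
    · rw [pi_norm_le_iff_of_nonneg (sum_nonneg fun _ _ => by positivity)]
      intro j
      refine le_trans (((v j).le_opNorm _).trans
        (mul_le_mul_of_nonneg_left (hz3 i) (norm_nonneg _))) ?_
      exact single_le_sum (f := fun j => ‖v j‖ * 4) (fun _ _ => by positivity) (mem_univ j)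
    · rw [pi_norm_le_iff_of_nonneg (sum_nonneg fun _ _ => by positivity)]
      intro j
      refine le_trans (((f j).le_opNorm _).trans
        (mul_le_mul_of_nonneg_left (hz3 i) (norm_nonneg _))) ?_
      exact single_le_sum (f := fun j : Fin N => ‖f j‖ * 4) (fun _ _ => by positivity) (mem_univ j)
  have hbdd : ∀ i, Φ i ∈ closedBall (0 : (Fin n → 𝕜) × (Fin N → 𝕜)) M := by
    intro i; rw [mem_closedBall, dist_zero_right]; exact hM i
  obtain ⟨a, -, φ, hφ, hlim⟩ := (isCompact_closedBall _ M).isSeqCompact hbdd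
  obtain ⟨N₀, hN₀⟩ := Metric.cauchySeq_iff.1 hlim.cauchySeq δ hδ0
  have hdist := hN₀ N₀ le_rfl (N₀ + 1) (Nat.le_succ _)
  set i₁ := φ N₀ with hi₁
  set i₂ := φ (N₀ + 1) with hi₂
  have hne : i₁ ≠ i₂ := (hφ (Nat.lt_succ_self N₀)).ne
  set t : E := z i₁ - z i₂ with ht
  have hdist' : ‖Φ i₁ - Φ i₂‖ < δ := by rw [← dist_eq_norm]; exact hdist
  have hvt : ∀ j, ‖v j t‖ ≤ δ := by
    intro j
    rw [ht, map_sub]
    have h1 : ‖(Φ i₁ - Φ i₂).1‖ ≤ δ := (norm_fst_le _).trans hdist'.le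
    exact (norm_le_pi_norm (Φ i₁ - Φ i₂).1 j).trans h1
  have hft : ∀ k < N, ‖f k t‖ ≤ δ := by
    intro k hk
    rw [ht, map_sub]
    have h1 : ‖(Φ i₁ - Φ i₂).2‖ ≤ δ := (norm_snd_le _).trans hdist'.le
    exact (norm_le_pi_norm (Φ i₁ - Φ i₂).2 ⟨k, hk⟩).trans h1
  have htn : ‖t‖ ≤ 8 := by
    calc ‖t‖ ≤ ‖z i₁‖ + ‖z i₂‖ := norm_sub_le _ _
      _ ≤ 8 := by linarith [hz3 i₁, hz3 i₂]
  -- corrections
  set s : E := ∑ j, v j t • y j with hs
  have hsn : ‖s‖ ≤ δ * A := by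
    rw [hs, hA, mul_sum]
    refine (norm_sum_le _ _).trans (sum_le_sum fun j _ => ?_)
    rw [norm_smul]
    exact mul_le_mul_of_nonneg_right (hvt j) (norm_nonneg _)
  set t' : E := t - s with ht'
  have hvt' : ∀ i, v i t' = 0 := by
    intro i
    rw [ht', map_sub, hs, map_sum]
    simp_rw [map_smul, hv, smul_eq_mul, mul_ite, mul_one, mul_zero]
    rw [sum_ite_eq]
    simp
  have hft' : ∀ k < N, ‖f k t'‖ ≤ δ * (1 + D * A) := by
    intro k hk
    rw [ht', map_sub]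
    calc ‖f k t - f k s‖ ≤ ‖f k t‖ + ‖f k s‖ := norm_sub_le _ _
      _ ≤ δ + D * (δ * A) := add_le_add (hft k hk) (((f k).le_of_opNorm_le (hD k) s).trans
          (mul_le_mul_of_nonneg_left hsn hD0))
      _ = δ * (1 + D * A) := by ring
  set r : E := ∑ k ∈ range N, f k t' • x k with hr
  have hrn : ‖r‖ ≤ δ * (N * (C * (1 + D * A))) := by
    rw [hr]
    refine (norm_sum_le_of_le (range N) (f := fun k => f k t' • x k)
      (n := fun _ => δ * (1 + D * A) * C) (fun k hk => ?_)).trans ?_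
    · rw [norm_smul]
      exact mul_le_mul (hft' k (mem_range.1 hk)) (hC k) (norm_nonneg _) (by positivity)
    · rw [sum_const, card_range, nsmul_eq_mul]
      exact le_of_eq (by ring)
  set d : E := t' - r with hd
  have hdn : ‖d‖ ≤ 9 := by
    calc ‖d‖ ≤ ‖t'‖ + ‖r‖ := norm_sub_le _ _
      _ ≤ (‖t‖ + ‖s‖) + ‖r‖ := by gcongr; exact norm_sub_le _ _
      _ ≤ (8 + δ * A) + δ * (N * (C * (1 + D * A))) := by gcongr
      _ = 8 + δ * B := by rw [hB]; ring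
      _ ≤ 9 := by linarith
  have hsG : s ∈ G := Submodule.sum_mem _ fun j _ =>
    Submodule.smul_mem _ _ (subset_cs _ (Or.inr ⟨j, rfl⟩))
  have hrG : r ∈ G := Submodule.sum_mem _ fun j _ =>
    Submodule.smul_mem _ _ (subset_cs _ (Or.inl ⟨j, rfl⟩))
  have hmk : (Submodule.Quotient.mk d : E ⧸ G) = q i₁ - q i₂ := by
    rw [← hz1 i₁, ← hz1 i₂, ← Submodule.Quotient.mk_sub, Submodule.Quotient.eq]
    have : d - (z i₁ - z i₂) = -(s + r) := by rw [hd, ht', ht]; abel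
    rw [this]
    exact G.neg_mem (G.add_mem hsG hrG)
  have hnorm : 1 ≤ ‖(Submodule.Quotient.mk d : E ⧸ G)‖ := by rw [hmk]; exact hq2 hne
  obtain ⟨w, hw1, hw2, hw3⟩ := exists_functional G hGc d 1 one_pos hnorm
  refine ⟨d, w, hdn, by simpa using hw1, fun m => hw2 _ (subset_cs _ (Or.inl ⟨m, rfl⟩)),
    fun i => hw2 _ (subset_cs _ (Or.inr ⟨i, rfl⟩)), fun i => ?_, hw3, fun k hk => ?_⟩
  · rw [hd, map_sub, hvt' i, hr, map_sum]
    simp [hvx]
  · rw [hd, map_sub, hr, map_sum]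
    simp_rw [map_smul, hf, smul_eq_mul, mul_ite, mul_one, mul_zero]
    rw [sum_ite_eq]
    simp [hk]

/-- the bad step -/
lemma bad_vec (x : ℕ → E)
    (hinf : ¬ FiniteDimensional 𝕜 (E ⧸ cs (𝕜 := 𝕜) (Set.range x)))
    (f : ℕ → E →L[𝕜] 𝕜) (hf : ∀ i j, f i (x j) = if i = j then 1 else 0)
    (hf0 : ∀ z, Tendsto (fun n => f n z) atTop (𝓝 0))
    {n : ℕ} (y : Fin n → E) (v : Fin n → E →L[𝕜] 𝕜)
    (hv : ∀ i j, v i (y j) = if i = j then 1 else 0) (hvx : ∀ i m, v i (x m) = 0) (N : ℕ)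
    (z : E) (ε : ℝ) (hε : 0 < ε) :
    ∃ (d : E) (w : E →L[𝕜] 𝕜) (M : ℕ), N ≤ M ∧ (∀ m, w (x m) = 0) ∧ (∀ i, w (y i) = 0) ∧
      (∀ i, v i d = 0) ∧ w d = 1 ∧ (∀ k < M, f k d = 0) ∧ (∀ k, M ≤ k → ‖f k d‖ * ‖w‖ ≤ ε) ∧
      z ∈ cs (𝕜 := 𝕜) (Set.range x ∪ Set.range y ∪ {d}) := by
  classical
  set G := cs (𝕜 := 𝕜) (Set.range x ∪ Set.range y) with hG
  have hGc : IsClosed (G : Set E) := cs_closed _
  have hinfG : ¬ FiniteDimensional 𝕜 (E ⧸ G) := infdim x hinf _ (Set.finite_range y)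
  -- choose a vector outside G
  obtain ⟨z', hz', hz''⟩ : ∃ z' : E, z' ∉ G ∧ (z ∈ G ∨ z' = z) := by
    by_cases hzG : z ∈ G
    · have : ∃ z', z' ∉ G := by
        by_contra hcon
        push Not at hcon
        apply hinfG
        have : Subsingleton (E ⧸ G) := by
          rw [Submodule.Quotient.subsingleton_iff, eq_top_iff]
          exact fun z' _ => hcon z'
        infer_instance
      obtain ⟨z', hz'⟩ := this
      exact ⟨z', hz', Or.inl hzG⟩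
    · exact ⟨z, hzG, Or.inr rfl⟩
  set s : E := ∑ j, v j z' • y j with hs
  set t : E := z' - s with ht
  have hsG : s ∈ G := Submodule.sum_mem _ fun j _ =>
    Submodule.smul_mem _ _ (subset_cs _ (Or.inr ⟨j, rfl⟩))
  have htG : t ∉ G := fun h => hz' (by
    have : z' = t + s := by rw [ht]; abel
    rw [this]; exact G.add_mem h hsG)
  have hvt : ∀ i, v i t = 0 := by
    intro i
    rw [ht, map_sub, hs, map_sum]
    simp_rw [map_smul, hv, smul_eq_mul, mul_ite, mul_one, mul_zero]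
    rw [sum_ite_eq]
    simp
  have hq0 : 0 < ‖(Submodule.Quotient.mk t : E ⧸ G)‖ := by
    have : IsClosed (G : Set E) := hGc
    rw [norm_pos_iff]
    intro h
    exact htG ((Submodule.Quotient.mk_eq_zero G).1 h)
  obtain ⟨w, hw1, hw2, hw3⟩ := exists_functional G hGc t _ hq0 le_rfl
  -- the threshold
  obtain ⟨M₀, hM₀⟩ := Metric.tendsto_atTop.1 (hf0 t) (ε / (‖w‖ + 1)) (by positivity)
  set M := max N M₀ with hM
  set r : E := ∑ k ∈ range M, f k t • x k with hr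
  have hrG : r ∈ G := Submodule.sum_mem _ fun j _ =>
    Submodule.smul_mem _ _ (subset_cs _ (Or.inl ⟨j, rfl⟩))
  have hfr : ∀ k, f k r = if k < M then f k t else 0 := by
    intro k
    rw [hr, map_sum]
    simp_rw [map_smul, hf, smul_eq_mul, mul_ite, mul_one, mul_zero]
    rw [sum_ite_eq]
    simp
  have hGle : G ≤ cs (𝕜 := 𝕜) (Set.range x ∪ Set.range y ∪ {t - r}) :=
    cs_mono Set.subset_union_left
  refine ⟨t - r, w, M, le_max_left _ _, fun m => hw2 _ (subset_cs _ (Or.inl ⟨m, rfl⟩)),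
    fun i => hw2 _ (subset_cs _ (Or.inr ⟨i, rfl⟩)), fun i => ?_, ?_, fun k hk => ?_,
    fun k hk => ?_, ?_⟩
  · rw [map_sub, hvt i, hr, map_sum]
    simp [hvx]
  · rw [map_sub, hw3, hw2 r hrG, sub_zero]
  · rw [map_sub, hfr, if_pos hk, sub_self]
  · rw [map_sub, hfr, if_neg (not_lt.2 hk), sub_zero]
    have h1 := hM₀ k ((le_max_right _ _).trans hk)
    rw [dist_zero_right] at h1
    have h2 : 0 ≤ ‖w‖ := norm_nonneg _
    calc ‖f k t‖ * ‖w‖ ≤ (ε / (‖w‖ + 1)) * ‖w‖ := mul_le_mul_of_nonneg_right h1.le h2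
      _ ≤ ε := by
        rw [div_mul_eq_mul_div, div_le_iff₀ (by positivity)]
        nlinarith
  · rcases hz'' with h | h
    · exact hGle h
    · rw [← h]
      have e : z' = (t - r) + (s + r) := by rw [ht]; abel
      rw [e]
      exact Submodule.add_mem _ (subset_cs _ (Or.inr rfl))
        (Submodule.add_mem _ (hGle hsG) (hGle hrG))

end Pool.Agent.Y279.EX
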