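import Mathlib
import Pool.Agent.Y279.EX3
import Pool.Agent.Y279.EX4

set_option autoImplicit false

namespace Pool.Agent.Y279.EX

open Filter Topology Metric Finset

variable {𝕜 : Type} [RCLike 𝕜] {E : Type} [NormedAddCommGroup E] [NormedSpace 𝕜 E]

/-- the finite codimensional case -/
lemma main_fin (x : ℕ → E) (C : ℝ) (hC : ∀ n, ‖x n‖ ≤ C)
    (hfin : FiniteDimensional 𝕜 (E ⧸ cs (𝕜 := 𝕜) (Set.range x)))
    (f : ℕ → E →L[𝕜] 𝕜) (hf : ∀ i j, f i (x j) = if i = j then 1 else 0) (D : ℝ)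
    (hD : ∀ n, ‖f n‖ ≤ D) :
    ∃ (ι : Type) (_ : Countable ι) (y : ι → E) (K : ℝ) (F : ℕ → E →L[𝕜] 𝕜)
      (W : ι → E →L[𝕜] 𝕜),
      (∀ n m, F n (x m) = if n = m then 1 else 0) ∧ (∀ n j, F n (y j) = 0) ∧
      (∀ i m, W i (x m) = 0) ∧ (∀ i j, (i = j → W i (y j) = 1) ∧ (i ≠ j → W i (y j) = 0)) ∧
      (∀ i, ‖y i‖ ≤ K ∧ ‖W i‖ ≤ K) ∧ (∀ n, ‖F n‖ ≤ K) ∧
      cs (𝕜 := 𝕜) (Set.range x ∪ Set.range y) = ⊤ := by
  classical
  have hD0 : 0 ≤ D := (norm_nonneg _).trans (hD 0)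
  set X := cs (𝕜 := 𝕜) (Set.range x) with hX
  have hXc : IsClosed (X : Set E) := cs_closed _
  let r := Module.finrank 𝕜 (E ⧸ X)
  let b : Module.Basis (Fin r) 𝕜 (E ⧸ X) := Module.finBasis 𝕜 (E ⧸ X)
  choose y hy using fun i => X.mkQ_surjective (b i)
  -- dual functionals
  have hW : ∀ i, ∃ w : E →L[𝕜] 𝕜, ∀ e, w e = b.coord i (X.mkQ e) := by
    intro i
    have hcont : Continuous fun q : E ⧸ X => b.coord i q := (b.coord i).continuous_of_finiteDimensional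
    exact ⟨⟨(b.coord i).comp X.mkQ, hcont.comp (continuous_quot_mk)⟩, fun _ => rfl⟩
  choose W hW using hW
  have hWx : ∀ i, ∀ e ∈ X, W i e = 0 := by
    intro i e he
    rw [hW]
    have : X.mkQ e = 0 := by
      rw [Submodule.mkQ_apply]; exact (Submodule.Quotient.mk_eq_zero X).2 he
    rw [this, map_zero]
  have hWy : ∀ i j, W i (y j) = if i = j then 1 else 0 := by
    intro i j
    rw [hW, hy, Module.Basis.coord_apply, Module.Basis.repr_self, Finsupp.single_apply]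
    exact if_congr eq_comm rfl rfl
  set S : ℝ := ∑ j, ‖y j‖ * ‖W j‖ with hS
  have hS0 : 0 ≤ S := sum_nonneg fun _ _ => by positivity
  refine ⟨Fin r, inferInstance, y, max (D + D * S) (max (∑ j, ‖y j‖) (∑ j, ‖W j‖)),
    fun n => f n - ∑ j, f n (y j) • W j, W, fun n m => ?_, fun n j => ?_,
    fun i m => hWx i _ (subset_cs _ ⟨m, rfl⟩), fun i j => ⟨fun h => ?_, fun h => ?_⟩,
    fun i => ⟨?_, ?_⟩, fun n => ?_, ?_⟩
  · rw [_root_.sub_apply, _root_.sum_apply, hf]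
    rw [sum_eq_zero, sub_zero]
    intro j _
    rw [_root_.smul_apply, hWx j _ (subset_cs _ ⟨m, rfl⟩), smul_zero]
  · rw [_root_.sub_apply, _root_.sum_apply]
    simp_rw [_root_.smul_apply, hWy, smul_eq_mul, mul_ite, mul_one, mul_zero]
    rw [sum_ite_eq']
    simp
  · rw [hWy, if_pos h]
  · rw [hWy, if_neg h]
  · refine le_trans ?_ ((le_max_left _ _).trans (le_max_right _ _))
    exact single_le_sum (f := fun j => ‖y j‖) (fun _ _ => norm_nonneg _) (mem_univ i)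
  · refine le_trans ?_ ((le_max_right _ _).trans (le_max_right _ _))
    exact single_le_sum (f := fun j => ‖W j‖) (fun _ _ => norm_nonneg _) (mem_univ i)
  · refine le_trans ?_ (le_max_left _ _)
    refine (norm_sub_le _ _).trans (add_le_add (hD n) ?_)
    rw [hS, mul_sum]
    refine (norm_sum_le _ _).trans (sum_le_sum fun j _ => ?_)
    rw [norm_smul, ← mul_assoc]
    exact mul_le_mul_of_nonneg_right ((f n).le_of_opNorm_le (hD n) _) (norm_nonneg _)
  · rw [eq_top_iff]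
    intro e _
    have hle : X ≤ cs (𝕜 := 𝕜) (Set.range x ∪ Set.range y) := cs_mono Set.subset_union_left
    have h1 : e - ∑ j, (b.repr (X.mkQ e) j) • y j ∈ X := by
      have h3 : X.mkQ (e - ∑ j, (b.repr (X.mkQ e) j) • y j) = 0 := by
        rw [map_sub, map_sum]
        simp_rw [map_smul, hy]
        rw [b.sum_repr, sub_self]
      rw [Submodule.mkQ_apply] at h3
      exact (Submodule.Quotient.mk_eq_zero X).1 h3
    have h2 : e = (e - ∑ j, (b.repr (X.mkQ e) j) • y j) + ∑ j, (b.repr (X.mkQ e) j) • y j := by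
      rw [sub_add_cancel]
    rw [h2]
    exact Submodule.add_mem _ (hle h1) (Submodule.sum_mem _ fun j _ =>
      Submodule.smul_mem _ _ (subset_cs _ (Or.inr ⟨j, rfl⟩)))

/-- the infinite codimensional case -/
lemma main_inf [TopologicalSpace.SeparableSpace E] (x : ℕ → E) (C : ℝ) (hC : ∀ n, ‖x n‖ ≤ C)
    (hinf : ¬ FiniteDimensional 𝕜 (E ⧸ cs (𝕜 := 𝕜) (Set.range x)))
    (f : ℕ → E →L[𝕜] 𝕜) (hf : ∀ i j, f i (x j) = if i = j then 1 else 0) (D : ℝ)
    (hD : ∀ n, ‖f n‖ ≤ D) :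
    ∃ (ι : Type) (_ : Countable ι) (y : ι → E) (K : ℝ) (F : ℕ → E →L[𝕜] 𝕜)
      (W : ι → E →L[𝕜] 𝕜),
      (∀ n m, F n (x m) = if n = m then 1 else 0) ∧ (∀ n j, F n (y j) = 0) ∧
      (∀ i m, W i (x m) = 0) ∧ (∀ i j, (i = j → W i (y j) = 1) ∧ (i ≠ j → W i (y j) = 0)) ∧
      (∀ i, ‖y i‖ ≤ K ∧ ‖W i‖ ≤ K) ∧ (∀ n, ‖F n‖ ≤ K) ∧
      cs (𝕜 := 𝕜) (Set.range x ∪ Set.range y) = ⊤ := by
  classical
  have hD0 : 0 ≤ D := (norm_nonneg _).trans (hD 0)
  obtain ⟨h, hh, hhD, hh0⟩ := exists_wnull x f hf D hD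
  obtain ⟨z, hz⟩ := TopologicalSpace.exists_dense_seq E
  obtain ⟨y, v, F, hv, hvx, hgood, hzc, hFx, hFy, hFn⟩ :=
    unmixed x C hC hinf h hh (2 * D) hhD hh0 z
  -- mixing the rows
  have hrow : ∀ k : ℕ, ∃ (κ : Type) (_ : Countable κ) (e : κ → E) (e' : κ → E →L[𝕜] 𝕜),
        (∀ i j, (i = j → e' i (e j) = 1) ∧ (i ≠ j → e' i (e j) = 0)) ∧
        (∀ i, ‖e i‖ ≤ 4 * 9 ∧ ‖e' i‖ ≤ 4 * 9) ∧
        (∀ i, e i ∈ Submodule.span 𝕜 ({y (2 * k)} ∪ Set.range fun i => y (2 * Nat.pair k i + 1))) ∧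
        (∀ i, e' i ∈ Submodule.span 𝕜 ({v (2 * k)} ∪ Set.range fun i => v (2 * Nat.pair k i + 1))) ∧
        y (2 * k) ∈ Submodule.span 𝕜 (Set.range e) ∧
        ∀ i, y (2 * Nat.pair k i + 1) ∈ Submodule.span 𝕜 (Set.range e) := by
    intro k
    obtain ⟨n, hn⟩ := pow_unbounded_of_one_lt (max ‖y (2 * k)‖ ‖v (2 * k)‖)
      (by norm_num : (1 : ℝ) < 11 / 10)
    refine mix 9 (by norm_num) n (max ‖y (2 * k)‖ ‖v (2 * k)‖) ?_ (y (2 * k)) (v (2 * k))
      (fun i => y (2 * Nat.pair k i + 1)) (fun i => v (2 * Nat.pair k i + 1))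
      (le_max_left _ _) (le_max_right _ _)
      (fun i => ⟨(hgood _).1, (hgood _).2.trans (by norm_num)⟩) ?_ ?_ ?_ ?_
    · have : (0 : ℝ) < (11 / 10) ^ n := by positivity
      linarith
    · rw [hv, if_pos rfl]
    · intro i
      rw [hv, if_neg (by omega)]
    · intro i
      rw [hv, if_neg (by omega)]
    · intro i j
      rw [hv]
      refine if_congr ⟨fun h => ?_, fun h => by rw [h]⟩ rfl rfl
      have h1 : Nat.pair k i = Nat.pair k j := by omega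
      exact (Nat.pair_eq_pair.1 h1).2
  choose κ hκ e e' h1 h2 h3 h4 h5 h6 using hrow
  -- cross annihilation
  have hcross : ∀ k k' : ℕ, k ≠ k' →
      ∀ w ∈ ({v (2 * k)} ∪ Set.range fun i => v (2 * Nat.pair k i + 1) : Set (E →L[𝕜] 𝕜)),
      ∀ a ∈ ({y (2 * k')} ∪ Set.range fun i => y (2 * Nat.pair k' i + 1) : Set E), w a = 0 := by
    intro k k' hkk w hw a ha
    rcases hw with hw | ⟨i, rfl⟩ <;> rcases ha with ha | ⟨j, rfl⟩
    · rw [Set.mem_singleton_iff] at hw ha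
      subst hw; subst ha
      rw [hv, if_neg (by omega)]
    · rw [Set.mem_singleton_iff] at hw
      subst hw
      simp only
      rw [hv, if_neg (by omega)]
    · rw [Set.mem_singleton_iff] at ha
      subst ha
      simp only
      rw [hv, if_neg (by omega)]
    · simp only
      rw [hv, if_neg]
      intro h
      have h1 : Nat.pair k i = Nat.pair k' j := by omega
      exact hkk (Nat.pair_eq_pair.1 h1).1
  have hvspan : ∀ k, ∀ w ∈ ({v (2 * k)} ∪ Set.range fun i => v (2 * Nat.pair k i + 1) :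
      Set (E →L[𝕜] 𝕜)), ∀ a ∈ Set.range x, w a = 0 := by
    rintro k w hw a ⟨m, rfl⟩
    rcases hw with hw | ⟨i, rfl⟩
    · rw [Set.mem_singleton_iff] at hw
      subst hw
      exact hvx _ _
    · exact hvx _ _
  have hyspan : ∀ n k, ∀ w ∈ ({F n} : Set (E →L[𝕜] 𝕜)),
      ∀ a ∈ ({y (2 * k)} ∪ Set.range fun i => y (2 * Nat.pair k i + 1) : Set E), w a = 0 := by
    intro n k w hw a ha
    rw [Set.mem_singleton_iff] at hw
    subst hw
    rcases ha with ha | ⟨i, rfl⟩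
    · rw [Set.mem_singleton_iff] at ha
      subst ha
      exact hFy _ _
    · exact hFy _ _
  have hcount : ∀ k, Countable (κ k) := hκ
  refine ⟨Σ k, κ k, inferInstance, fun i => e i.1 i.2, max (4 * 9) (2 * D + (2 + 9 * (2 * D))), F,
    fun i => e' i.1 i.2, hFx, fun n j => ?_, fun i m => ?_, ?_, fun i => ⟨?_, ?_⟩, fun n => ?_, ?_⟩
  · exact span_annih (hyspan n j.1) (Submodule.subset_span rfl) (h3 j.1 j.2)
  · exact span_annih (hvspan i.1) (h4 i.1 i.2) (Submodule.subset_span ⟨m, rfl⟩)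
  · rintro ⟨k, i⟩ ⟨k', j⟩
    by_cases hkk : k = k'
    · subst hkk
      refine ⟨fun h => (h1 k i j).1 ?_, fun h => (h1 k i j).2 fun h' => h (by rw [h'])⟩
      simpa using h
    · refine ⟨fun h => absurd (congrArg Sigma.fst h) hkk, fun _ => ?_⟩
      exact span_annih (hcross k k' hkk) (h4 k i) (h3 k' j)
  · exact (h2 i.1 i.2).1.trans (le_max_left _ _)
  · exact (h2 i.1 i.2).2.trans (le_max_left _ _)
  · exact (hFn n).trans (le_max_right _ _)
  · set T := cs (𝕜 := 𝕜) (Set.range x ∪ Set.range fun i : Σ k, κ k => e i.1 i.2) with hT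
    have hrowT : ∀ k, Submodule.span 𝕜 (Set.range (e k)) ≤ T := by
      intro k
      rw [Submodule.span_le]
      rintro _ ⟨i, rfl⟩
      exact subset_cs _ (Or.inr ⟨⟨k, i⟩, rfl⟩)
    have hyT : ∀ j, y j ∈ T := by
      intro j
      rcases Nat.even_or_odd' j with ⟨k, hk | hk⟩
      · rw [hk]; exact hrowT k (h5 k)
      · rw [hk, ← Nat.pair_unpair k]
        exact hrowT _ (h6 _ _)
    have hle : cs (𝕜 := 𝕜) (Set.range x ∪ Set.range y) ≤ T := by
      refine cs_le (cs_closed _) ?_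
      rintro a (ha | ⟨j, rfl⟩)
      · exact subset_cs _ (Or.inl ha)
      · exact hyT j
    rw [eq_top_iff]
    intro a _
    have hcl : IsClosed (T : Set E) := cs_closed _
    have h7 : closure (Set.range z) ⊆ (T : Set E) := by
      refine closure_minimal ?_ hcl
      rintro _ ⟨k, rfl⟩
      exact hle (hzc k)
    rw [hz.closure_range] at h7
    exact h7 trivial

theorem main [TopologicalSpace.SeparableSpace E] (x : ℕ → E) (C : ℝ) (hC : ∀ n, ‖x n‖ ≤ C)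
    (f : ℕ → E →L[𝕜] 𝕜) (hf : ∀ i j, f i (x j) = if i = j then 1 else 0) (D : ℝ)
    (hD : ∀ n, ‖f n‖ ≤ D) :
    ∃ (ι : Type) (_ : Countable ι) (y : ι → E) (K : ℝ) (F : ℕ → E →L[𝕜] 𝕜)
      (W : ι → E →L[𝕜] 𝕜),
      (∀ n m, F n (x m) = if n = m then 1 else 0) ∧ (∀ n j, F n (y j) = 0) ∧
      (∀ i m, W i (x m) = 0) ∧ (∀ i j, (i = j → W i (y j) = 1) ∧ (i ≠ j → W i (y j) = 0)) ∧
      (∀ i, ‖y i‖ ≤ K ∧ ‖W i‖ ≤ K) ∧ (∀ n, ‖F n‖ ≤ K) ∧
      cs (𝕜 := 𝕜) (Set.range x ∪ Set.range y) = ⊤ := by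
  by_cases h : FiniteDimensional 𝕜 (E ⧸ cs (𝕜 := 𝕜) (Set.range x))
  · exact main_fin x C hC h f hf D hD
  · exact main_inf x C hC h f hf D hD

end Pool.Agent.Y279.EX
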