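import Mathlib

set_option autoImplicit false

namespace Pool.Agent.Y279.PA

open Finset Filter Topology

/-- the weight -/
noncomputable def w (n : ℕ) : ℝ := 1 / √((n : ℝ) + 1)

lemma w_pos (n : ℕ) : 0 < w n := by
  unfold w; positivity

lemma w_anti : Antitone w := by
  intro m n h
  unfold w
  have h' : (m : ℝ) ≤ n := by exact_mod_cast h
  exact one_div_le_one_div_of_le (by positivity) (Real.sqrt_le_sqrt (by linarith))

lemma w_zero : w 0 = 1 := by
  unfold w; simp

lemma w_le_one (n : ℕ) : w n ≤ 1 := w_zero ▸ w_anti (Nat.zero_le n)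

noncomputable def phi (j : ℕ) : ℝ := ∑ i ∈ range j, w i

noncomputable def al (j : ℕ) : ℝ := phi j / j

lemma phi_nonneg (j : ℕ) : 0 ≤ phi j := sum_nonneg fun i _ => (w_pos i).le

lemma al_nonneg (j : ℕ) : 0 ≤ al j := div_nonneg (phi_nonneg j) (by positivity)

lemma mul_al (j : ℕ) : (j : ℝ) * al j = phi j := by
  rcases Nat.eq_zero_or_pos j with rfl | h
  · simp [phi]
  · have : (j : ℝ) ≠ 0 := by exact_mod_cast h.ne'
    rw [al]; field_simp

lemma phi_succ (j : ℕ) : phi (j + 1) = phi j + w j := by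
  rw [phi, sum_range_succ, phi]

lemma phi_le (j : ℕ) : phi j ≤ j := by
  rw [phi]
  calc ∑ i ∈ range j, w i ≤ ∑ i ∈ range j, (1 : ℝ) := sum_le_sum fun i _ => w_le_one i
    _ = j := by simp

lemma al_le_one (j : ℕ) : al j ≤ 1 := by
  rw [al]
  exact div_le_one_of_le₀ (phi_le j) (by positivity)

lemma w_mul_le (j : ℕ) : (j : ℝ) * w j ≤ phi j := by
  rw [phi]
  calc (j : ℝ) * w j = ∑ i ∈ range j, w j := by simp
    _ ≤ _ := sum_le_sum fun i hi => w_anti (mem_range.1 hi).le

lemma al_anti (j : ℕ) (hj : 0 < j) : al (j + 1) ≤ al j := by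
  have h1 := mul_al j
  have h2 := mul_al (j + 1)
  have h3 := phi_succ j
  have h4 := w_mul_le j
  have hj' : (0 : ℝ) < j := by exact_mod_cast hj
  push_cast at h2
  rw [h3] at h2
  -- w j ≤ al j
  have h5 : w j ≤ al j := by
    rw [← h1] at h4
    exact le_of_mul_le_mul_left h4 hj'
  by_contra hcon
  push Not at hcon
  nlinarith

variable {𝕜 : Type} [RCLike 𝕜]

noncomputable def N (A : Finset ℕ) (m : ℕ) (c : ℕ → 𝕜) : ℝ :=
  al A.card * ∑ n ∈ A, ‖c n‖ + 1 / 2 * ‖∑ n ∈ range m \ A, (w (A.card + n) : 𝕜) * c n‖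

/-- telescoping bound -/
lemma tele (j m : ℕ) (S : Finset ℕ) (hS : S ⊆ range m) :
    ∑ n ∈ S, (w (j + n) - w (j + 1 + n)) ≤ w j - w (j + m) := by
  have h1 : ∑ n ∈ S, (w (j + n) - w (j + 1 + n)) ≤
      ∑ n ∈ range m, (w (j + n) - w (j + 1 + n)) := by
    refine sum_le_sum_of_subset_of_nonneg hS fun n _ _ => ?_
    exact sub_nonneg.2 (w_anti (by omega))
  refine h1.trans (le_of_eq ?_)
  have := Finset.sum_range_sub' (fun n => w (j + n)) m
  simp only [add_zero] at this
  rw [← this]
  refine sum_congr rfl fun n _ => ?_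
  rw [show j + (n + 1) = j + 1 + n by omega]

lemma exch (A : Finset ℕ) (m : ℕ) (c : ℕ → 𝕜) (t : ℝ) (hc : ∀ n, ‖c n‖ ≤ t) (a : ℕ)
    (haA : a ∉ A) (ha : ‖c a‖ = t) : N A m c ≤ N (insert a A) m c := by
  have ht : 0 ≤ t := (norm_nonneg _).trans (hc a)
  set j := A.card with hj
  have hcard : (insert a A).card = j + 1 := by rw [card_insert_of_notMem haA]
  unfold N
  rw [hcard, sum_insert haA, ha, ← hj]
  set S : ℝ := ∑ n ∈ A, ‖c n‖ with hS
  have hSle : S ≤ j * t := by
    rw [hS, hj]
    calc ∑ n ∈ A, ‖c n‖ ≤ ∑ n ∈ A, t := sum_le_sum fun n _ => hc n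
      _ = _ := by simp
  have hS0 : 0 ≤ S := sum_nonneg fun _ _ => norm_nonneg _
  set L : 𝕜 := ∑ n ∈ range m \ insert a A, (w (j + 1 + n) : 𝕜) * c n with hL
  -- the low part
  have hlow : ‖∑ n ∈ range m \ A, (w (j + n) : 𝕜) * c n‖ ≤ ‖L‖ + 2 * w j * t := by
    have hR : ∑ n ∈ range m \ insert a A, (w (j + n) : 𝕜) * c n =
        L + ∑ n ∈ range m \ insert a A, ((w (j + n) - w (j + 1 + n) : ℝ) : 𝕜) * c n := by
      rw [hL, ← sum_add_distrib]
      refine sum_congr rfl fun n _ => ?_
      push_cast; ring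
    have hRn : ∀ S' : Finset ℕ, ‖∑ n ∈ S', ((w (j + n) - w (j + 1 + n) : ℝ) : 𝕜) * c n‖ ≤
        (∑ n ∈ S', (w (j + n) - w (j + 1 + n))) * t := by
      intro S'
      rw [sum_mul]
      refine (norm_sum_le _ _).trans (sum_le_sum fun n _ => ?_)
      have h0 : 0 ≤ w (j + n) - w (j + 1 + n) := sub_nonneg.2 (w_anti (by omega))
      rw [norm_mul, RCLike.norm_ofReal, abs_of_nonneg h0]
      exact mul_le_mul_of_nonneg_left (hc n) h0
    by_cases ham : a < m
    · have hsplit : range m \ A = insert a (range m \ insert a A) := by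
        ext n
        simp only [Finset.mem_sdiff, mem_range, mem_insert]
        constructor
        · intro h
          by_cases hn : n = a
          · exact Or.inl hn
          · exact Or.inr ⟨h.1, fun h' => h'.elim hn h.2⟩
        · rintro (rfl | h)
          · exact ⟨ham, haA⟩
          · exact ⟨h.1, fun h' => h.2 (Or.inr h')⟩
      have hnot : a ∉ range m \ insert a A := by simp
      rw [hsplit, sum_insert hnot, hR]
      have h1 : ‖(w (j + a) : 𝕜) * c a‖ = w (j + a) * t := by
        rw [norm_mul, RCLike.norm_ofReal, abs_of_pos (w_pos _), ha]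
      have h2 := hRn (range m \ insert a A)
      have h3 : ∑ n ∈ range m \ insert a A, (w (j + n) - w (j + 1 + n)) ≤
          w j - w (j + m) - (w (j + a) - w (j + 1 + a)) := by
        have h4 := tele j m (insert a (range m \ insert a A)) (by
          intro n hn
          rw [mem_insert] at hn
          rcases hn with rfl | hn
          · exact mem_range.2 ham
          · exact (Finset.mem_sdiff.1 hn).1)
        rw [sum_insert hnot] at h4
        linarith
      have h5 : w (j + 1 + a) ≤ w j := w_anti (by omega)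
      have h6 := w_pos (j + m)
      calc ‖(w (j + a) : 𝕜) * c a + (L + ∑ n ∈ range m \ insert a A,
            ((w (j + n) - w (j + 1 + n) : ℝ) : 𝕜) * c n)‖
          ≤ ‖(w (j + a) : 𝕜) * c a‖ + (‖L‖ + ‖∑ n ∈ range m \ insert a A,
            ((w (j + n) - w (j + 1 + n) : ℝ) : 𝕜) * c n‖) :=
            (norm_add_le _ _).trans (by gcongr; exact norm_add_le _ _)
        _ ≤ w (j + a) * t + (‖L‖ + (w j - w (j + m) - (w (j + a) - w (j + 1 + a))) * t) := by
            rw [h1]
            gcongr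
            exact h2.trans (mul_le_mul_of_nonneg_right h3 ht)
        _ = ‖L‖ + (w j - w (j + m) + w (j + 1 + a)) * t := by ring
        _ ≤ ‖L‖ + (2 * w j) * t := by
            gcongr
            linarith
    · have hsplit : range m \ A = range m \ insert a A := by
        ext n
        simp only [Finset.mem_sdiff, mem_range, mem_insert]
        constructor
        · intro h
          exact ⟨h.1, fun h' => h'.elim (fun h'' => by omega) h.2⟩
        · intro h
          exact ⟨h.1, fun h' => h.2 (Or.inr h')⟩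
      rw [hsplit, hR]
      have h2 := hRn (range m \ insert a A)
      have h3 := tele j m (range m \ insert a A) sdiff_subset
      have h6 := w_pos (j + m)
      have h7 := w_pos j
      calc ‖L + ∑ n ∈ range m \ insert a A, ((w (j + n) - w (j + 1 + n) : ℝ) : 𝕜) * c n‖
          ≤ ‖L‖ + ‖∑ n ∈ range m \ insert a A,
            ((w (j + n) - w (j + 1 + n) : ℝ) : 𝕜) * c n‖ := norm_add_le _ _
        _ ≤ ‖L‖ + (w j - w (j + m)) * t := by
            gcongr
            exact h2.trans (mul_le_mul_of_nonneg_right h3 ht)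
        _ ≤ ‖L‖ + (2 * w j) * t := by
            gcongr
            linarith
  -- the high part
  have hhigh : al j * S + w j * t ≤ al (j + 1) * (t + S) := by
    have h1 := mul_al j
    have h2 := mul_al (j + 1)
    rw [phi_succ, ← h1] at h2
    push_cast at h2
    rcases Nat.eq_zero_or_pos j with h0 | h0
    · have hS' : S = 0 := le_antisymm (by rw [h0] at hSle; simpa using hSle) hS0
      have h3 : (j : ℝ) = 0 := by exact_mod_cast h0
      rw [h3, zero_mul, zero_add, zero_add, one_mul] at h2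
      rw [hS', h2, mul_zero, zero_add, add_zero]
    · have h3 := al_anti j h0
      have h4 : (al j - al (j + 1)) * S ≤ (al j - al (j + 1)) * (j * t) :=
        mul_le_mul_of_nonneg_left hSle (sub_nonneg.2 h3)
      nlinarith
  calc al j * S + 1 / 2 * ‖∑ n ∈ range m \ A, (w (j + n) : 𝕜) * c n‖
      ≤ al j * S + 1 / 2 * (‖L‖ + 2 * w j * t) := by gcongr
    _ = (al j * S + w j * t) + 1 / 2 * ‖L‖ := by ring
    _ ≤ al (j + 1) * (t + S) + 1 / 2 * ‖L‖ := by gcongr

/-- the top coordinates may be assumed to be in the high part -/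
lemma absorb (m : ℕ) (c : ℕ → 𝕜) (t : ℝ) (hc : ∀ n, ‖c n‖ ≤ t) (A : Finset ℕ)
    (hA : ∀ a ∈ A, ‖c a‖ = t) (A₀ : Finset ℕ) :
    ∃ A₁, A ⊆ A₁ ∧ N A₀ m c ≤ N A₁ m c := by
  induction A using Finset.induction_on with
  | empty => exact ⟨A₀, empty_subset _, le_rfl⟩
  | insert a A _ ih =>
    obtain ⟨A₁, h1, h2⟩ := ih fun b hb => hA b (mem_insert_of_mem hb)
    by_cases h : a ∈ A₁
    · exact ⟨A₁, insert_subset h h1, h2⟩
    · refine ⟨insert a A₁, insert_subset_insert a h1, h2.trans ?_⟩
      exact exch A₁ m c t hc a h (hA a (mem_insert_self a A))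

lemma move (A₀ : Finset ℕ) (m : ℕ) (c c' : ℕ → 𝕜) (t : ℝ) (A B : Finset ℕ)
    (hAB : Disjoint A B) (hcard : A.card = B.card) (hsub : A ⊆ A₀)
    (hoff : ∀ n, n ∉ A → n ∉ B → c n = c' n) (hA : ∀ n ∈ A, ‖c n‖ = t ∧ c' n = 0)
    (hB : ∀ n ∈ B, c n = 0 ∧ ‖c' n‖ = t) : ∃ A₁, N A₀ m c = N A₁ m c' := by
  obtain ⟨R, hR, hRc⟩ := exists_subset_card_eq (s := A) (n := (A₀ ∩ B).card) (by
    rw [hcard]; exact card_le_card inter_subset_right)
  set O : Finset ℕ := A₀ \ (A ∪ B) with hO
  have hd1 : Disjoint O B := by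
    rw [disjoint_left]; intro n hn hn'
    rw [hO, Finset.mem_sdiff, mem_union] at hn
    exact hn.2 (Or.inr hn')
  have hd2 : Disjoint (O ∪ B) R := by
    rw [disjoint_left]; intro n hn hn'
    have hnA := hR hn'
    rw [mem_union] at hn
    rcases hn with hn | hn
    · rw [hO, Finset.mem_sdiff, mem_union] at hn
      exact hn.2 (Or.inl hnA)
    · exact disjoint_left.1 hAB hnA hn
  have hd3 : Disjoint O A := by
    rw [disjoint_left]; intro n hn hn'
    rw [hO, Finset.mem_sdiff, mem_union] at hn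
    exact hn.2 (Or.inl hn')
  have hd4 : Disjoint (O ∪ A) (A₀ ∩ B) := by
    rw [disjoint_left]; intro n hn hn'
    rw [mem_inter] at hn'
    rw [mem_union] at hn
    rcases hn with hn | hn
    · exact disjoint_left.1 hd1 hn hn'.2
    · exact disjoint_left.1 hAB hn hn'.2
  have hA₀ : A₀ = (O ∪ A) ∪ (A₀ ∩ B) := by
    ext n
    simp only [hO, mem_union, Finset.mem_sdiff, mem_inter]
    constructor
    · intro h
      by_cases h1 : n ∈ A
      · exact Or.inl (Or.inr h1)
      · by_cases h2 : n ∈ B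
        · exact Or.inr ⟨h, h2⟩
        · exact Or.inl (Or.inl ⟨h, fun h' => h'.elim h1 h2⟩)
    · rintro ((h | h) | h)
      · exact h.1
      · exact hsub h
      · exact h.1
  refine ⟨(O ∪ B) ∪ R, ?_⟩
  have hc1 : ((O ∪ B) ∪ R).card = A₀.card := by
    rw [card_union_of_disjoint hd2, card_union_of_disjoint hd1, hRc]
    conv_rhs => rw [hA₀]
    rw [card_union_of_disjoint hd4, card_union_of_disjoint hd3, hcard]
  unfold N
  rw [hc1]
  have hO' : ∀ n ∈ O, c n = c' n := by
    intro n hn
    rw [hO, Finset.mem_sdiff, mem_union] at hn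
    exact hoff n (fun h => hn.2 (Or.inl h)) (fun h => hn.2 (Or.inr h))
  congr 2
  · -- high sums
    have e1 : ∑ n ∈ A₀, ‖c n‖ = ∑ n ∈ O, ‖c n‖ + A.card * t := by
      conv_lhs => rw [hA₀]
      rw [sum_union hd4, sum_union hd3]
      have e2 : ∑ n ∈ A, ‖c n‖ = A.card * t := by
        rw [sum_congr rfl fun n hn => (hA n hn).1]; simp
      have e3 : ∑ n ∈ A₀ ∩ B, ‖c n‖ = 0 :=
        sum_eq_zero fun n hn => by rw [(hB n (mem_inter.1 hn).2).1, norm_zero]
      rw [e2, e3, add_zero]
    have e4 : ∑ n ∈ (O ∪ B) ∪ R, ‖c' n‖ = ∑ n ∈ O, ‖c' n‖ + B.card * t := by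
      rw [sum_union hd2, sum_union hd1]
      have e2 : ∑ n ∈ B, ‖c' n‖ = B.card * t := by
        rw [sum_congr rfl fun n hn => (hB n hn).2]; simp
      have e3 : ∑ n ∈ R, ‖c' n‖ = 0 :=
        sum_eq_zero fun n hn => by rw [(hA n (hR hn)).2, norm_zero]
      rw [e2, e3, add_zero]
    rw [e1, e4, hcard]
    congr 1
    exact sum_congr rfl fun n hn => by rw [hO' n hn]
  · -- low sums
    congr 1
    have e1 : ∑ n ∈ range m \ A₀, (w (A₀.card + n) : 𝕜) * c n =
        ∑ n ∈ range m \ (A₀ ∪ A ∪ B), (w (A₀.card + n) : 𝕜) * c n := by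
      symm
      refine sum_subset ?_ ?_
      · intro n hn
        simp only [Finset.mem_sdiff, mem_union] at hn ⊢
        exact ⟨hn.1, fun h => hn.2 (Or.inl (Or.inl h))⟩
      · intro n hn hn'
        simp only [Finset.mem_sdiff, mem_union] at hn hn'
        have : n ∈ B := by
          by_contra hnB
          exact hn' ⟨hn.1, fun h => h.elim (fun h => h.elim hn.2 (fun h => hn.2 (hsub h))) hnB⟩
        rw [(hB n this).1, mul_zero]
    have e2 : ∑ n ∈ range m \ ((O ∪ B) ∪ R), (w (A₀.card + n) : 𝕜) * c' n =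
        ∑ n ∈ range m \ (A₀ ∪ A ∪ B), (w (A₀.card + n) : 𝕜) * c' n := by
      symm
      refine sum_subset ?_ ?_
      · intro n hn
        simp only [Finset.mem_sdiff, mem_union, hO] at hn ⊢
        refine ⟨hn.1, ?_⟩
        rintro ((h | h) | h)
        · exact hn.2 (Or.inl (Or.inl h.1))
        · exact hn.2 (Or.inr h)
        · exact hn.2 (Or.inl (Or.inr (hR h)))
      · intro n hn hn'
        simp only [Finset.mem_sdiff, mem_union, hO] at hn hn'
        have : n ∈ A := by
          by_contra hnA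
          refine hn' ⟨hn.1, ?_⟩
          rintro ((h | h) | h)
          · by_cases hnB : n ∈ B
            · exact hn.2 (Or.inl (Or.inr hnB))
            · exact hn.2 (Or.inl (Or.inl ⟨h, fun h' => h'.elim hnA hnB⟩))
          · exact hnA h
          · exact hn.2 (Or.inl (Or.inr h))
        rw [(hA n this).2, mul_zero]
    rw [e1, e2]
    refine sum_congr rfl fun n hn => ?_
    simp only [Finset.mem_sdiff, mem_union] at hn
    rw [hoff n (fun h => hn.2 (Or.inl (Or.inr h))) (fun h => hn.2 (Or.inr h))]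

end Pool.Agent.Y279.PA
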