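import Mathlib
import Pool.Agent.Y279.PA

set_option autoImplicit false

namespace Pool.Agent.Y279.PA

open Finset Filter Topology
open scoped ENNReal

variable (𝕜 : Type) [RCLike 𝕜]

/-- index set of the norming functionals: a finite set, a length, and unimodular-type multipliers -/
structure Idx where
  A : Finset ℕ
  m : ℕ
  e : ℕ → 𝕜
  θ : 𝕜
  he : ∀ n, ‖e n‖ ≤ 1
  hθ : ‖θ‖ ≤ 1

abbrev Y : Type := lp (fun _ : Idx 𝕜 => 𝕜) ∞

variable {𝕜}

/-- coefficients of the norming functionals -/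
noncomputable def coef (i : Idx 𝕜) (n : ℕ) : 𝕜 :=
  if n ∈ i.A then (al i.A.card : 𝕜) * i.e n
  else if n < i.m then (1 / 2 : 𝕜) * i.θ * (w (i.A.card + n) : 𝕜) else 0

lemma coef_le (i : Idx 𝕜) (n : ℕ) : ‖coef i n‖ ≤ 1 := by
  unfold coef
  split_ifs
  · rw [norm_mul, RCLike.norm_ofReal, abs_of_nonneg (al_nonneg _)]
    exact mul_le_one₀ (al_le_one _) (norm_nonneg _) (i.he n)
  · rw [norm_mul, norm_mul, RCLike.norm_ofReal, abs_of_pos (w_pos _)]
    have h1 : ‖(1 / 2 : 𝕜)‖ ≤ 1 := by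
      rw [norm_div, norm_one, RCLike.norm_two]; norm_num
    exact mul_le_one₀ (mul_le_one₀ h1 (norm_nonneg _) i.hθ) (w_pos _).le (w_le_one _)
  · simp

/-- unit vectors -/
noncomputable def y (n : ℕ) : Y 𝕜 :=
  ⟨fun i => coef i n, memℓp_infty ⟨1, by rintro _ ⟨i, rfl⟩; exact coef_le i n⟩⟩

lemma y_apply (n : ℕ) (i : Idx 𝕜) : (y n : Y 𝕜) i = coef i n := rfl

variable (𝕜) in
/-- the space -/
noncomputable def X : Submodule 𝕜 (Y 𝕜) :=
  (Submodule.span 𝕜 (Set.range (y : ℕ → Y 𝕜))).topologicalClosure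

lemma X_closed : IsClosed (X 𝕜 : Set (Y 𝕜)) := Submodule.isClosed_topologicalClosure _

instance : CompleteSpace (X 𝕜) := X_closed.completeSpace_coe

noncomputable def x (n : ℕ) : X 𝕜 :=
  ⟨y n, Submodule.le_topologicalClosure _ (Submodule.subset_span ⟨n, rfl⟩)⟩

/-- index of the coordinate functional -/
noncomputable def ic (n : ℕ) : Idx 𝕜 := ⟨{n}, 0, fun _ => 1, 0, by simp, by simp⟩

lemma al_one : al 1 = 1 := by
  rw [al, phi]; simp [w_zero]

lemma coef_ic (n k : ℕ) : coef (ic n : Idx 𝕜) k = if n = k then 1 else 0 := by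
  unfold coef ic
  by_cases h : n = k
  · subst h; simp [al_one]
  · rw [if_neg (by simpa using fun h' => h h'.symm), if_neg (Nat.not_lt_zero k), if_neg h]

/-- coordinate functionals -/
noncomputable def xs (n : ℕ) : X 𝕜 →L[𝕜] 𝕜 :=
  (lp.evalCLM 𝕜 (fun _ : Idx 𝕜 => 𝕜) ∞ (ic n)).comp (X 𝕜).subtypeL

lemma xs_apply (n : ℕ) (v : X 𝕜) : xs n v = (v : Y 𝕜) (ic n) := rfl

lemma xs_x (n k : ℕ) : xs n (x k : X 𝕜) = if n = k then 1 else 0 := coef_ic n k

/-- the set of indices that matter for a functional -/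
def sp (i : Idx 𝕜) : Finset ℕ := i.A ∪ range i.m

/-- every norming functional is a finite combination of the coordinates -/
lemma eval_eq (i : Idx 𝕜) (v : X 𝕜) : (v : Y 𝕜) i = ∑ n ∈ sp i, coef i n * xs n v := by
  have hle : X 𝕜 ≤ LinearMap.ker ((lp.evalCLM 𝕜 (fun _ : Idx 𝕜 => 𝕜) ∞ i -
      ∑ n ∈ sp i, (coef i n) • lp.evalCLM 𝕜 (fun _ : Idx 𝕜 => 𝕜) ∞ (ic n) : Y 𝕜 →L[𝕜] 𝕜) :
      Y 𝕜 →ₗ[𝕜] 𝕜) := by
    refine Submodule.topologicalClosure_minimal _ ?_ (ContinuousLinearMap.isClosed_ker _)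
    rw [Submodule.span_le]
    rintro _ ⟨k, rfl⟩
    rw [SetLike.mem_coe, LinearMap.mem_ker, ContinuousLinearMap.coe_coe, _root_.sub_apply,
      _root_.sum_apply]
    have h1 : ∀ n, ((coef i n) • lp.evalCLM 𝕜 (fun _ : Idx 𝕜 => 𝕜) ∞ (ic n)) (y k) =
        if n = k then coef i n else 0 := by
      intro n
      change coef i n * coef (ic n) k = _
      rw [coef_ic]; simp
    simp_rw [h1]
    rw [sum_ite_eq']
    change coef i k - _ = 0
    split_ifs with h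
    · rw [sub_self]
    · rw [sub_zero]
      unfold sp at h
      rw [mem_union, mem_range, not_or] at h
      unfold coef
      rw [if_neg h.1, if_neg h.2]
  have h2 := hle v.2
  rw [LinearMap.mem_ker, ContinuousLinearMap.coe_coe, _root_.sub_apply, _root_.sum_apply,
    sub_eq_zero] at h2
  exact h2

lemma eval_eq' (i : Idx 𝕜) (v : X 𝕜) : (v : Y 𝕜) i =
    (al i.A.card : 𝕜) * ∑ n ∈ i.A, i.e n * xs n v +
      (1 / 2 : 𝕜) * i.θ * ∑ n ∈ range i.m \ i.A, (w (i.A.card + n) : 𝕜) * xs n v := by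
  rw [eval_eq]
  have h1 : sp i = i.A ∪ (range i.m \ i.A) := by
    unfold sp; rw [union_sdiff_self_eq_union]
  have h2 : Disjoint i.A (range i.m \ i.A) := disjoint_sdiff
  rw [h1, sum_union h2]
  congr 1
  · rw [mul_sum]
    refine sum_congr rfl fun n hn => ?_
    unfold coef
    rw [if_pos hn, mul_assoc]
  · rw [mul_sum]
    refine sum_congr rfl fun n hn => ?_
    rw [Finset.mem_sdiff, mem_range] at hn
    unfold coef
    rw [if_neg hn.2, if_pos hn.1]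
    ring

lemma eval_le_N (i : Idx 𝕜) (v : X 𝕜) : ‖(v : Y 𝕜) i‖ ≤ N i.A i.m (fun n => xs n v) := by
  rw [eval_eq']
  unfold N
  refine (norm_add_le _ _).trans (add_le_add ?_ ?_)
  · rw [norm_mul, RCLike.norm_ofReal, abs_of_nonneg (al_nonneg _)]
    refine mul_le_mul_of_nonneg_left ?_ (al_nonneg _)
    refine (norm_sum_le _ _).trans (sum_le_sum fun n _ => ?_)
    rw [norm_mul]
    exact mul_le_of_le_one_left (norm_nonneg _) (i.he n)
  · rw [norm_mul, norm_mul]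
    have h1 : ‖(1 / 2 : 𝕜)‖ = 1 / 2 := by
      rw [norm_div, norm_one, RCLike.norm_two]
    rw [h1]
    refine mul_le_mul_of_nonneg_right ?_ (norm_nonneg _)
    exact mul_le_of_le_one_right (by norm_num) i.hθ

/-- phase -/
lemma exists_phase (z : 𝕜) : ∃ e : 𝕜, ‖e‖ ≤ 1 ∧ e * z = (‖z‖ : 𝕜) := by
  by_cases h : z = 0
  · exact ⟨0, by simp, by simp [h]⟩
  · have hz : ‖z‖ ≠ 0 := norm_ne_zero_iff.2 h
    refine ⟨(starRingEnd 𝕜) z / (‖z‖ : 𝕜), ?_, ?_⟩
    · rw [norm_div, RCLike.norm_conj, RCLike.norm_ofReal, abs_of_nonneg (norm_nonneg z), div_self hz]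
    · rw [div_mul_eq_mul_div, RCLike.conj_mul, sq]
      rw [mul_div_assoc, div_self (by exact_mod_cast hz), mul_one]

lemma N_le_norm (A : Finset ℕ) (m : ℕ) (v : X 𝕜) : N A m (fun n => xs n v) ≤ ‖v‖ := by
  choose e he1 he2 using fun n => exists_phase (xs n v)
  obtain ⟨θ, hθ1, hθ2⟩ := exists_phase
    (∑ n ∈ range m \ A, (w (A.card + n) : 𝕜) * xs n v)
  let i : Idx 𝕜 := ⟨A, m, e, θ, he1, hθ1⟩
  have h := eval_eq' i v
  have h2 : (v : Y 𝕜) i = ((N A m (fun n => xs n v) : ℝ) : 𝕜) := by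
    rw [h]
    simp only [i]
    simp_rw [he2]
    rw [mul_assoc, hθ2]
    unfold N
    push_cast
    ring
  have h3 : ‖(v : Y 𝕜) i‖ ≤ ‖(v : Y 𝕜)‖ := lp.norm_apply_le_norm (by norm_num) _ i
  rw [h2, RCLike.norm_ofReal] at h3
  exact (le_abs_self _).trans h3

lemma norm_le_of_N (v : X 𝕜) (M : ℝ) (hM : 0 ≤ M) (h : ∀ A m, N A m (fun n => xs n v) ≤ M) :
    ‖v‖ ≤ M := by
  change ‖(v : Y 𝕜)‖ ≤ M
  exact lp.norm_le_of_forall_le hM fun i => (eval_le_N i v).trans (h _ _)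

lemma xs_sum (S : Finset ℕ) (a : ℕ → 𝕜) (n : ℕ) :
    xs n (∑ k ∈ S, a k • (x k : X 𝕜)) = if n ∈ S then a n else 0 := by
  rw [map_sum]
  simp_rw [map_smul, xs_x, smul_eq_mul, mul_ite, mul_one, mul_zero]
  rw [sum_ite_eq]

/-- Property (A) -/
lemma propA (v : X 𝕜) (A B : Finset ℕ) (ε η : ℕ → 𝕜) (h1 : ∀ n, ‖xs n v‖ ≤ 1)
    (hAB : Disjoint A B) (hcard : A.card = B.card) (hA : ∀ n ∈ A, xs n v = 0)
    (hB : ∀ n ∈ B, xs n v = 0) (hε : ∀ n ∈ A, ‖ε n‖ = 1) (hη : ∀ n ∈ B, ‖η n‖ = 1) :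
    ‖v + ∑ n ∈ A, ε n • x n‖ ≤ ‖v + ∑ n ∈ B, η n • x n‖ := by
  refine norm_le_of_N _ _ (norm_nonneg _) fun A₀ m => ?_
  set c : ℕ → 𝕜 := fun n => xs n (v + ∑ n ∈ A, ε n • x n) with hc
  set c' : ℕ → 𝕜 := fun n => xs n (v + ∑ n ∈ B, η n • x n) with hc'
  have hcv : ∀ n, c n = xs n v + if n ∈ A then ε n else 0 := by
    intro n; simp only [hc]; rw [map_add, xs_sum]
  have hcv' : ∀ n, c' n = xs n v + if n ∈ B then η n else 0 := by
    intro n; simp only [hc']; rw [map_add, xs_sum]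
  have hcA : ∀ n ∈ A, ‖c n‖ = 1 := by
    intro n hn
    rw [hcv, hA n hn, if_pos hn, zero_add, hε n hn]
  have hc1 : ∀ n, ‖c n‖ ≤ 1 := by
    intro n
    by_cases hn : n ∈ A
    · exact (hcA n hn).le
    · rw [hcv, if_neg hn, add_zero]; exact h1 n
  obtain ⟨A₁, hsub, hle⟩ := absorb m c 1 hc1 A hcA A₀
  obtain ⟨A₂, h2⟩ := move A₁ m c c' 1 A B hAB hcard hsub (fun n hnA hnB => by
      rw [hcv, hcv', if_neg hnA, if_neg hnB])
    (fun n hn => ⟨hcA n hn, by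
      rw [hcv', hA n hn, if_neg (disjoint_left.1 hAB hn), add_zero]⟩)
    (fun n hn => ⟨by rw [hcv, hB n hn, if_neg (disjoint_right.1 hAB hn), add_zero], by
      rw [hcv', hB n hn, if_pos hn, zero_add, hη n hn]⟩)
  calc N A₀ m c ≤ N A₁ m c := hle
    _ = N A₂ m c' := h2
    _ ≤ ‖v + ∑ n ∈ B, η n • x n‖ := N_le_norm _ _ _

lemma norm_x (n : ℕ) : ‖(x n : X 𝕜)‖ ≤ 1 := by
  change ‖(y n : Y 𝕜)‖ ≤ 1
  exact lp.norm_le_of_forall_le zero_le_one fun i => coef_le i n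

lemma norm_xs (n : ℕ) : ‖(xs n : X 𝕜 →L[𝕜] 𝕜)‖ ≤ 1 := by
  refine ContinuousLinearMap.opNorm_le_bound _ zero_le_one fun v => ?_
  rw [one_mul, xs_apply]
  exact lp.norm_apply_le_norm (by norm_num) (v : Y 𝕜) _

lemma total (v : X 𝕜) (h : ∀ n, xs n v = 0) : v = 0 := by
  ext i
  rw [eval_eq i v]
  simp [h]

lemma span_top : (Submodule.span 𝕜 (Set.range (x : ℕ → X 𝕜))).topologicalClosure = ⊤ := by
  rw [eq_top_iff]
  rintro v -
  have hv := v.2
  change (v : Y 𝕜) ∈ closure ((Submodule.span 𝕜 (Set.range (y : ℕ → Y 𝕜)) : Submodule 𝕜 (Y 𝕜)) :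
    Set (Y 𝕜)) at hv
  change v ∈ closure ((Submodule.span 𝕜 (Set.range (x : ℕ → X 𝕜)) : Submodule 𝕜 (X 𝕜)) :
    Set (X 𝕜))
  rw [Topology.IsEmbedding.subtypeVal.closure_eq_preimage_closure_image, Set.mem_preimage]
  have : ((fun u : X 𝕜 => (u : Y 𝕜)) '' ((Submodule.span 𝕜 (Set.range (x : ℕ → X 𝕜)) :
      Submodule 𝕜 (X 𝕜)) : Set (X 𝕜))) = ((Submodule.span 𝕜 (Set.range (y : ℕ → Y 𝕜)) :
      Submodule 𝕜 (Y 𝕜)) : Set (Y 𝕜)) := by
    have h1 := Submodule.map_span (X 𝕜).subtype (Set.range (x : ℕ → X 𝕜))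
    have h2 : (X 𝕜).subtype '' (Set.range (x : ℕ → X 𝕜)) = Set.range (y : ℕ → Y 𝕜) := by
      rw [← Set.range_comp]; rfl
    rw [h2] at h1
    rw [← h1]
    rfl
  rw [this]
  exact hv

/-- partial sums are contractive -/
lemma norm_partialSum (v : X 𝕜) (k : ℕ) : ‖∑ n ∈ range k, xs n v • (x n : X 𝕜)‖ ≤ ‖v‖ := by
  refine norm_le_of_N _ _ (norm_nonneg _) fun A m => ?_
  refine le_trans ?_ (N_le_norm A (min m k) v)
  unfold N
  simp_rw [xs_sum]
  refine add_le_add ?_ ?_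
  · refine mul_le_mul_of_nonneg_left (sum_le_sum fun n _ => ?_) (al_nonneg _)
    split_ifs
    · exact le_rfl
    · rw [norm_zero]; exact norm_nonneg _
  · refine le_of_eq ?_
    congr 2
    symm
    refine sum_subset_zero_on_sdiff ?_ ?_ ?_
    · intro n hn
      simp only [Finset.mem_sdiff, mem_range] at hn ⊢
      exact ⟨by omega, hn.2⟩
    · intro n hn
      simp only [Finset.mem_sdiff, mem_range] at hn
      rw [if_neg, mul_zero]
      rw [mem_range]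
      intro h
      exact hn.2 ⟨by omega, hn.1.2⟩
    · intro n hn
      simp only [Finset.mem_sdiff, mem_range] at hn
      rw [if_pos (mem_range.2 (by omega))]

/-- elements of the span are finite combinations of their coordinates -/
lemma fin_span (u : X 𝕜) (hu : u ∈ Submodule.span 𝕜 (Set.range (x : ℕ → X 𝕜))) :
    ∃ K, ∀ k, K ≤ k → ∑ n ∈ range k, xs n u • (x n : X 𝕜) = u := by
  induction hu using Submodule.span_induction with
  | mem a ha =>
    obtain ⟨j, rfl⟩ := ha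
    refine ⟨j + 1, fun k hk => ?_⟩
    simp_rw [xs_x]
    rw [sum_eq_single j]
    · simp
    · intro b _ hb
      rw [if_neg hb, zero_smul]
    · intro h
      exact absurd (mem_range.2 (by omega)) h
  | zero => exact ⟨0, fun k _ => by simp⟩
  | add a b _ _ ha hb =>
    obtain ⟨K₁, h₁⟩ := ha
    obtain ⟨K₂, h₂⟩ := hb
    refine ⟨max K₁ K₂, fun k hk => ?_⟩
    simp_rw [map_add, add_smul]
    rw [sum_add_distrib, h₁ k ((le_max_left _ _).trans hk), h₂ k ((le_max_right _ _).trans hk)]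
  | smul a b _ hb =>
    obtain ⟨K₁, h₁⟩ := hb
    refine ⟨K₁, fun k hk => ?_⟩
    simp_rw [map_smul, smul_eq_mul, mul_smul]
    rw [← smul_sum, h₁ k hk]

/-- Schauder basis -/
lemma tendsto_partialSum (v : X 𝕜) :
    Tendsto (fun k => ∑ n ∈ range k, xs n v • (x n : X 𝕜)) atTop (𝓝 v) := by
  rw [Metric.tendsto_atTop]
  intro ε hε
  have hv : v ∈ (Submodule.span 𝕜 (Set.range (x : ℕ → X 𝕜))).topologicalClosure := by
    rw [span_top]; trivial
  obtain ⟨u, hu, huv⟩ := Metric.mem_closure_iff.1 hv (ε / 2) (by positivity)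
  obtain ⟨K, hK⟩ := fin_span u hu
  refine ⟨K, fun k hk => ?_⟩
  rw [dist_eq_norm] at huv ⊢
  have h1 : ∑ n ∈ range k, xs n v • (x n : X 𝕜) - v =
      ∑ n ∈ range k, xs n (v - u) • (x n : X 𝕜) - (v - u) := by
    simp_rw [map_sub, sub_smul]
    rw [sum_sub_distrib, hK k hk]
    abel
  rw [h1]
  calc ‖∑ n ∈ range k, xs n (v - u) • (x n : X 𝕜) - (v - u)‖
      ≤ ‖∑ n ∈ range k, xs n (v - u) • (x n : X 𝕜)‖ + ‖v - u‖ := norm_sub_le _ _
    _ ≤ ‖v - u‖ + ‖v - u‖ := by gcongr; exact norm_partialSum _ _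
    _ < ε := by linarith

end Pool.Agent.Y279.PA
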