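import Mathlib
import Pool.Agent.Y279.PA2

set_option autoImplicit false

namespace Pool.Agent.Y279.PA

open Finset Filter Topology
open scoped ENNReal

lemma sum_w_le (A : Finset ℕ) : ∑ n ∈ A, w n ≤ phi A.card := by
  induction A using Finset.induction_on_max with
  | empty => simp [phi]
  | insert a s hs ih =>
    have ha : a ∉ s := fun h => lt_irrefl a (hs a h)
    rw [sum_insert ha, card_insert_of_notMem ha, phi_succ, add_comm]
    refine add_le_add ih (w_anti ?_)
    have : s ⊆ range a := fun n hn => mem_range.2 (hs n hn)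
    simpa using card_le_card this

lemma phi_sqrt (j : ℕ) : phi j ≤ 2 * √(j : ℝ) := by
  induction j with
  | zero => simp [phi]
  | succ j ih =>
    rw [phi_succ]
    have h1 : w j ≤ 2 * √((j : ℝ) + 1) - 2 * √(j : ℝ) := by
      unfold w
      have hpos : 0 < √((j : ℝ) + 1) := by positivity
      rw [div_le_iff₀ hpos]
      have h2 : √((j : ℝ) + 1) * √((j : ℝ) + 1) = j + 1 := Real.mul_self_sqrt (by positivity)
      have h3 : √(j : ℝ) * √(j : ℝ) = j := Real.mul_self_sqrt (by positivity)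
      nlinarith [sq_nonneg (√((j : ℝ) + 1) - √(j : ℝ))]
    push_cast
    linarith

/-- alternating sums of antitone nonnegative sequences -/
lemma alt_bound (p : ℕ) : ∀ b : ℕ → ℝ, Antitone b → (∀ n, 0 ≤ b n) →
    0 ≤ ∑ n ∈ range p, (-1) ^ n * b n ∧ ∑ n ∈ range p, (-1) ^ n * b n ≤ b 0 := by
  induction p with
  | zero => intro b _ h0; simp [h0 0]
  | succ p ih =>
    intro b hb h0
    have h1 := ih (fun n => b (n + 1)) (fun m n h => hb (by omega)) (fun n => h0 _)
    rw [sum_range_succ']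
    have e : ∑ n ∈ range p, (-1 : ℝ) ^ (n + 1) * b (n + 1) =
        - ∑ n ∈ range p, (-1) ^ n * b (n + 1) := by
      rw [← sum_neg_distrib]
      exact sum_congr rfl fun n _ => by ring
    rw [e, pow_zero, one_mul]
    have h2 : b 1 ≤ b 0 := hb (by omega)
    simp only [zero_add] at h1
    constructor <;> linarith [h1.1, h1.2]

variable {𝕜 : Type} [RCLike 𝕜]

/-- the alternating vector -/
noncomputable def vM (M : ℕ) : X 𝕜 := ∑ n ∈ range (2 * M), ((((-1) ^ n * w n : ℝ)) : 𝕜) • x n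

lemma xs_vM (M n : ℕ) : xs n (vM M : X 𝕜) =
    if n ∈ range (2 * M) then ((((-1) ^ n * w n : ℝ)) : 𝕜) else 0 := by
  unfold vM; rw [xs_sum]

lemma norm_alt (n : ℕ) : ‖((((-1) ^ n * w n : ℝ)) : 𝕜)‖ = w n := by
  rw [RCLike.norm_ofReal, abs_mul, abs_pow, abs_neg, abs_one, one_pow, one_mul,
    abs_of_pos (w_pos n)]

lemma norm_vM (M : ℕ) : ‖(vM M : X 𝕜)‖ ≤ 6 := by
  refine norm_le_of_N _ _ (by norm_num) fun A m => ?_
  unfold N
  simp_rw [xs_vM]
  set j := A.card with hj
  have hhigh : al j * ∑ n ∈ A, ‖(if n ∈ range (2 * M) then ((((-1) ^ n * w n : ℝ)) : 𝕜) else 0)‖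
      ≤ 4 := by
    have h1 : ∑ n ∈ A, ‖(if n ∈ range (2 * M) then ((((-1) ^ n * w n : ℝ)) : 𝕜) else 0)‖ ≤
        phi j := by
      refine le_trans (sum_le_sum fun n _ => ?_) (sum_w_le A)
      split_ifs
      · rw [norm_alt]
      · rw [norm_zero]; exact (w_pos n).le
    refine (mul_le_mul_of_nonneg_left h1 (al_nonneg j)).trans ?_
    rcases Nat.eq_zero_or_pos j with h0 | h0
    · rw [h0]; simp [phi]
    · have hj' : (0 : ℝ) < j := by exact_mod_cast h0
      rw [al, div_mul_eq_mul_div, div_le_iff₀ hj']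
      have h2 := phi_sqrt j
      have h3 := phi_nonneg j
      have h4 : √(j : ℝ) * √(j : ℝ) = j := Real.mul_self_sqrt (by positivity)
      nlinarith [Real.sqrt_nonneg (j : ℝ)]
  have hlow : ‖∑ n ∈ range m \ A, (w (j + n) : 𝕜) *
      (if n ∈ range (2 * M) then ((((-1) ^ n * w n : ℝ)) : 𝕜) else 0)‖ ≤ 3 := by
    set p := min m (2 * M) with hp
    have h1 : ∑ n ∈ range m \ A, (w (j + n) : 𝕜) *
        (if n ∈ range (2 * M) then ((((-1) ^ n * w n : ℝ)) : 𝕜) else 0) =
        (((∑ n ∈ range p \ A, (-1) ^ n * (w (j + n) * w n) : ℝ)) : 𝕜) := by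
      push_cast
      symm
      refine sum_subset_zero_on_sdiff ?_ ?_ ?_
      · intro n hn
        simp only [Finset.mem_sdiff, mem_range] at hn ⊢
        exact ⟨by omega, hn.2⟩
      · intro n hn
        simp only [Finset.mem_sdiff, mem_range] at hn
        rw [if_neg, mul_zero]
        rw [mem_range]
        intro h
        exact hn.2 ⟨by omega, hn.1.2⟩
      · intro n hn
        simp only [Finset.mem_sdiff, mem_range] at hn
        rw [if_pos (mem_range.2 (by omega))]
        push_cast; ring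
    rw [h1, RCLike.norm_ofReal]
    have h2 : ∑ n ∈ range p \ A, (-1 : ℝ) ^ n * (w (j + n) * w n) =
        ∑ n ∈ range p, (-1 : ℝ) ^ n * (w (j + n) * w n) -
          ∑ n ∈ range p ∩ A, (-1 : ℝ) ^ n * (w (j + n) * w n) := by
      rw [eq_sub_iff_add_eq, ← sdiff_inter_self_left (range p) A]
      exact sum_sdiff inter_subset_left
    rw [h2]
    have h3 := alt_bound p (fun n => w (j + n) * w n)
      (fun m n h => mul_le_mul (w_anti (by omega)) (w_anti h) (w_pos _).le (w_pos _).le)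
      (fun n => (mul_pos (w_pos _) (w_pos _)).le)
    simp only [add_zero] at h3
    have h4 : w j * w 0 ≤ 1 := mul_le_one₀ (w_le_one j) (w_pos 0).le (w_le_one 0)
    have h5 : |∑ n ∈ range p ∩ A, (-1 : ℝ) ^ n * (w (j + n) * w n)| ≤ 2 := by
      refine (abs_sum_le_sum_abs _ _).trans ?_
      have h6 : ∀ n ∈ range p ∩ A, |(-1 : ℝ) ^ n * (w (j + n) * w n)| ≤ w j * w n := by
        intro n _
        rw [abs_mul, abs_pow, abs_neg, abs_one, one_pow, one_mul,
          abs_of_pos (mul_pos (w_pos _) (w_pos _))]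
        exact mul_le_mul_of_nonneg_right (w_anti (by omega)) (w_pos n).le
      refine (sum_le_sum h6).trans ?_
      rw [← mul_sum]
      have h7 : ∑ n ∈ range p ∩ A, w n ≤ 2 * √(j : ℝ) := by
        refine le_trans (sum_le_sum_of_subset_of_nonneg inter_subset_right
          fun n _ _ => (w_pos n).le) ((sum_w_le A).trans (phi_sqrt j))
      refine (mul_le_mul_of_nonneg_left h7 (w_pos j).le).trans ?_
      unfold w
      have h8 : √(j : ℝ) ≤ √((j : ℝ) + 1) := Real.sqrt_le_sqrt (by linarith)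
      have h9 : 0 < √((j : ℝ) + 1) := by positivity
      rw [div_mul_eq_mul_div, div_le_iff₀ h9]
      linarith
    rw [abs_le] at h5 ⊢
    constructor <;> linarith [h3.1, h3.2, h5.1, h5.2]
  linarith

/-- projections onto finite sets of coordinates -/
noncomputable def P (F : Finset ℕ) : X 𝕜 →L[𝕜] X 𝕜 := ∑ n ∈ F, (xs n).smulRight (x n)

lemma P_apply (F : Finset ℕ) (v : X 𝕜) : P F v = ∑ n ∈ F, xs n v • (x n : X 𝕜) := by
  unfold P; rw [_root_.sum_apply]; rfl

lemma lower (M : ℕ) : 1 / 4 * ∑ k ∈ range M, 1 / ((k : ℝ) + 1) ≤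
    ‖P ((range M).image fun k => 2 * k) (vM M : X 𝕜)‖ := by
  refine le_trans ?_ (N_le_norm ∅ (2 * M) _)
  unfold N
  simp_rw [P_apply, xs_sum, xs_vM]
  have h1 : ∑ n ∈ range (2 * M) \ ∅, (w ((∅ : Finset ℕ).card + n) : 𝕜) *
      (if n ∈ (range M).image fun k => 2 * k then
        (if n ∈ range (2 * M) then ((((-1) ^ n * w n : ℝ)) : 𝕜) else 0) else 0) =
      ((∑ k ∈ range M, w (2 * k) * w (2 * k) : ℝ) : 𝕜) := by
    rw [sdiff_empty]
    simp_rw [mul_ite, mul_zero]
    rw [← sum_filter]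
    have h2 : (range (2 * M)).filter (fun n => n ∈ (range M).image fun k => 2 * k) =
        (range M).image fun k => 2 * k := by
      ext n
      rw [mem_filter]
      refine ⟨fun h => h.2, fun h => ⟨?_, h⟩⟩
      rw [mem_image] at h
      obtain ⟨k, hk, rfl⟩ := h
      rw [mem_range] at hk ⊢
      omega
    rw [h2, sum_image (fun a _ b _ h => by
      have h' : 2 * a = 2 * b := h
      omega)]
    push_cast
    refine sum_congr rfl fun k hk => ?_
    rw [mem_range] at hk
    rw [if_pos (mem_range.2 (by omega)), card_empty, zero_add]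
    push_cast
    rw [pow_mul, neg_one_sq, one_pow, one_mul]
  rw [h1, card_empty, RCLike.norm_ofReal, sum_empty, mul_zero, zero_add]
  have h3 : 1 / 2 * ∑ k ∈ range M, 1 / ((k : ℝ) + 1) ≤ ∑ k ∈ range M, w (2 * k) * w (2 * k) := by
    rw [mul_sum]
    refine sum_le_sum fun k _ => ?_
    have e1 : w (2 * k) * w (2 * k) = 1 / (((2 * k : ℕ) : ℝ) + 1) := by
      unfold w
      rw [div_mul_div_comm, Real.mul_self_sqrt (by positivity), one_mul]
    have e2 : 1 / 2 * (1 / ((k : ℝ) + 1)) = 1 / (2 * ((k : ℝ) + 1)) := by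
      rw [div_mul_div_comm, one_mul]
    rw [e1, e2]
    push_cast
    exact one_div_le_one_div_of_le (by positivity) (by linarith)
  have h4 := le_abs_self (∑ k ∈ range M, w (2 * k) * w (2 * k))
  linarith

/-- a family with an unconditional sum has bounded finite partial sums -/
lemma bdd_of_summable {V : Type} [NormedAddCommGroup V] (f : ℕ → V) (h : Summable f) :
    ∃ C, ∀ F : Finset ℕ, ‖∑ n ∈ F, f n‖ ≤ C := by
  have hc := h.hasSum.cauchySeq
  rw [cauchySeq_finset_iff_vanishing_norm] at hc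
  obtain ⟨s, hs⟩ := hc 1 one_pos
  refine ⟨∑ n ∈ s, ‖f n‖ + 1, fun F => ?_⟩
  have h1 : ∑ n ∈ F, f n = ∑ n ∈ F ∩ s, f n + ∑ n ∈ F \ s, f n := by
    rw [← sum_inter_add_sum_sdiff F s]
  rw [h1]
  refine (norm_add_le _ _).trans (add_le_add ?_ (hs _ sdiff_disjoint).le)
  refine (norm_sum_le _ _).trans ?_
  exact sum_le_sum_of_subset_of_nonneg inter_subset_right fun _ _ _ => norm_nonneg _

theorem not_unconditional : ¬ ∀ v : X 𝕜, HasSum (fun n => xs n v • (x n : X 𝕜)) v := by
  intro h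
  have hb : ∀ v : X 𝕜, ∃ C, ∀ F : Finset ℕ, ‖P F v‖ ≤ C := by
    intro v
    obtain ⟨C, hC⟩ := bdd_of_summable _ (h v).summable
    exact ⟨C, fun F => by rw [P_apply]; exact hC F⟩
  obtain ⟨C, hC⟩ := banach_steinhaus hb
  have hC0 : 0 ≤ C := le_trans (norm_nonneg (P (𝕜 := 𝕜) ∅)) (hC ∅)
  have hdiv := Real.tendsto_sum_range_one_div_nat_succ_atTop
  obtain ⟨M, hM⟩ := (hdiv.eventually_gt_atTop (4 * (C * 6))).exists
  have h1 := lower (𝕜 := 𝕜) M
  have h2 := (P (𝕜 := 𝕜) ((range M).image fun k => 2 * k)).le_of_opNorm_le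
    (hC ((range M).image fun k => 2 * k)) (vM M)
  have h3 : C * ‖(vM M : X 𝕜)‖ ≤ C * 6 := mul_le_mul_of_nonneg_left (norm_vM M) hC0
  linarith

end Pool.Agent.Y279.PA
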