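import Mathlib

set_option autoImplicit false

namespace Pool.Agent.Y279.NU

open Finset

/-- Sum over shifted levels. -/
lemma sum_shift (U : ℕ → ℝ) (m n : ℕ) :
    ∑ j ∈ range n, (if m ≤ j then U (j - m) else 0) = ∑ j ∈ range (n - m), U j := by
  induction n with
  | zero => simp
  | succ n ih =>
    rw [sum_range_succ, ih]
    by_cases h : m ≤ n
    · rw [if_pos h, Nat.succ_sub h, Nat.succ_eq_add_one, sum_range_succ]
    · rw [if_neg h, add_zero]
      have h1 : n - m = 0 := by omega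
      have h2 : n + 1 - m = 0 := by omega
      rw [h1, h2]

lemma sum_low (m n : ℕ) :
    ∑ j ∈ range n, (if m ≤ j then (0 : ℝ) else 1) ≤ m := by
  have h : ∑ j ∈ range n, (if m ≤ j then (0 : ℝ) else 1) = ((min n m : ℕ) : ℝ) := by
    induction n with
    | zero => simp
    | succ n ih =>
      rw [sum_range_succ, ih]
      by_cases h : m ≤ n
      · rw [if_pos h, add_zero, min_eq_right h, min_eq_right (by omega : m ≤ n + 1)]
      · rw [if_neg h, min_eq_left (by omega : n ≤ m), min_eq_left (by omega : n + 1 ≤ m)]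
        push_cast
        ring
  rw [h]
  exact_mod_cast min_le_right n m

abbrev Blk (K : ℕ) : Type := Σ j : Fin (K + 1), Fin (16 ^ (j : ℕ))

/-- the numerical block inequality -/
lemma block (K : ℕ) (u y : Blk K → ℝ) (s : ℝ)
    (hy : ∀ p, y p = u p + (1 / 4 : ℝ) ^ (p.1 : ℕ) * s) (h1 : ∀ p, |y p| ≤ 1)
    (a : ℝ) (ha : 0 < a) (m : ℕ) (hm : 4 / a ≤ 4 ^ m)
    (A : Finset (Blk K)) (hA : ∀ p ∈ A, a ≤ |y p|) :
    ∑ p ∈ A, |y p| ≤ (3 + 16 ^ m) * ∑ p, |u p| + (m * (16 ^ m * (2 / a))) * |s| := by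
  classical
  -- level sums
  let U : ℕ → ℝ := fun j => if h : j < K + 1 then ∑ l : Fin (16 ^ j), |u ⟨⟨j, h⟩, l⟩| else 0
  have hU0 : ∀ j, 0 ≤ U j := by
    intro j
    simp only [U]
    split_ifs with h
    · exact sum_nonneg fun _ _ => abs_nonneg _
    · exact le_rfl
  have hUval : ∀ j : Fin (K + 1), U j = ∑ l : Fin (16 ^ (j : ℕ)), |u ⟨j, l⟩| := by
    intro j
    simp only [U]
    rw [dif_pos j.2]
  let Y : Fin (K + 1) → ℝ := fun j =>
    ∑ l : Fin (16 ^ (j : ℕ)), if (⟨j, l⟩ : Blk K) ∈ A then |y ⟨j, l⟩| else 0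
  have hsumY : ∑ p ∈ A, |y p| = ∑ j, Y j := by
    simp only [Y]
    rw [← Fintype.sum_sigma' (fun (j : Fin (K + 1)) (l : Fin (16 ^ (j : ℕ))) =>
      if (⟨j, l⟩ : Blk K) ∈ A then |y ⟨j, l⟩| else 0)]
    rw [← Finset.sum_filter]
    congr 1
    ext p
    simp
  have hsumU : ∑ p, |u p| = ∑ j ∈ range (K + 1), U j := by
    rw [Fintype.sum_sigma, ← Fin.sum_univ_eq_sum_range]
    exact sum_congr rfl fun j _ => (hUval j).symm
  -- elementwise comparisons
  have hlow : ∀ p : Blk K, (1 / 4 : ℝ) ^ (p.1 : ℕ) * |s| - |y p| ≤ |u p| := by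
    intro p
    have h := hy p
    have h2 : u p = y p - (1 / 4 : ℝ) ^ (p.1 : ℕ) * s := by linarith
    have h3 : |(1 / 4 : ℝ) ^ (p.1 : ℕ) * s| = (1 / 4 : ℝ) ^ (p.1 : ℕ) * |s| := by
      rw [abs_mul, abs_of_nonneg (by positivity)]
    rw [h2, ← h3, abs_sub_comm]
    exact abs_sub_abs_le_abs_sub _ _
  have hup : ∀ p : Blk K, |y p| ≤ |u p| + (1 / 4 : ℝ) ^ (p.1 : ℕ) * |s| := by
    intro p
    rw [hy p]
    refine (abs_add_le _ _).trans ?_
    rw [abs_mul, abs_of_nonneg (by positivity : (0 : ℝ) ≤ (1 / 4 : ℝ) ^ (p.1 : ℕ))]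
  have hcard : ∀ j : ℕ, ∑ _l : Fin (16 ^ j), (1 : ℝ) = 16 ^ j := by
    intro j; simp
  have hlev : ∀ j : Fin (K + 1), Y j ≤ 3 * U j +
      (if m ≤ (j : ℕ) then 16 ^ m * U (j - m) else (16 ^ m * (2 / a)) * |s|) := by
    intro j
    have hnn : 0 ≤ (if m ≤ (j : ℕ) then 16 ^ m * U (j - m) else (16 ^ m * (2 / a)) * |s|) := by
      split_ifs
      · exact mul_nonneg (by positivity) (hU0 _)
      · positivity
    by_cases c1 : (1 / 4 : ℝ) ^ (j : ℕ) * |s| ≤ a / 2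
    · have : Y j ≤ 2 * U j := by
        rw [hUval, mul_sum]
        refine sum_le_sum fun l _ => ?_
        split_ifs with hmem
        · have h3 := hA _ hmem
          have h4 := hup ⟨j, l⟩
          simp only at h4
          linarith
        · positivity
      linarith [hU0 j]
    by_cases c2 : 2 ≤ (1 / 4 : ℝ) ^ (j : ℕ) * |s|
    · have : Y j ≤ U j := by
        rw [hUval]
        refine sum_le_sum fun l _ => ?_
        split_ifs with hmem
        · have h3 := h1 ⟨j, l⟩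
          have h4 := hlow ⟨j, l⟩
          simp only at h4
          linarith
        · positivity
      linarith [hU0 j]
    push Not at c1 c2
    have hYj : Y j ≤ 16 ^ (j : ℕ) := by
      rw [← hcard]
      refine sum_le_sum fun l _ => ?_
      split_ifs
      · exact h1 _
      · exact zero_le_one
    have h3U := hU0 j
    by_cases hmj : m ≤ (j : ℕ)
    · rw [if_pos hmj]
      have hj' : (j : ℕ) - m < K + 1 := lt_of_le_of_lt (Nat.sub_le _ _) j.2
      have hr : 2 ≤ (1 / 4 : ℝ) ^ ((j : ℕ) - m) * |s| := by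
        have e1 : (1 / 4 : ℝ) ^ (j : ℕ) = (1 / 4 : ℝ) ^ ((j : ℕ) - m) * (1 / 4) ^ m := by
          rw [← pow_add, Nat.sub_add_cancel hmj]
        have e2 : (1 / 4 : ℝ) ^ m * 4 ^ m = 1 := by
          rw [← mul_pow]; norm_num
        have e3 : (1 / 4 : ℝ) ^ ((j : ℕ) - m) * |s| = 4 ^ m * ((1 / 4 : ℝ) ^ (j : ℕ) * |s|) := by
          rw [e1]
          calc _ = (1 / 4 : ℝ) ^ ((j : ℕ) - m) * |s| * 1 := by ring
            _ = (1 / 4 : ℝ) ^ ((j : ℕ) - m) * |s| * ((1 / 4 : ℝ) ^ m * 4 ^ m) := by rw [e2]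
            _ = _ := by ring
        rw [e3]
        calc (2 : ℝ) = (4 / a) * (a / 2) := by field_simp; norm_num
          _ ≤ 4 ^ m * ((1 / 4 : ℝ) ^ (j : ℕ) * |s|) :=
            mul_le_mul hm c1.le (by positivity) (by positivity)
      have hUl : (16 : ℝ) ^ ((j : ℕ) - m) ≤ U (j - m) := by
        simp only [U]
        rw [dif_pos hj', ← hcard]
        refine sum_le_sum fun l _ => ?_
        have h4 := hlow ⟨⟨(j : ℕ) - m, hj'⟩, l⟩
        have h5 := h1 ⟨⟨(j : ℕ) - m, hj'⟩, l⟩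
        simp only at h4
        linarith
      have e4 : (16 : ℝ) ^ (j : ℕ) = 16 ^ m * 16 ^ ((j : ℕ) - m) := by
        rw [← pow_add, Nat.add_sub_cancel' hmj]
      have : (16 : ℝ) ^ m * 16 ^ ((j : ℕ) - m) ≤ 16 ^ m * U (j - m) :=
        mul_le_mul_of_nonneg_left hUl (by positivity)
      linarith
    · rw [if_neg hmj]
      have hs : a / 2 < |s| := by
        refine c1.trans_le ?_
        have : (1 / 4 : ℝ) ^ (j : ℕ) ≤ 1 := pow_le_one₀ (by norm_num) (by norm_num)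
        nlinarith [abs_nonneg s]
      have e5 : (16 : ℝ) ^ (j : ℕ) ≤ 16 ^ m := pow_le_pow_right₀ (by norm_num) (by omega)
      have e6 : (16 : ℝ) ^ m ≤ (16 ^ m * (2 / a)) * |s| := by
        have : 1 ≤ (2 / a) * |s| := by
          calc (1 : ℝ) = (2 / a) * (a / 2) := by field_simp
            _ ≤ _ := mul_le_mul_of_nonneg_left hs.le (by positivity)
        calc (16 : ℝ) ^ m = 16 ^ m * 1 := by ring
          _ ≤ 16 ^ m * ((2 / a) * |s|) := mul_le_mul_of_nonneg_left this (by positivity)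
          _ = _ := by ring
      linarith
  -- summation over levels
  have hfin : ∑ j : Fin (K + 1), (3 * U j +
      (if m ≤ (j : ℕ) then 16 ^ m * U (j - m) else (16 ^ m * (2 / a)) * |s|)) =
      3 * ∑ j ∈ range (K + 1), U j + (16 ^ m * ∑ j ∈ range (K + 1 - m), U j +
        ((16 ^ m * (2 / a)) * |s|) * ∑ j ∈ range (K + 1), (if m ≤ j then (0 : ℝ) else 1)) := by
    rw [Fin.sum_univ_eq_sum_range (fun j : ℕ => 3 * U j +
      (if m ≤ j then 16 ^ m * U (j - m) else (16 ^ m * (2 / a)) * |s|)) (K + 1)]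
    rw [sum_add_distrib, ← mul_sum]
    congr 1
    rw [← sum_shift, mul_sum, mul_sum, ← sum_add_distrib]
    refine sum_congr rfl fun j _ => ?_
    split_ifs <;> ring
  have hsub : ∑ j ∈ range (K + 1 - m), U j ≤ ∑ j ∈ range (K + 1), U j := by
    refine sum_le_sum_of_subset_of_nonneg ?_ fun j _ _ => hU0 j
    intro j hj
    rw [mem_range] at hj ⊢
    omega
  calc ∑ p ∈ A, |y p| = ∑ j, Y j := hsumY
    _ ≤ _ := sum_le_sum fun j _ => hlev j
    _ = _ := hfin
    _ ≤ 3 * ∑ j ∈ range (K + 1), U j + (16 ^ m * ∑ j ∈ range (K + 1), U j +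
        ((16 ^ m * (2 / a)) * |s|) * m) := by
      have h1 := mul_le_mul_of_nonneg_left hsub (by positivity : (0 : ℝ) ≤ 16 ^ m)
      have h2 := mul_le_mul_of_nonneg_left (sum_low m (K + 1))
        (by positivity : (0 : ℝ) ≤ (16 ^ m * (2 / a)) * |s|)
      linarith
    _ = _ := by rw [hsumU]; ring

/-- lower bound for the flat vector in a block -/
lemma block_flat (K : ℕ) (hK : 1 ≤ K) (u : Blk K → ℝ) (s : ℝ)
    (hy : ∀ p, (1 : ℝ) = u p + (1 / 4 : ℝ) ^ (p.1 : ℕ) * s) :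
    (16 : ℝ) ^ K / 16 ≤ ∑ p, |u p| := by
  have hcard : ∀ j : ℕ, ∑ _l : Fin (16 ^ j), (1 : ℝ) = 16 ^ j := by
    intro j; simp
  have hlev : ∀ j : Fin (K + 1), ∑ l : Fin (16 ^ (j : ℕ)), |u ⟨j, l⟩| ≤ ∑ p, |u p| := by
    intro j
    rw [Fintype.sum_sigma]
    exact single_le_sum (f := fun j : Fin (K + 1) => ∑ l : Fin (16 ^ (j : ℕ)), |u ⟨j, l⟩|)
      (fun i _ => sum_nonneg fun _ _ => abs_nonneg _) (mem_univ j)
  by_cases c : (1 / 4 : ℝ) ^ K * s ≤ 1 / 2
  · refine le_trans ?_ (hlev ⟨K, Nat.lt_succ_self K⟩)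
    have h2 : (16 : ℝ) ^ K * (1 / 2) ≤ ∑ l : Fin (16 ^ K), |u ⟨⟨K, Nat.lt_succ_self K⟩, l⟩| := by
      rw [← hcard, sum_mul]
      refine sum_le_sum fun l _ => ?_
      have h3 := hy ⟨⟨K, Nat.lt_succ_self K⟩, l⟩
      simp only at h3
      have h4 := le_abs_self (u ⟨⟨K, Nat.lt_succ_self K⟩, l⟩)
      linarith
    have h5 : (0 : ℝ) < 16 ^ K := by positivity
    refine le_trans ?_ h2
    linarith
  · push Not at c
    obtain ⟨k, rfl⟩ : ∃ k, K = k + 1 := ⟨K - 1, by omega⟩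
    have hk : k < k + 1 + 1 := by omega
    refine le_trans ?_ (hlev ⟨k, hk⟩)
    have e : (1 / 4 : ℝ) ^ (k + 1) * s = (1 / 4) * ((1 / 4 : ℝ) ^ k * s) := by ring
    rw [e] at c
    have h2 : (16 : ℝ) ^ k ≤ ∑ l : Fin (16 ^ k), |u ⟨⟨k, hk⟩, l⟩| := by
      rw [← hcard]
      refine sum_le_sum fun l _ => ?_
      have h3 := hy ⟨⟨k, hk⟩, l⟩
      simp only at h3
      have h4 := neg_le_abs (u ⟨⟨k, hk⟩, l⟩)
      linarith
    refine le_trans (le_of_eq ?_) h2
    rw [pow_succ]; ring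

end Pool.Agent.Y279.NU
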