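import Mathlib
import Pool.Agent.Y279.NU

set_option autoImplicit false

namespace Pool.Agent.Y279.NU

open Finset
open scoped ENNReal

abbrev Idx : Type := Σ K : ℕ, Blk K

abbrev V : Type := lp (fun _ : Idx ⊕ ℕ => ℝ) 1

lemma sum_le_norm (v : V) (S : Finset (Idx ⊕ ℕ)) : ∑ k ∈ S, |v k| ≤ ‖v‖ := by
  have h := lp.sum_rpow_le_norm_rpow (p := (1 : ℝ≥0∞)) (by norm_num) v S
  simpa using h

/-- coordinate functional -/
noncomputable def phi (i : Idx) : V →L[ℝ] ℝ :=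
  lp.evalCLM ℝ (fun _ : Idx ⊕ ℕ => ℝ) 1 (Sum.inl i) +
    ((1 / 4 : ℝ) ^ (i.2.1 : ℕ)) • lp.evalCLM ℝ (fun _ : Idx ⊕ ℕ => ℝ) 1 (Sum.inr i.1)

lemma phi_apply (i : Idx) (v : V) :
    phi i v = v (Sum.inl i) + (1 / 4 : ℝ) ^ (i.2.1 : ℕ) * v (Sum.inr i.1) := by
  rfl

lemma phi_le (i : Idx) (v : V) : |phi i v| ≤ ‖v‖ := by
  rw [phi_apply]
  have h := sum_le_norm v {Sum.inl i, Sum.inr i.1}
  rw [sum_pair (by simp)] at h
  refine (abs_add_le _ _).trans ?_
  have h2 : |(1 / 4 : ℝ) ^ (i.2.1 : ℕ) * v (Sum.inr i.1)| ≤ |v (Sum.inr i.1)| := by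
    rw [abs_mul, abs_of_nonneg (by positivity)]
    exact mul_le_of_le_one_left (abs_nonneg _) (pow_le_one₀ (by norm_num) (by norm_num))
  linarith

/-- the kernel -/
noncomputable def Z : Submodule ℝ V := ⨅ i, LinearMap.ker (phi i : V →ₗ[ℝ] ℝ)

lemma mem_Z (v : V) : v ∈ Z ↔ ∀ i, phi i v = 0 := by
  simp [Z, Submodule.mem_iInf, LinearMap.mem_ker]

lemma Z_closed : IsClosed (Z : Set V) := by
  have : (Z : Set V) = ⋂ i, {v | phi i v = 0} := by
    ext v; simp only [SetLike.mem_coe, mem_Z, Set.mem_iInter, Set.mem_ofPred_eq]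
  rw [this]
  exact isClosed_iInter fun i => isClosed_eq (phi i).continuous continuous_const

instance : IsClosed (Z : Set V) := Z_closed

abbrev X : Type := V ⧸ Z

noncomputable def sgl (k : Idx ⊕ ℕ) : V := lp.single 1 k (1 : ℝ)

lemma sgl_apply (k j : Idx ⊕ ℕ) : (sgl k) j = if j = k then 1 else 0 := by
  classical
  rw [sgl, lp.single_apply]
  by_cases h : j = k
  · subst h; simp
  · rw [Pi.single_eq_of_ne h, if_neg h]

lemma norm_sgl (k : Idx ⊕ ℕ) : ‖sgl k‖ = 1 := by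
  rw [sgl, lp.norm_single (by norm_num)]; simp

noncomputable def xi (i : Idx) : X := Z.mkQ (sgl (Sum.inl i))

noncomputable def xis (i : Idx) : X →ₗ[ℝ] ℝ :=
  Z.liftQ (phi i : V →ₗ[ℝ] ℝ) (by
    intro v hv
    rw [LinearMap.mem_ker]
    exact (mem_Z v).1 hv i)

lemma xis_mk (i : Idx) (v : V) : xis i (Z.mkQ v) = phi i v := by
  simp [xis]

lemma exists_rep (f : X) (ε : ℝ) (hε : 0 < ε) : ∃ v : V, Z.mkQ v = f ∧ ‖v‖ < ‖f‖ + ε := by
  obtain ⟨m, hm, hm2⟩ := Submodule.Quotient.norm_mk_lt f hε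
  exact ⟨m, hm, hm2⟩

lemma norm_mk_le (v : V) : ‖Z.mkQ v‖ ≤ ‖v‖ := Submodule.Quotient.norm_mk_le Z v

lemma xis_le (i : Idx) (f : X) : |xis i f| ≤ ‖f‖ := by
  refine le_of_forall_pos_le_add fun ε hε => ?_
  obtain ⟨v, hv, hv2⟩ := exists_rep f ε hε
  rw [← hv, xis_mk, hv]
  exact (phi_le i v).trans hv2.le

lemma norm_xi (i : Idx) : ‖xi i‖ ≤ 1 := (norm_mk_le _).trans (norm_sgl _).le

lemma biorth (i j : Idx) : xis i (xi j) = if i = j then 1 else 0 := by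
  rw [xi, xis_mk, phi_apply, sgl_apply, sgl_apply]
  simp

lemma mk_inr (K : ℕ) : Z.mkQ (sgl (Sum.inr K)) =
    ∑ p : Blk K, ((1 / 4 : ℝ) ^ (p.1 : ℕ)) • xi ⟨K, p⟩ := by
  have h : sgl (Sum.inr K) - ∑ p : Blk K, ((1 / 4 : ℝ) ^ (p.1 : ℕ)) • sgl (Sum.inl ⟨K, p⟩) ∈ Z := by
    rw [mem_Z]
    intro i
    have hb : ∀ j, phi i (sgl (Sum.inl j)) = if i = j then 1 else 0 := by
      intro j
      have := biorth i j
      rwa [xi, xis_mk] at this
    rw [map_sub, map_sum]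
    simp_rw [map_smul, hb, smul_eq_mul]
    rw [phi_apply, sgl_apply, sgl_apply]
    obtain ⟨K', p'⟩ := i
    by_cases h : K' = K
    · subst h
      simp [Sigma.mk.injEq]
    · simp [Sigma.mk.injEq, h]
  have h2 : Z.mkQ (sgl (Sum.inr K) -
      ∑ p : Blk K, ((1 / 4 : ℝ) ^ (p.1 : ℕ)) • sgl (Sum.inl ⟨K, p⟩)) = 0 := by
    rw [Submodule.mkQ_apply]
    exact (Submodule.Quotient.mk_eq_zero Z).2 h
  rw [map_sub, map_sum, sub_eq_zero] at h2
  rw [h2]
  exact Finset.sum_congr rfl fun p _ => by rw [map_smul]; rfl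

lemma mk_sgl_mem (k : Idx ⊕ ℕ) : Z.mkQ (sgl k) ∈ Submodule.span ℝ (Set.range xi) := by
  rcases k with i | K
  · exact Submodule.subset_span ⟨i, rfl⟩
  · rw [mk_inr]
    exact Submodule.sum_mem _ fun p _ =>
      Submodule.smul_mem _ _ (Submodule.subset_span ⟨_, rfl⟩)

lemma dense (f : X) (ε : ℝ) (hε : 0 < ε) :
    ∃ g ∈ Submodule.span ℝ (Set.range xi), ‖f - g‖ < ε := by
  classical
  obtain ⟨v, rfl⟩ := Z.mkQ_surjective f
  have h := lp.hasSum_single (p := (1 : ℝ≥0∞)) (by norm_num) v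
  rw [HasSum] at h
  have h' := (Metric.tendsto_nhds.1 h) ε hε
  obtain ⟨S, hS⟩ := h'.exists
  refine ⟨Z.mkQ (∑ k ∈ S, lp.single 1 k (v k)), ?_, ?_⟩
  · rw [map_sum]
    refine Submodule.sum_mem _ fun k _ => ?_
    have e : (lp.single 1 k (v k) : V) = (v k) • sgl k := by
      rw [sgl, ← lp.single_smul]; simp
    rw [e, map_smul]
    exact Submodule.smul_mem _ _ (mk_sgl_mem k)
  · rw [← map_sub]
    refine (norm_mk_le _).trans_lt ?_
    rwa [dist_comm, dist_eq_norm] at hS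


/-- sum over blocks is bounded by the norm -/
lemma sum_blocks_le (v : V) (T : Finset ℕ) :
    ∑ K ∈ T, (∑ p : Blk K, |v (Sum.inl ⟨K, p⟩)| + |v (Sum.inr K)|) ≤ ‖v‖ := by
  classical
  refine le_trans (le_of_eq ?_) (sum_le_norm v ((T.sigma fun _ => univ).disjSum T))
  rw [sum_disjSum, sum_sigma, ← sum_add_distrib]

lemma near (a : ℝ) (ha : 0 < a) (m : ℕ) (hm : 4 / a ≤ 4 ^ m) (f : X)
    (h1 : ∀ i, |xis i f| ≤ 1) (A : Finset Idx) (hA : ∀ i ∈ A, a ≤ |xis i f|) :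
    ∑ i ∈ A, |xis i f| ≤ ((3 + 16 ^ m) + m * (16 ^ m * (2 / a))) * ‖f‖ := by
  classical
  set C : ℝ := (3 + 16 ^ m) + m * (16 ^ m * (2 / a)) with hC
  have hCpos : 0 < C := by positivity
  refine le_of_forall_pos_le_add fun ε hε => ?_
  obtain ⟨v, hv, hv2⟩ := exists_rep f (ε / C) (by positivity)
  have hval : ∀ i, xis i f = phi i v := fun i => by rw [← hv, xis_mk]
  simp_rw [hval] at h1 hA ⊢
  have key : ∑ i ∈ A, |phi i v| ≤ C * ‖v‖ := by
    have hmaps : ∀ i ∈ A, i.1 ∈ A.image Sigma.fst := fun i hi => mem_image_of_mem _ hi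
    rw [← sum_fiberwise_of_maps_to hmaps]
    refine le_trans ?_ (mul_le_mul_of_nonneg_left (sum_blocks_le v (A.image Sigma.fst)) hCpos.le)
    rw [mul_sum]
    refine sum_le_sum fun K _ => ?_
    -- the block
    let AK : Finset (Blk K) := univ.filter fun p => (⟨K, p⟩ : Idx) ∈ A
    have e : ∑ i ∈ A with i.1 = K, |phi i v| = ∑ p ∈ AK, |phi ⟨K, p⟩ v| := by
      symm
      refine sum_bij (fun p _ => (⟨K, p⟩ : Idx)) ?_ ?_ ?_ ?_
      · intro p hp
        simp only [AK, mem_filter, mem_univ, true_and] at hp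
        simp [hp]
      · intro p _ p' _ h
        simpa using h
      · rintro ⟨K', p⟩ hi
        simp only [mem_filter] at hi
        obtain ⟨hi1, hi2⟩ := hi
        subst hi2
        exact ⟨p, by simp [AK, hi1], rfl⟩
      · intro p _
        rfl
    rw [e]
    have hb := block K (fun p => v (Sum.inl ⟨K, p⟩)) (fun p => phi ⟨K, p⟩ v) (v (Sum.inr K))
      (fun p => phi_apply _ _) (fun p => h1 _) a ha m hm AK (by
        intro p hp
        simp only [AK, mem_filter, mem_univ, true_and] at hp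
        exact hA _ hp)
    refine hb.trans ?_
    rw [mul_add]
    have hS : 0 ≤ ∑ p : Blk K, |v (Sum.inl ⟨K, p⟩)| := sum_nonneg fun _ _ => abs_nonneg _
    have h3 : (0 : ℝ) ≤ m * (16 ^ m * (2 / a)) := by positivity
    have h4 : (0 : ℝ) ≤ 3 + 16 ^ m := by positivity
    refine add_le_add ?_ ?_
    · exact mul_le_mul_of_nonneg_right (by rw [hC]; linarith) hS
    · exact mul_le_mul_of_nonneg_right (by rw [hC]; linarith) (abs_nonneg _)
  calc ∑ i ∈ A, |phi i v| ≤ C * ‖v‖ := key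
    _ ≤ C * (‖f‖ + ε / C) := mul_le_mul_of_nonneg_left hv2.le hCpos.le
    _ = C * ‖f‖ + ε := by field_simp

lemma flat (K : ℕ) (hK : 1 ≤ K) : (16 : ℝ) ^ K / 16 ≤ ‖∑ p : Blk K, xi ⟨K, p⟩‖ := by
  refine le_of_forall_pos_le_add fun ε hε => ?_
  obtain ⟨v, hv, hv2⟩ := exists_rep (∑ p : Blk K, xi ⟨K, p⟩) ε hε
  have h := block_flat K hK (fun p => v (Sum.inl ⟨K, p⟩)) (v (Sum.inr K)) (by
    intro p
    have h1 : xis ⟨K, p⟩ (Z.mkQ v) = 1 := by
      rw [hv, map_sum]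
      simp_rw [biorth]
      simp [Sigma.mk.injEq]
    rw [xis_mk, phi_apply] at h1
    exact h1.symm)
  refine h.trans (le_trans ?_ hv2.le)
  have h2 := sum_blocks_le v {K}
  rw [sum_singleton] at h2
  linarith [abs_nonneg (v (Sum.inr K))]

end Pool.Agent.Y279.NU
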