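import Mathlib

set_option autoImplicit false

/-!
A ZFC example of a `T₁` space `X` whose countable power is hereditarily Lindelöf, with an open
neighbourhood assignment which is not killed by any finite union of discrete subspaces.
-/

namespace Pool.Agent.Y279.DS

inductive X : Type
  | leaf : X
  | node : (ℕ → X) → X

/-- Children of a point, provided they form a finite union of discrete sets. -/
def T : X → Set X
  | .leaf => ∅
  | .node f => {y | (∃ n, f n = y) ∧ ∃ (k : ℕ) (c : ℕ → Fin k), ∀ n, ∃ G H : Finset X,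
      (∀ g ∈ G, g ∉ T (f n)) ∧ f n ∉ H ∧
      ∀ m, c m = c n → (∀ g ∈ G, g ∉ T (f m)) → f m ∉ H → f m = f n}

def B (G H : Finset X) : Set X := {x | (∀ g ∈ G, g ∉ T x) ∧ x ∉ H}

def Disc (D : Set X) : Prop :=
  ∀ d ∈ D, ∃ G H : Finset X, d ∈ B G H ∧ ∀ x ∈ D, x ∈ B G H → x = d

lemma T_leaf : T .leaf = ∅ := rfl

lemma T_node (f : ℕ → X) : T (.node f) =
    {y | (∃ n, f n = y) ∧ ∃ (k : ℕ) (c : ℕ → Fin k), ∀ n, ∃ G H : Finset X,
      (∀ g ∈ G, g ∉ T (f n)) ∧ f n ∉ H ∧
      ∀ m, c m = c n → (∀ g ∈ G, g ∉ T (f m)) → f m ∉ H → f m = f n} := rfl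

lemma T_countable (x : X) : (T x).Countable := by
  cases x with
  | leaf => rw [T_leaf]; exact Set.countable_empty
  | node f =>
    refine (Set.countable_range f).mono ?_
    rw [T_node]
    rintro y ⟨⟨n, hn⟩, -⟩
    exact ⟨n, hn⟩

/-- the set of children is a finite union of discrete sets -/
lemma T_disc (x : X) : ∃ (k : ℕ) (E : Fin k → Set X), (∀ j, Disc (E j)) ∧ T x ⊆ ⋃ j, E j := by
  by_cases hne : (T x).Nonempty
  · cases x with
    | leaf => rw [T_leaf] at hne; exact absurd hne Set.not_nonempty_empty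
    | node f =>
      obtain ⟨y, hy⟩ := hne
      rw [T_node] at hy
      obtain ⟨-, k, c, hc⟩ := hy
      refine ⟨k, fun j => {y | ∃ n, c n = j ∧ f n = y}, ?_, ?_⟩
      · rintro j d ⟨n, hn, rfl⟩
        obtain ⟨G, H, h1, h2, h3⟩ := hc n
        refine ⟨G, H, ⟨h1, h2⟩, ?_⟩
        rintro x ⟨m, hm, rfl⟩ ⟨hx1, hx2⟩
        exact h3 m (hm.trans hn.symm) hx1 hx2
      · rw [T_node]
        rintro y ⟨⟨n, hn⟩, -⟩
        exact Set.mem_iUnion.2 ⟨c n, n, rfl, hn⟩
  · refine ⟨0, fun _ => ∅, fun j => j.elim0, ?_⟩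
    rw [Set.not_nonempty_iff_eq_empty.1 hne]
    exact Set.empty_subset _

lemma notMem_T (x : X) : x ∉ T x := by
  induction x with
  | leaf => rw [T_leaf]; exact Set.notMem_empty _
  | node f ih =>
    intro h
    have h' := h
    rw [T_node] at h'
    obtain ⟨⟨n, hn⟩, -⟩ := h'
    apply ih n
    rw [hn]
    exact h

lemma exists_T_eq (D : Set X) (hD : D.Countable) (hne : D.Nonempty) (k : ℕ)
    (E : Fin k → Set X) (hE : ∀ j, Disc (E j)) (hDE : D ⊆ ⋃ j, E j) :
    ∃ y, T y = D := by
  obtain ⟨f, rfl⟩ := hD.exists_eq_range hne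
  refine ⟨.node f, ?_⟩
  rw [T_node]
  ext y
  constructor
  · rintro ⟨⟨n, hn⟩, -⟩; exact ⟨n, hn⟩
  · rintro ⟨n, hn⟩
    have hc : ∀ n, ∃ j, f n ∈ E j := fun n => Set.mem_iUnion.1 (hDE ⟨n, rfl⟩)
    choose c hc using hc
    refine ⟨⟨n, hn⟩, k, c, fun n => ?_⟩
    obtain ⟨G, H, ⟨h1, h2⟩, h3⟩ := hE (c n) (f n) (hc n)
    refine ⟨G, H, h1, h2, fun m hmn hm1 hm2 => h3 (f m) ?_ ⟨hm1, hm2⟩⟩
    rw [← hmn]
    exact hc m

lemma countable_finsets {α : Type*} {S : Set α} (hS : S.Countable) :
    {a : Finset α | (a : Set α) ⊆ S}.Countable := by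
  classical
  have := hS.to_subtype
  have h : {a : Finset α | (a:Set α) ⊆ S} ⊆
      Set.range (fun b : Finset S => b.map (Function.Embedding.subtype _)) := by
    intro a ha
    refine ⟨a.subtype (· ∈ S), ?_⟩
    exact Finset.subtype_map_of_mem (fun x hx => ha hx)
  exact (Set.countable_range _).mono h

/-- Closing off a countable set under a countable-set-valued function of finite sets. -/
lemma closure_lemma {α : Type*} (Φ : Finset α → Set α) (hΦ : ∀ a, (Φ a).Countable)
    (R : Set α) (hR : R.Countable) :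
    ∃ S : Set α, S.Countable ∧ R ⊆ S ∧ ∀ a : Finset α, (a : Set α) ⊆ S → Φ a ⊆ S := by
  classical
  let nxt : Set α → Set α := fun S => S ∪ ⋃ a ∈ {a : Finset α | (a : Set α) ⊆ S}, Φ a
  let s : ℕ → Set α := fun n => nxt^[n] R
  have hs : ∀ n, s (n+1) = nxt (s n) := fun n => Function.iterate_succ_apply' nxt n R
  have hmono : Monotone s := by
    apply monotone_nat_of_le_succ
    intro n
    rw [hs]
    exact Set.subset_union_left
  have hc : ∀ n, (s n).Countable := by
    intro n
    induction n with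
    | zero => exact hR
    | succ n ih =>
      rw [hs]
      exact ih.union ((countable_finsets ih).biUnion (fun a _ => hΦ a))
  refine ⟨⋃ n, s n, Set.countable_iUnion hc, Set.subset_iUnion s 0, ?_⟩
  intro a ha
  have hfin : ∃ n, (a : Set α) ⊆ s n := by
    induction a using Finset.induction_on with
    | empty => exact ⟨0, by simp⟩
    | insert x t hx ih =>
      rw [Finset.coe_insert, Set.insert_subset_iff] at ha
      obtain ⟨n, hn⟩ := ih ha.2
      obtain ⟨m, hm⟩ := Set.mem_iUnion.1 ha.1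
      refine ⟨max n m, ?_⟩
      rw [Finset.coe_insert, Set.insert_subset_iff]
      exact ⟨hmono (le_max_right _ _) hm, hn.trans (hmono (le_max_left _ _))⟩
  obtain ⟨n, hn⟩ := hfin
  refine Set.Subset.trans ?_ (Set.subset_iUnion s (n+1))
  rw [hs]
  refine Set.Subset.trans ?_ Set.subset_union_right
  exact Set.subset_biUnion_of_mem (u := fun a : Finset α => Φ a) hn

lemma L0 {k : ℕ} (F : Set (Fin k → X)) (R : Set X) (hR : R.Countable) :
    ∃ S : Set X, S.Countable ∧ R ⊆ S ∧
      ∀ (G : Fin k → Finset X) (H : Finset X),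
        (∃ f ∈ F, (∀ i, f i ∉ S) ∧ ∀ i, ∀ g ∈ G i, g ∉ T (f i)) →
        ∃ f ∈ F, (∀ i, f i ∈ S) ∧ (∀ i, f i ∉ R) ∧ (∀ i, f i ∉ H) ∧
          ∀ i, ∀ g ∈ G i, g ∉ T (f i) := by
  classical
  let P : (Fin k → Finset X) → Finset X → (Fin k → X) → Prop := fun G a f =>
    f ∈ F ∧ (∀ i, f i ∉ R) ∧ (∀ i, f i ∉ a) ∧ ∀ i, ∀ g ∈ G i, g ∉ T (f i)
  let c : (Fin k → Finset X) → Finset X → (Fin k → X) := fun G a =>
    if h : ∃ f, P G a f then h.choose else fun _ => .leaf
  have hcP : ∀ G a, (∃ f, P G a f) → P G a (c G a) := by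
    intro G a h
    simp only [c, dif_pos h]
    exact h.choose_spec
  let Φ : Finset X → Set X := fun a =>
    (⋃ e ∈ (a : Set X), T e) ∪
      ⋃ G ∈ ((Fintype.piFinset (fun _ : Fin k => a.powerset) : Finset (Fin k → Finset X)) :
        Set (Fin k → Finset X)), Set.range (c G a)
  have hΦ : ∀ a, (Φ a).Countable := by
    intro a
    refine Set.Countable.union ?_ ?_
    · exact (Finset.countable_toSet a).biUnion (fun e _ => T_countable e)
    · exact (Finset.countable_toSet _).biUnion (fun G _ => Set.countable_range _)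
  obtain ⟨S, hSc, hRS, hS⟩ := closure_lemma Φ hΦ R hR
  refine ⟨S, hSc, hRS, ?_⟩
  have hTS : ∀ e ∈ S, T e ⊆ S := by
    intro e he
    have h1 := hS {e} (by simpa using he)
    refine Set.Subset.trans ?_ h1
    refine Set.Subset.trans ?_ Set.subset_union_left
    exact Set.subset_biUnion_of_mem (u := fun e : X => T e) (by simp)
  intro G H ⟨f, hf, hfS, hfG⟩
  let G' : Fin k → Finset X := fun i => (G i).filter (· ∈ S)
  let a : Finset X := (Finset.univ.biUnion G') ∪ H.filter (· ∈ S)
  have haS : (a : Set X) ⊆ S := by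
    intro x hx
    simp only [a, Finset.coe_union, Set.mem_union, Finset.mem_coe, Finset.mem_biUnion,
      Finset.mem_filter, G', Finset.mem_univ, true_and] at hx
    rcases hx with ⟨i, hi⟩ | hx
    · exact hi.2
    · exact hx.2
  have hex : ∃ f, P G' a f := by
    refine ⟨f, hf, fun i hi => hfS i (hRS hi), fun i hi => hfS i (haS hi), ?_⟩
    intro i g hg
    exact hfG i g (Finset.mem_filter.1 hg).1
  have hP := hcP G' a hex
  obtain ⟨h1, h2, h3, h4⟩ := hP
  have hmemS : ∀ i, c G' a i ∈ S := by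
    intro i
    apply hS a haS
    right
    refine Set.mem_biUnion (x := G') ?_ ⟨i, rfl⟩
    rw [Finset.mem_coe, Fintype.mem_piFinset]
    intro j
    rw [Finset.mem_powerset]
    intro x hx
    exact Finset.mem_union_left _ (Finset.mem_biUnion.2 ⟨j, Finset.mem_univ _, hx⟩)
  refine ⟨c G' a, h1, hmemS, h2, ?_, ?_⟩
  · intro i hi
    apply h3 i
    exact Finset.mem_union_right _ (Finset.mem_filter.2 ⟨hi, hmemS i⟩)
  · intro i g hg hgT
    exact h4 i g (Finset.mem_filter.2 ⟨hg, hTS _ (hmemS i) hgT⟩) hgT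

lemma L1 {k : ℕ} (F : Set (Fin k → X))
    (hF : ∀ S : Set X, S.Countable → ∃ f ∈ F, ∀ i, f i ∉ S) :
    ∃ F₀ ⊆ F, F₀.Countable ∧ ∀ (ι : Type) [Fintype ι] (D : ι → Set X), (∀ l, Disc (D l)) →
      ∃ f ∈ F₀, ∀ i l, f i ∉ D l := by
  classical
  choose! nxt hn1 hn2 hn3 using (fun R hR => L0 F R hR)
  let r : ℕ → Set X := fun n => nxt^[n] ∅
  have hr : ∀ n, r (n+1) = nxt (r n) := fun n => Function.iterate_succ_apply' nxt n ∅
  have hrc : ∀ n, (r n).Countable := by
    intro n
    induction n with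
    | zero => exact Set.countable_empty
    | succ n ih => rw [hr]; exact hn1 _ ih
  have hRc : (⋃ n, r n).Countable := Set.countable_iUnion hrc
  refine ⟨{f | f ∈ F ∧ ∀ i, f i ∈ ⋃ n, r n}, fun f hf => hf.1, ?_, ?_⟩
  · refine Set.Countable.mono ?_ (Set.countable_pi (fun _ : Fin k => hRc))
    intro f hf
    exact hf.2
  · intro ι _ D hD
    by_contra hcon
    push Not at hcon
    let W : ι → Set X := fun l => {x | ∃ G H : Finset X, x ∈ B G H ∧ ∀ y ∈ D l, y ∉ B G H}
    have hWD : ∀ l, ∀ x ∈ D l, x ∉ W l := by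
      rintro l x hx ⟨G, H, h1, h2⟩
      exact h2 x hx h1
    let K : ℕ := Fintype.card (Fin k × ι)
    have key : ∀ m j : ℕ, j + m = K → ∃ f ∈ F, (∀ i, f i ∈ r (j+1)) ∧ (∀ i, f i ∉ r j) ∧
        ∃ I : Finset (Fin k × ι), I.card = m ∧ ∀ p ∈ I, f p.1 ∈ W p.2 := by
      intro m
      induction m with
      | zero =>
        intro j hj
        obtain ⟨f, hf, hfS⟩ := hF (r (j+1)) (hrc _)
        obtain ⟨f', h1, h2, h3, -, -⟩ := hn3 (r j) (hrc j) (fun _ => ∅) ∅
          ⟨f, hf, by rw [← hr]; exact hfS, by simp⟩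
        refine ⟨f', h1, ?_, h3, ∅, rfl, by simp⟩
        rw [hr]; exact h2
      | succ m ih =>
        intro j hj
        obtain ⟨f, hf, hf1, hf2, I, hI, hIW⟩ := ih (j+1) (by omega)
        have hf0 : f ∈ {f | f ∈ F ∧ ∀ i, f i ∈ ⋃ n, r n} :=
          ⟨hf, fun i => Set.mem_iUnion.2 ⟨_, hf1 i⟩⟩
        obtain ⟨i₀, l₀, hi₀⟩ := hcon f hf0
        have hi₀I : (i₀, l₀) ∉ I := fun h => hWD _ _ hi₀ (hIW _ h)
        obtain ⟨G₀, H₀, hd1, hd2⟩ := hD l₀ (f i₀) hi₀
        have hIW' : ∀ p : Fin k × ι, ∃ G H : Finset X,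
            p ∈ I → (f p.1 ∈ B G H ∧ ∀ y ∈ D p.2, y ∉ B G H) := by
          intro p
          by_cases hi : p ∈ I
          · obtain ⟨G, H, h⟩ := hIW p hi
            exact ⟨G, H, fun _ => h⟩
          · exact ⟨∅, ∅, fun h => absurd h hi⟩
        choose Gf Hf hGH using hIW'
        let G : Fin k → Finset X := fun i => (if i = i₀ then G₀ else ∅) ∪
          (I.filter (fun p => p.1 = i)).biUnion Gf
        let H : Finset X := insert (f i₀) (H₀ ∪ Finset.univ.biUnion Hf)
        obtain ⟨f', h1, h2, h3, h4, h5⟩ := hn3 (r j) (hrc j) G H ⟨f, hf, by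
          rw [← hr]; exact hf2, by
          intro i g hg
          simp only [G, Finset.mem_union, Finset.mem_biUnion, Finset.mem_filter] at hg
          rcases hg with hg | ⟨p, ⟨hp, rfl⟩, hg⟩
          · by_cases hi : i = i₀
            · subst hi
              simp only [if_true] at hg
              exact hd1.1 g hg
            · simp only [if_neg hi] at hg
              exact absurd hg (Finset.notMem_empty _)
          · exact (hGH p hp).1.1 g hg⟩
        refine ⟨f', h1, by rw [hr]; exact h2, h3, insert (i₀, l₀) I, ?_, ?_⟩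
        · rw [Finset.card_insert_of_notMem hi₀I, hI]
        · intro p hp
          rw [Finset.mem_insert] at hp
          rcases hp with rfl | hpI
          · refine ⟨G₀, insert (f i₀) H₀, ⟨?_, ?_⟩, ?_⟩
            · intro g hg
              apply h5 i₀ g
              simp only [G, if_true]
              exact Finset.mem_union_left _ hg
            · intro hmem
              apply h4 i₀
              rw [Finset.mem_insert] at hmem
              rcases hmem with hmem | hmem
              · exact Finset.mem_insert.2 (Or.inl hmem)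
              · exact Finset.mem_insert_of_mem (Finset.mem_union_left _ hmem)
            · intro y hy hyB
              have hyy : y = f i₀ := hd2 y hy ⟨hyB.1, fun h => hyB.2 (Finset.mem_insert_of_mem h)⟩
              exact hyB.2 (by rw [hyy]; exact Finset.mem_insert_self _ _)
          · refine ⟨Gf p, Hf p, ⟨?_, ?_⟩, (hGH p hpI).2⟩
            · intro g hg
              apply h5 p.1 g
              refine Finset.mem_union_right _ (Finset.mem_biUnion.2 ⟨p, ?_, hg⟩)
              exact Finset.mem_filter.2 ⟨hpI, rfl⟩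
            · intro hmem
              apply h4 p.1
              exact Finset.mem_insert_of_mem (Finset.mem_union_right _
                (Finset.mem_biUnion.2 ⟨p, Finset.mem_univ _, hmem⟩))
    obtain ⟨f, hf, hf1, -, I, hI, hIW⟩ := key K 0 (by omega)
    have hIu : I = Finset.univ := by
      apply Finset.eq_univ_of_card
      rw [hI]
    obtain ⟨i₀, l₀, hi₀⟩ := hcon f ⟨hf, fun i => Set.mem_iUnion.2 ⟨_, hf1 i⟩⟩
    exact hWD _ _ hi₀ (hIW (i₀, l₀) (by rw [hIu]; exact Finset.mem_univ _))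

end Pool.Agent.Y279.DS
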