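import Pool.Agent.Y279.DS

set_option autoImplicit false

/-!
The countable power of the space is hereditarily Lindelöf; the main theorem.
-/

namespace Pool.Agent.Y279.DS

open Set Topology

/-- the box of `X ^ N` given by `N` pairs of finite sets -/
def Box {N : ℕ} (p : Fin N → Finset X × Finset X) (x : Fin N → X) : Prop :=
  ∀ i, x i ∈ B (p i).1 (p i).2

lemma box_subcover {N : ℕ} (W : Set (Fin N → Finset X × Finset X)) :
    ∃ W' ⊆ W, W'.Countable ∧ ∀ p ∈ W, ∀ x : Fin N → X, Box p x → ∃ q ∈ W', Box q x := by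
  classical
  let Fam : Finset (Fin N) → (Fin N → X) → (Fin N → Finset X) → (k : ℕ) → Set (Fin k → X) :=
    fun A y r k => {f | ∃ p ∈ W, (∀ i ∈ A, y i ∈ B (p i).1 (p i).2) ∧
      ∀ i, i ∉ A → (p i).1 ⊆ r i ∪ Finset.univ.image f}
  have step : ∀ (A : Finset (Fin N)) (y : Fin N → X) (r : Fin N → Finset X) (k : ℕ),
      ∃ (C : Set X) (W₀ : Set (Fin N → Finset X × Finset X)),
      C.Countable ∧ W₀ ⊆ W ∧ W₀.Countable ∧
      ((∀ f ∈ Fam A y r k, ∃ i, f i ∈ C) ∨
        (∀ (ι : Type) [Fintype ι] (D : ι → Set X), (∀ l, Disc (D l)) →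
          ∃ q ∈ W₀, (∀ i ∈ A, y i ∈ B (q i).1 (q i).2) ∧
            ∀ i, i ∉ A → ∀ g ∈ (q i).1, g ∈ r i ∨ ∀ l, g ∉ D l)) := by
    intro A y r k
    by_cases h : ∀ S : Set X, S.Countable → ∃ f ∈ Fam A y r k, ∀ i, f i ∉ S
    · obtain ⟨F₀, hF₀, hF₀c, hF₀D⟩ := L1 (Fam A y r k) h
      have hch : ∀ f : Fin k → X, ∃ p : Fin N → Finset X × Finset X, f ∈ Fam A y r k →
          (p ∈ W ∧ (∀ i ∈ A, y i ∈ B (p i).1 (p i).2) ∧
            ∀ i, i ∉ A → (p i).1 ⊆ r i ∪ Finset.univ.image f) := by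
        intro f
        by_cases hf : f ∈ Fam A y r k
        · obtain ⟨p, hp⟩ := hf
          exact ⟨p, fun _ => hp⟩
        · exact ⟨fun _ => (∅, ∅), fun h => absurd h hf⟩
      choose pc hpc using hch
      refine ⟨∅, pc '' F₀, Set.countable_empty, ?_, hF₀c.image _, Or.inr ?_⟩
      · rintro q ⟨f, hf, rfl⟩
        exact (hpc f (hF₀ hf)).1
      · intro ι _ D hD
        obtain ⟨f, hf, hfD⟩ := hF₀D ι D hD
        refine ⟨_, ⟨f, hf, rfl⟩, (hpc f (hF₀ hf)).2.1, ?_⟩
        intro i hi g hg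
        have := (hpc f (hF₀ hf)).2.2 i hi hg
        simp only [Finset.mem_union, Finset.mem_image, Finset.mem_univ, true_and] at this
        rcases this with hg | ⟨j, rfl⟩
        · exact Or.inl hg
        · exact Or.inr (hfD j)
    · push Not at h
      obtain ⟨S, hS, hS2⟩ := h
      exact ⟨S, ∅, hS, Set.empty_subset _, Set.countable_empty, Or.inl hS2⟩
  choose C W₀ hC hW₀ hW₀c hCW using step
  -- parameters with values in a finite set
  let Par : Finset X → Set (Finset (Fin N) × (Fin N → X) × (Fin N → Finset X) × ℕ) := fun a =>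
    {t | (∀ i, t.2.1 i ∈ a) ∧ ∀ i, t.2.2.1 i ⊆ a}
  have hPar : ∀ a, (Par a).Countable := by
    intro a
    have h1 : (Set.univ : Set (Finset (Fin N))).Countable := Set.countable_univ
    have h2 : {y : Fin N → X | ∀ i, y i ∈ (a : Set X)}.Countable :=
      Set.countable_pi (fun _ => Finset.countable_toSet a)
    have h3 : {r : Fin N → Finset X | ∀ i, r i ∈ {b : Finset X | b ⊆ a}}.Countable := by
      refine Set.countable_pi (fun _ => ?_)
      refine (Finset.countable_toSet a.powerset).mono ?_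
      intro b hb
      exact Finset.mem_powerset.2 hb
    have h4 : (Set.univ : Set ℕ).Countable := Set.countable_univ
    refine (h1.prod (h2.prod (h3.prod h4))).mono ?_
    rintro ⟨A, y, r, k⟩ ⟨hy, hr⟩
    exact ⟨Set.mem_univ _, hy, hr, Set.mem_univ _⟩
  let Φ : Finset X → Set X := fun a => ⋃ t ∈ Par a, (C t.1 t.2.1 t.2.2.1 t.2.2.2 ∪
    ⋃ q ∈ W₀ t.1 t.2.1 t.2.2.1 t.2.2.2, ⋃ i, ((q i).2 : Set X))
  have hΦ : ∀ a, (Φ a).Countable := by
    intro a
    refine (hPar a).biUnion (fun t _ => (hC _ _ _ _).union ?_)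
    exact (hW₀c _ _ _ _).biUnion
      (fun q _ => Set.countable_iUnion (fun i => Finset.countable_toSet _))
  obtain ⟨S, hSc, hleaf, hS⟩ := closure_lemma Φ hΦ {X.leaf} (Set.countable_singleton _)
  have hleafS : X.leaf ∈ S := hleaf rfl
  refine ⟨⋃ a ∈ {a : Finset X | (a : Set X) ⊆ S}, ⋃ t ∈ Par a, W₀ t.1 t.2.1 t.2.2.1 t.2.2.2 ,
    ?_, ?_, ?_⟩
  · exact Set.iUnion₂_subset (fun a _ => Set.iUnion₂_subset (fun t _ => hW₀ _ _ _ _))
  · exact (countable_finsets hSc).biUnion (fun a _ => (hPar a).biUnion (fun t _ => hW₀c _ _ _ _))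
  · intro p hp x hx
    let A : Finset (Fin N) := Finset.univ.filter (fun i => x i ∈ S)
    have hA : ∀ i, i ∈ A ↔ x i ∈ S := fun i => by simp [A]
    let y : Fin N → X := fun i => if x i ∈ S then x i else X.leaf
    have hyS : ∀ i, y i ∈ S := by
      intro i
      by_cases h : x i ∈ S
      · simp only [y, if_pos h]; exact h
      · simp only [y, if_neg h]; exact hleafS
    have hyA : ∀ i ∈ A, y i = x i := by
      intro i hi
      simp only [y, if_pos ((hA i).1 hi)]
    let r : Fin N → Finset X := fun i => ((p i).1).filter (· ∈ S)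
    let G' : Finset X := Finset.univ.biUnion (fun i => ((p i).1).filter (· ∉ S))
    let e := G'.equivFin
    let f : Fin G'.card → X := fun i => (e.symm i : X)
    have hfS : ∀ j, f j ∉ S := by
      intro j
      have h1 : (e.symm j : X) ∈ G' := (e.symm j).2
      obtain ⟨i, -, hi⟩ := Finset.mem_biUnion.1 h1
      exact (Finset.mem_filter.1 hi).2
    have hfF : f ∈ Fam A y r G'.card := by
      refine ⟨p, hp, ?_, ?_⟩
      · intro i hi
        rw [hyA i hi]
        exact hx i
      · intro i _ g hg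
        by_cases hgS : g ∈ S
        · exact Finset.mem_union_left _ (Finset.mem_filter.2 ⟨hg, hgS⟩)
        · refine Finset.mem_union_right _ (Finset.mem_image.2 ?_)
          have hgG : g ∈ G' := Finset.mem_biUnion.2
            ⟨i, Finset.mem_univ _, Finset.mem_filter.2 ⟨hg, hgS⟩⟩
          exact ⟨e ⟨g, hgG⟩, Finset.mem_univ _, by simp [f]⟩
    let a : Finset X := (Finset.univ.image y) ∪ Finset.univ.biUnion r
    have haS : (a : Set X) ⊆ S := by
      intro z hz
      simp only [a, Finset.coe_union, Set.mem_union, Finset.mem_coe, Finset.mem_image,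
        Finset.mem_biUnion, Finset.mem_univ, true_and] at hz
      rcases hz with ⟨i, rfl⟩ | ⟨i, hi⟩
      · exact hyS i
      · exact (Finset.mem_filter.1 hi).2
    have hta : ((A, y, r, G'.card) : Finset (Fin N) × (Fin N → X) × (Fin N → Finset X) × ℕ)
        ∈ Par a := by
      refine ⟨fun i => ?_, fun i => ?_⟩
      · exact Finset.mem_union_left _ (Finset.mem_image.2 ⟨i, Finset.mem_univ _, rfl⟩)
      · intro g hg
        exact Finset.mem_union_right _ (Finset.mem_biUnion.2 ⟨i, Finset.mem_univ _, hg⟩)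
    have hΦS := hS a haS
    rcases hCW A y r G'.card with h | h
    · obtain ⟨j, hj⟩ := h f hfF
      exact absurd (hΦS (Set.mem_biUnion hta (Or.inl hj))) (hfS j)
    · choose k E hE hTE using T_disc
      obtain ⟨q, hq, hqA, hqD⟩ := h (Σ i : Fin N, Fin (k (x i))) (fun l => E (x l.1) l.2)
        (fun l => hE _ _)
      refine ⟨q, ?_, ?_⟩
      · exact Set.mem_biUnion (x := a) haS (Set.mem_biUnion hta hq)
      · intro i
        by_cases hi : i ∈ A
        · have := hqA i hi
          rwa [hyA i hi] at this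
        · refine ⟨?_, ?_⟩
          · intro g hg hgT
            rcases hqD i hi g hg with h' | h'
            · exact (hx i).1 g (Finset.mem_filter.1 h').1 hgT
            · obtain ⟨j, hj⟩ := Set.mem_iUnion.1 (hTE (x i) hgT)
              exact h' ⟨i, j⟩ hj
          · intro hxq
            apply (fun h => hi ((hA i).2 h))
            apply hΦS
            refine Set.mem_biUnion hta (Or.inr ?_)
            exact Set.mem_biUnion hq (Set.mem_iUnion.2 ⟨i, hxq⟩)

def basis : Set (Set X) := {s | ∃ G H : Finset X, s = B G H}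

instance top : TopologicalSpace X := TopologicalSpace.generateFrom basis

lemma isBasis : TopologicalSpace.IsTopologicalBasis basis where
  exists_subset_inter := by
    classical
    rintro _ ⟨G, H, rfl⟩ _ ⟨G', H', rfl⟩ x ⟨h1, h2⟩
    refine ⟨B (G ∪ G') (H ∪ H'), ⟨_, _, rfl⟩, ⟨?_, ?_⟩, ?_⟩
    · intro g hg
      rcases Finset.mem_union.1 hg with hg | hg
      · exact h1.1 g hg
      · exact h2.1 g hg
    · intro h
      rcases Finset.mem_union.1 h with h | h
      · exact h1.2 h
      · exact h2.2 h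
    · rintro y ⟨hy1, hy2⟩
      exact ⟨⟨fun g hg => hy1 g (Finset.mem_union_left _ hg),
        fun h => hy2 (Finset.mem_union_left _ h)⟩,
        ⟨fun g hg => hy1 g (Finset.mem_union_right _ hg),
        fun h => hy2 (Finset.mem_union_right _ h)⟩⟩
  sUnion_eq := by
    apply Set.eq_univ_of_forall
    intro x
    exact ⟨B ∅ ∅, ⟨_, _, rfl⟩, by simp [B]⟩
  eq_generateFrom := rfl

lemma isOpen_B (G H : Finset X) : IsOpen (B G H) := isBasis.isOpen ⟨G, H, rfl⟩

instance t1 : T1Space X where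
  t1 x := by
    rw [← isOpen_compl_iff]
    have : ({x} : Set X)ᶜ = B ∅ {x} := by
      ext y; simp [B]
    rw [this]
    exact isOpen_B _ _

/-- the open subset of `X ^ ℕ` given by a box in the first `N` coordinates -/
def NBox {N : ℕ} (p : Fin N → Finset X × Finset X) : Set (ℕ → X) :=
  {x | Box p (fun i : Fin N => x i)}

lemma exists_nbox (U : Set (ℕ → X)) (hU : IsOpen U) (x : ℕ → X) (hx : x ∈ U) :
    ∃ (N : ℕ) (p : Fin N → Finset X × Finset X), x ∈ NBox p ∧ NBox p ⊆ U := by
  classical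
  obtain ⟨I, u, hu, hIu⟩ := isOpen_pi_iff.1 hU x hx
  have hch : ∀ i : ℕ, ∃ p : Finset X × Finset X, x i ∈ B p.1 p.2 ∧
      (i ∈ I → B p.1 p.2 ⊆ u i) := by
    intro i
    by_cases hi : i ∈ I
    · obtain ⟨s, ⟨G, H, rfl⟩, hxs, hsV⟩ :=
        isBasis.exists_subset_of_mem_open (hu i hi).2 (hu i hi).1
      exact ⟨(G, H), hxs, fun _ => hsV⟩
    · exact ⟨(∅, ∅), by simp [B], fun h => absurd h hi⟩
  choose p hp1 hp2 using hch
  refine ⟨I.sup id + 1, fun i => p i, fun i => hp1 i, ?_⟩
  intro y hy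
  apply hIu
  intro i hi
  have hiN : i < I.sup id + 1 := Nat.lt_succ_of_le (Finset.le_sup (f := id) hi)
  exact hp2 i hi (hy ⟨i, hiN⟩)

lemma isLindelof_pi (t : Set (ℕ → X)) : IsLindelof t := by
  apply isLindelof_of_countable_subcover
  intro ι U hU htU
  have hsub : ∀ N : ℕ, ∃ W' : Set (Fin N → Finset X × Finset X),
      W' ⊆ {p | ∃ i, NBox p ⊆ U i} ∧ W'.Countable ∧
      ∀ p ∈ {p : Fin N → Finset X × Finset X | ∃ i, NBox p ⊆ U i}, ∀ x : Fin N → X,
        Box p x → ∃ q ∈ W', Box q x := fun N => box_subcover _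
  choose W' hW' hW'c hcov using hsub
  by_cases hι : Nonempty ι
  · have hch : ∀ (N : ℕ) (p : Fin N → Finset X × Finset X), ∃ i, p ∈ W' N → NBox p ⊆ U i := by
      intro N p
      by_cases h : p ∈ W' N
      · obtain ⟨i, hi⟩ := hW' N h
        exact ⟨i, fun _ => hi⟩
      · exact ⟨hι.some, fun h' => absurd h' h⟩
    choose ic hic using hch
    refine ⟨⋃ N, ic N '' W' N, Set.countable_iUnion (fun N => (hW'c N).image _), ?_⟩
    intro x hx
    obtain ⟨i, hi⟩ := Set.mem_iUnion.1 (htU hx)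
    obtain ⟨N, p, hxp, hpU⟩ := exists_nbox (U i) (hU i) x hi
    obtain ⟨q, hq, hxq⟩ := hcov N p ⟨i, hpU⟩ _ hxp
    exact Set.mem_biUnion (Set.mem_iUnion.2 ⟨N, Set.mem_image_of_mem _ hq⟩) (hic N q hq hxq)
  · refine ⟨∅, Set.countable_empty, ?_⟩
    intro x hx
    obtain ⟨i, -⟩ := Set.mem_iUnion.1 (htU hx)
    exact absurd ⟨i⟩ hι

instance hlpi : HereditarilyLindelofSpace (ℕ → X) where
  isHereditarilyLindelof_univ := fun t _ => isLindelof_pi t

lemma isLindelof_set (t : Set X) : IsLindelof t := by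
  have h := (isLindelof_pi ((fun x : ℕ → X => x 0) ⁻¹' t)).image (continuous_apply 0)
  rwa [Set.image_preimage_eq t (fun x => ⟨fun _ => x, rfl⟩)] at h

lemma disc_of_discreteTopology (D : Set X) (hD : DiscreteTopology D) : Disc D := by
  intro d hd
  have h1 : IsOpen ({⟨d, hd⟩} : Set D) := isOpen_discrete _
  rw [isOpen_induced_iff] at h1
  obtain ⟨V, hV, hVd⟩ := h1
  have hdV : d ∈ V := by
    have : (⟨d, hd⟩ : D) ∈ Subtype.val ⁻¹' V := by rw [hVd]; exact rfl
    exact this
  obtain ⟨s, ⟨G, H, rfl⟩, hds, hsV⟩ := isBasis.exists_subset_of_mem_open hdV hV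
  refine ⟨G, H, hds, ?_⟩
  intro x hx hxB
  have : (⟨x, hx⟩ : D) ∈ Subtype.val ⁻¹' V := hsV hxB
  rw [hVd] at this
  exact congrArg Subtype.val this

lemma countable_of_discreteTopology (D : Set X) (hD : DiscreteTopology D) : D.Countable := by
  have h1 : IsLindelof D := isLindelof_set D
  have h2 : IsLindelof (Set.univ : Set D) := by
    rw [← Subtype.range_coe (s := D)] at h1
    rw [← Set.image_univ] at h1
    exact (Topology.IsInducing.subtypeVal.isLindelof_iff).2 h1
  have h3 := h2.countable_of_discrete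
  exact Set.countable_coe_iff.1 (Set.countable_univ_iff.1 h3)

theorem main :
    ∃ (X : Type) (_ : TopologicalSpace X),
      T1Space X ∧ HereditarilyLindelofSpace (ℕ → X) ∧
      ∃ U : X → Set X, (∀ x, IsOpen (U x) ∧ x ∈ U x) ∧
        ∀ (n : ℕ) (D : Fin n → Set X), (∀ j, DiscreteTopology (D j)) →
          ∃ y : X, ∀ j, ∀ x ∈ D j, y ∉ U x := by
  refine ⟨X, top, t1, hlpi, fun x => B {x} ∅, fun x => ⟨isOpen_B _ _, ?_, by simp⟩, ?_⟩
  · intro g hg
    rw [Finset.mem_singleton] at hg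
    subst hg
    exact notMem_T g
  · intro n D hD
    by_cases hne : (⋃ j, D j).Nonempty
    · obtain ⟨y, hy⟩ := exists_T_eq (⋃ j, D j)
        (Set.countable_iUnion fun j => countable_of_discreteTopology _ (hD j)) hne n D
        (fun j => disc_of_discreteTopology _ (hD j)) subset_rfl
      refine ⟨y, fun j x hx hyx => ?_⟩
      apply hyx.1 x (Finset.mem_singleton_self _)
      rw [hy]
      exact Set.mem_iUnion.2 ⟨j, hx⟩
    · refine ⟨X.leaf, fun j x hx _ => hne ⟨x, Set.mem_iUnion.2 ⟨j, hx⟩⟩⟩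

end Pool.Agent.Y279.DS
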